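import Pool.Agent.Lib.MP_a47f92_an.Dc.Lf

set_option autoImplicit false
set_option linter.unusedSectionVars false

namespace Pool.Agent.Lib.MP_a47f92_an.Dc

open MeasureTheory Filter Topology Set Complex Metric Function
open scoped ContDiff ComplexConjugate ENNReal NNReal

variable {s N : ℕ} {Ξ : E (s + 1) → E (s + 1)} {Ω : Set (E (s + 1))} {r : ℝ} {y : E (s + 1)}
  {ζ : ℂ}

/-- For `ρ₁ ≥ 0`: `Ξ` is injective on the compact set `tau y₀ '' closedBall 0 ρ₁` (`tau_img`), so on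
an open set `W` around it (`Set.InjOn.exists_isOpen_superset`, intersect with `Ur`); take `V = Ξ '' W`
and `g` from `Fo.inv_on`; tube lemma (`IsCompact.eventually_forall_of_forall_eventually`); for `y`
near `y₀`, `w ↦ g (Ξ y + w • ev 0)` is a lift (`le_rho`, `tau_eq`). -/
theorem loc_tau (h : Fo Ξ Ω) (hr : 0 < r) {y₀ : E (s + 1)} {ρ₁ : ℝ} (h1 : ρ₁ < rho Ξ Ω r y₀) :
    ∃ (g : E (s + 1) → E (s + 1)) (V : Set (E (s + 1))), IsOpen V ∧ DifferentiableOn ℂ g V ∧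
      ∀ᶠ y in 𝓝 y₀, ρ₁ ≤ rho Ξ Ω r y ∧ ∀ w : ℂ, ‖w‖ < ρ₁ →
        Ξ y + w • ev 0 ∈ V ∧ tau Ξ Ω r y w = g (Ξ y + w • ev 0) := by
  rcases le_or_gt ρ₁ 0 with h0 | h0
  · exact ⟨id, ∅, isOpen_empty, differentiableOn_empty, Eventually.of_forall fun y =>
      ⟨h0.trans (rho_nonneg _ _ _ _), fun w hw => absurd (hw.trans_le h0) (norm_nonneg w).not_gt⟩⟩
  have hb : ∀ w ∈ closedBall (0 : ℂ) ρ₁, ‖w‖ < rho Ξ Ω r y₀ := fun w hw =>
    (mem_closedBall_zero_iff.1 hw).trans_lt h1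
  have hc : IsCompact (tau Ξ Ω r y₀ '' closedBall 0 ρ₁) :=
    (isCompact_closedBall _ _).image_of_continuousOn
      ((tau_spec h hr y₀).diff.continuousOn.mono (closedBall_subset_ball h1))
  have hU : tau Ξ Ω r y₀ '' closedBall 0 ρ₁ ⊆ Ur Ξ Ω := by
    rintro _ ⟨w, hw, rfl⟩
    exact tau_mem h hr (hb w hw)
  have hi : InjOn Ξ (tau Ξ Ω r y₀ '' closedBall 0 ρ₁) := by
    rintro _ ⟨w, hw, rfl⟩ _ ⟨w', hw', rfl⟩ e
    rw [tau_img h hr (hb w hw), tau_img h hr (hb w' hw'), add_right_inj] at e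
    have e' := congrArg (fun v : E (s + 1) => v 0) e
    obtain rfl : w = w' := by simpa [ev] using e'
    rfl
  obtain ⟨t, ht, hs, hj⟩ := hi.exists_isOpen_superset hc
    (fun x hx => (h.an x (hU hx).1).continuousAt) fun x hx => h.loc_inj (hU hx)
  have hW := ht.inter h.isOpen_ur
  obtain ⟨hV, g, hg, hg'⟩ := h.inv_on hW inter_subset_right (hj.mono inter_subset_left)
  have m0 : y₀ ∈ tau Ξ Ω r y₀ '' closedBall 0 ρ₁ :=
    ⟨0, mem_closedBall_self h0.le, tau_zero _ _ _ _⟩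
  have h2 : ∀ᶠ y in 𝓝 y₀, ∀ w ∈ closedBall (0 : ℂ) ρ₁, Ξ y + w • ev 0 ∈ Ξ '' (t ∩ Ur Ξ Ω) := by
    refine (isCompact_closedBall _ _).eventually_forall_of_forall_eventually fun w hw => ?_
    have c1 : ContinuousAt (fun z : E (s + 1) × ℂ => Ξ z.1 + z.2 • (ev 0 : E (s + 1))) (y₀, w) :=
      (ContinuousAt.comp (f := Prod.fst) (h.an y₀ (hU m0).1).continuousAt continuousAt_fst).add
        (continuousAt_snd.smul continuousAt_const)
    refine c1.eventually (hV.mem_nhds ?_)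
    exact ⟨_, ⟨hs ⟨w, hw, rfl⟩, hU ⟨w, hw, rfl⟩⟩, tau_img h hr (hb w hw)⟩
  refine ⟨g, _, hV, hg, ?_⟩
  filter_upwards [h2, hW.mem_nhds ⟨hs m0, hU m0⟩] with y hy hy'
  have hl : Lf Ξ Ω y (ball 0 ρ₁) fun w => g (Ξ y + w • ev 0) := by
    refine ⟨hg.comp (by fun_prop) fun w hw => hy w (ball_subset_closedBall hw), ?_,
      fun w hw => ?_, fun w hw => ?_⟩
    · simp only [zero_smul, add_zero, hg' y hy']
    · obtain ⟨x, hx, e⟩ := hy w (ball_subset_closedBall hw)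
      rw [← e, hg' x hx]
      exact hx.2
    · obtain ⟨x, hx, e⟩ := hy w (ball_subset_closedBall hw)
      rw [← e, hg' x hx]
  have h3 := h1.le.trans (rho_le hr Ξ Ω y₀)
  exact ⟨le_rho hl h3, fun w hw => ⟨hy w (mem_closedBall_zero_iff.2 hw.le),
    tau_eq h hr hl h3 (mem_ball_zero_iff.2 hw)⟩⟩

theorem lsc_rho (h : Fo Ξ Ω) (hr : 0 < r) : LowerSemicontinuous (rho Ξ Ω r) := by
  intro y c hc
  obtain ⟨ρ₁, h1, h2⟩ := exists_between hc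
  obtain ⟨_, _, _, _, h3⟩ := loc_tau h hr h2
  exact h3.mono fun _ h4 => h1.trans_le h4.1

theorem measurable_rho (h : Fo Ξ Ω) (hr : 0 < r) : Measurable (rho Ξ Ω r) :=
  (lsc_rho h hr).measurable

theorem isOpen_lt_rho (h : Fo Ξ Ω) (hr : 0 < r) (δ : ℝ) : IsOpen {y | δ < rho Ξ Ω r y} :=
  (lsc_rho h hr).isOpen_preimage δ

theorem isOpen_dm (h : Fo Ξ Ω) (hr : 0 < r) : IsOpen (Dm Ξ Ω r) := by
  refine isOpen_iff_mem_nhds.2 fun w hw => ?_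
  obtain ⟨c, h1, h2⟩ := exists_between (show ‖w.2‖ < rho Ξ Ω r w.1 from hw)
  have h3 := ((isOpen_lt_rho h hr c).preimage continuous_fst).inter
    (isOpen_lt (continuous_snd (Y := ℂ)).norm (continuous_const (y := c)))
  exact mem_of_superset (h3.mem_nhds ⟨h2, h1⟩) fun z hz =>
    show ‖z.2‖ < _ from lt_trans hz.2 hz.1

theorem differentiableOn_tau (h : Fo Ξ Ω) (hr : 0 < r) :
    DifferentiableOn ℂ (fun w : E (s + 1) × ℂ => tau Ξ Ω r w.1 w.2) (Dm Ξ Ω r) := by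
  intro w hw
  obtain ⟨c, h1, h2⟩ := exists_between (show ‖w.2‖ < rho Ξ Ω r w.1 from hw)
  obtain ⟨g, V, hV, hg, h3⟩ := loc_tau h hr h2
  have h4 : ∀ᶠ z : E (s + 1) × ℂ in 𝓝 w, tau Ξ Ω r z.1 z.2 = g (Ξ z.1 + z.2 • ev 0) := by
    filter_upwards [continuousAt_fst.eventually h3,
      (isOpen_lt (continuous_snd (Y := ℂ)).norm (continuous_const (y := c))).mem_nhds h1]
      with z hz hz' using (hz.2 z.2 hz').2
  have h5 : DifferentiableAt ℂ Ξ w.1 :=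
    (h.an _ (mem_ur h hr ((norm_nonneg _).trans_lt hw)).1).differentiableAt
  have h6 : DifferentiableAt ℂ (fun z : E (s + 1) × ℂ => Ξ z.1 + z.2 • (ev 0 : E (s + 1))) w :=
    (h5.comp w differentiableAt_fst).add (differentiableAt_snd.smul_const _)
  exact (((hg.differentiableAt (hV.mem_nhds (h3.self_of_nhds.2 _ h1).1)).comp w
    h6).congr_of_eventuallyEq h4).differentiableWithinAt

theorem continuousOn_tau (h : Fo Ξ Ω) (hr : 0 < r) :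
    ContinuousOn (fun w : E (s + 1) × ℂ => tau Ξ Ω r w.1 w.2) (Dm Ξ Ω r) :=
  (differentiableOn_tau h hr).continuousOn

theorem Loc_diff (h : Fo Ξ Ω) (hr : 0 < r) (hζ : ‖ζ‖ < rho Ξ Ω r y) :
    DifferentiableAt ℂ (fun y => tau Ξ Ω r y ζ) y :=
  DifferentiableAt.comp (f := fun y => (y, ζ)) y ((differentiableOn_tau h hr).differentiableAt
    ((isOpen_dm h hr).mem_nhds hζ)) (differentiableAt_id.prodMk (differentiableAt_const ζ))

theorem isOpen_dz (h : Fo Ξ Ω) (hr : 0 < r) (ζ : ℂ) : IsOpen (Dz Ξ Ω r ζ) := by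
  refine isOpen_iff_mem_nhds.2 fun y hy => ?_
  exact inter_mem ((isOpen_lt_rho h hr _).mem_nhds hy.1)
    ((Loc_diff h hr hy.1).continuousAt.eventually ((isOpen_lt_rho h hr ‖ζ‖).mem_nhds hy.2))

/-- Differentiate `Ξ (tau y ζ) = Ξ y + ζ • ev 0` in `y` (`cmat_comp`, `cmat_det`). -/
theorem jac_tau (h : Fo Ξ Ω) (hr : 0 < r) (hζ : ‖ζ‖ < rho Ξ Ω r y) :
    DifferentiableAt ℂ (fun y => tau Ξ Ω r y ζ) y ∧
      jac (fun y => tau Ξ Ω r y ζ) y * jac Ξ (tau Ξ Ω r y ζ) = jac Ξ y := by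
  have h1 := Loc_diff h hr hζ
  refine ⟨h1, ?_⟩
  have h2 := (h.an _ (tau_mem h hr hζ).1).differentiableAt
  have h3 : (Ξ ∘ fun y => tau Ξ Ω r y ζ) =ᶠ[𝓝 y] fun y => Ξ y + ζ • ev 0 := by
    filter_upwards [(isOpen_lt_rho h hr ‖ζ‖).mem_nhds hζ] with z hz using tau_img h hr hz
  have h4 := h3.fderiv_eq (𝕜 := ℂ)
  rw [fderiv_comp y h2 h1, fderiv_add_const] at h4
  rw [jac, jac, jac, ← h4, ← cmat_det, ← cmat_det, ← cmat_det, cmat_comp, Matrix.det_mul, norm_mul,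
    mul_pow, mul_comm]

/-- `rho ≥ 3 δ₀ > 0` on `S` (cover `S` by the open sets `1 / (k + 1) < rho`); `S'` is the image of
`S ×ˢ closedBall 0 δ₀`; `rho_tau_ge`. -/
theorem exists_nbhd (h : Fo Ξ Ω) (hr : 0 < r) {S : Set (E (s + 1))} (hS : IsCompact S)
    (hU : S ⊆ Ur Ξ Ω) : ∃ δ₀ : ℝ, 0 < δ₀ ∧ ∃ S' : Set (E (s + 1)), IsCompact S' ∧ S ⊆ S' ∧
      (∀ y ∈ S', δ₀ < rho Ξ Ω r y) ∧ ∀ y ∈ S, ∀ w : ℂ, ‖w‖ ≤ δ₀ → tau Ξ Ω r y w ∈ S' := by
  obtain ⟨c, c0, hc⟩ : ∃ c : ℝ, 0 < c ∧ ∀ y ∈ S, c ≤ rho Ξ Ω r y := by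
    rcases S.eq_empty_or_nonempty with rfl | hne
    · exact ⟨1, one_pos, fun y hy => hy.elim⟩
    obtain ⟨a, ha, hm⟩ := LowerSemicontinuousOn.exists_isMinOn hne hS
      ((lsc_rho h hr).lowerSemicontinuousOn S)
    exact ⟨_, rho_pos h hr (hU ha), fun y hy => hm hy⟩
  have h1 : ∀ y ∈ S, ∀ w ∈ closedBall (0 : ℂ) (c / 3), ‖w‖ < rho Ξ Ω r y := fun y hy w hw => by
    linarith [hc y hy, mem_closedBall_zero_iff.1 hw]
  refine ⟨c / 3, by positivity, _,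
    (hS.prod (isCompact_closedBall (0 : ℂ) (c / 3))).image_of_continuousOn ((continuousOn_tau h hr).mono fun w hw => h1 _ hw.1 _ hw.2),
    fun y hy => ⟨(y, 0), ⟨hy, mem_closedBall_self (by positivity)⟩, tau_zero _ _ _ _⟩, ?_,
    fun y hy w hw => ⟨(y, w), ⟨hy, mem_closedBall_zero_iff.2 hw⟩, rfl⟩⟩
  rintro _ ⟨w, hw, rfl⟩
  linarith [rho_tau_ge h hr (h1 _ hw.1 _ hw.2), hc _ hw.1, mem_closedBall_zero_iff.1 hw.2]

end Pool.Agent.Lib.MP_a47f92_an.Dc
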