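import Pool.Agent.Lib.MP_a47f92_an.Dc.Def

set_option autoImplicit false
set_option linter.unusedSectionVars false

namespace Pool.Agent.Lib.MP_a47f92_an.Dc

open MeasureTheory Filter Topology Set Complex Metric Function
open scoped ContDiff ComplexConjugate ENNReal NNReal

theorem Dir_span [Fact ((0 : ℝ) < 1)] {g : C(AddCircle (1 : ℝ), ℂ)}
    (hg : g ∈ Submodule.span ℂ (range (@fourier 1))) :
    ∃ P Q : ℂ → ℂ, Differentiable ℂ P ∧ Differentiable ℂ Q ∧
      ∀ x, g x = P (AddCircle.toCircle x) + conj (Q (AddCircle.toCircle x)) := by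
  have hn : ∀ (n : ℕ) (x : AddCircle (1 : ℝ)),
      fourier (n : ℤ) x = (AddCircle.toCircle x : ℂ) ^ n := fun n x => by
    rw [fourier_apply, natCast_zsmul, AddCircle.toCircle_nsmul, Circle.coe_pow]
  induction hg using Submodule.span_induction with
  | mem g hg =>
    obtain ⟨n, rfl⟩ := hg
    obtain ⟨n, rfl | rfl⟩ := n.eq_nat_or_neg
    · exact ⟨fun w => w ^ n, fun _ => 0, by fun_prop, by fun_prop, fun x => by simp [hn]⟩
    · exact ⟨fun _ => 0, fun w => w ^ n, by fun_prop, by fun_prop, fun x => by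
        rw [fourier_neg, hn, zero_add]⟩
  | zero => exact ⟨fun _ => 0, fun _ => 0, by fun_prop, by fun_prop, fun x => by simp⟩
  | add a b _ _ ha hb =>
    obtain ⟨P, Q, h1, h2, h3⟩ := ha
    obtain ⟨P', Q', h4, h5, h6⟩ := hb
    refine ⟨fun w => P w + P' w, fun w => Q w + Q' w, h1.add h4, h2.add h5, fun x => ?_⟩
    rw [ContinuousMap.add_apply, h3, h6, map_add]
    ring
  | smul a b _ hb =>
    obtain ⟨P, Q, h1, h2, h3⟩ := hb
    refine ⟨fun w => a * P w, fun w => conj a * Q w, h1.const_mul _, h2.const_mul _, fun x => ?_⟩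
    rw [ContinuousMap.smul_apply, h3, map_mul, conj_conj, smul_eq_mul]
    ring

/-- Trigonometric polynomials are dense (`span_fourier_closure_eq_top` on `AddCircle (2 π)`, or
Stone-Weierstrass on the circle for the algebra generated by `z` and `conj z`); on the circle
`re (a * conj ((z - c) / δ) ^ k) = re (conj a * ((z - c) / δ) ^ k)`. -/
theorem exists_re_approx {u : ℂ → ℝ} {c : ℂ} {δ ε : ℝ} (hδ : 0 < δ) (hε : 0 < ε)
    (hu : ContinuousOn u (sphere c δ)) :
    ∃ Q : ℂ → ℂ, Differentiable ℂ Q ∧ ∀ z ∈ sphere c δ, |u z - (Q z).re| ≤ ε := by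
  have : Fact ((0 : ℝ) < 1) := ⟨one_pos⟩
  have hδ' : (δ : ℂ) ≠ 0 := ofReal_ne_zero.2 hδ.ne'
  have hm : ∀ x : AddCircle (1 : ℝ), c + δ * (AddCircle.toCircle x : ℂ) ∈ sphere c δ := by
    intro x
    rw [mem_sphere_iff_norm, add_sub_cancel_left, norm_mul, Circle.norm_coe, mul_one,
      Complex.norm_real, Real.norm_of_nonneg hδ.le]
  have hc : Continuous fun x : AddCircle (1 : ℝ) => c + δ * (AddCircle.toCircle x : ℂ) :=
    continuous_const.add (continuous_const.mul
      (continuous_subtype_val.comp AddCircle.continuous_toCircle))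
  let F : C(AddCircle (1 : ℝ), ℂ) :=
    ⟨fun x => (u (c + δ * (AddCircle.toCircle x : ℂ)) : ℂ),
      continuous_ofReal.comp (hu.comp_continuous hc hm)⟩
  have hF : F ∈ (Submodule.span ℂ (range (@fourier 1))).topologicalClosure := by
    rw [span_fourier_closure_eq_top]
    trivial
  obtain ⟨g, hg, hd⟩ := Metric.mem_closure_iff.1 hF ε hε
  obtain ⟨P, Q, h1, h2, h3⟩ := Dir_span hg
  refine ⟨fun z => P ((z - c) / δ) + Q ((z - c) / δ), by fun_prop, fun z hz => ?_⟩
  have hz' : (z - c) / δ ∈ Submonoid.unitSphere ℂ := by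
    change _ ∈ sphere (0 : ℂ) 1
    rw [mem_sphere_zero_iff_norm, norm_div, mem_sphere_iff_norm.1 hz, Complex.norm_real,
      Real.norm_of_nonneg hδ.le, div_self hδ.ne']
  obtain ⟨x, hx⟩ := (AddCircle.homeomorphCircle (T := (1 : ℝ)) one_ne_zero).surjective ⟨_, hz'⟩
  rw [AddCircle.homeomorphCircle_apply] at hx
  have h4 : (AddCircle.toCircle x : ℂ) = (z - c) / δ := by rw [hx]
  have h5 : c + δ * ((z - c) / δ) = z := by
    field_simp
    ring
  have h6 := (abs_re_le_norm (F x - g x)).trans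
    ((dist_eq_norm _ _).symm.trans_le ((ContinuousMap.dist_apply_le_dist x).trans hd.le))
  change |((u (c + δ * (AddCircle.toCircle x : ℂ)) : ℂ) - g x).re| ≤ ε at h6
  rw [h3, h4, h5] at h6
  simpa using h6

/-- Harnack's inequality: `HarmonicOnNhd.circleAverage_poissonKernel_smul`,
`HarmonicOnNhd.circleAverage_eq`; the kernel is at most `(R + ‖ζ‖) / (R - ‖ζ‖) ≤ 2`. -/
theorem harnack {v : ℂ → ℝ} {R : ℝ} (hR : 0 < R)
    (hv : InnerProductSpace.HarmonicOnNhd v (closedBall 0 R))
    (h0 : ∀ z ∈ closedBall (0 : ℂ) R, 0 ≤ v z) {ζ : ℂ} (hζ : ‖ζ‖ ≤ R / 3) : v ζ ≤ 2 * v 0 := by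
  have hR' : |R| = R := abs_of_pos hR
  have hw : ζ ∈ ball (0 : ℂ) R := by
    rw [mem_ball_zero_iff]
    linarith
  have hc : ContinuousOn v (sphere 0 R) := hv.continuousOn.mono sphere_subset_closedBall
  have hv' : InnerProductSpace.HarmonicOnNhd v (closedBall 0 |R|) := by rwa [hR']
  rw [← hv.circleAverage_re_herglotzRieszKernel_smul hw, ← hv'.circleAverage_eq, ← smul_eq_mul,
    ← Real.circleAverage_fun_smul]
  refine Real.circleAverage_mono (ContinuousOn.circleIntegrable hR.le ?_)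
    (ContinuousOn.circleIntegrable hR.le (hc.const_smul (2 : ℝ))) fun z hz => ?_
  · refine ContinuousOn.smul (continuous_re.comp_continuousOn ?_) hc
    rw [herglotzRieszKernel_fun_def]
    refine ContinuousOn.div (by fun_prop) (by fun_prop) fun z hz h => ?_
    rw [sub_zero, sub_zero, sub_eq_zero] at h
    rw [mem_sphere_zero_iff_norm, h] at hz
    linarith
  · rw [hR'] at hz
    refine mul_le_mul_of_nonneg_right ((re_herglotzRieszKernel_le hz hw).trans ?_)
      (h0 z (sphere_subset_closedBall hz))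
    rw [sub_zero, div_le_iff₀ (by linarith)]
    linarith

end Pool.Agent.Lib.MP_a47f92_an.Dc
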