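import Pool.Agent.Lib.MP_a47f92_an.Dc.Rad
import Pool.Agent.Lib.MP_a47f92_an.Dc.Dir

set_option autoImplicit false
set_option linter.unusedSectionVars false

namespace Pool.Agent.Lib.MP_a47f92_an.Dc

open MeasureTheory Filter Topology Set Complex Metric Function
open scoped ContDiff ComplexConjugate ENNReal NNReal

variable {c : ℂ} {δ : ℝ}

theorem Visc_int {u : ℂ → ℝ} (hδ : 0 < δ) (hu : ContinuousOn u (closedBall c δ)) :
    CircleIntegrable u c δ :=
  (hu.mono sphere_subset_closedBall).circleIntegrable hδ.le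

theorem Visc_re {Q : ℂ → ℂ} (hQ : Differentiable ℂ Q) (c : ℂ) (δ : ℝ) :
    Real.circleAverage (fun z => (Q z).re) c δ = (Q c).re := by
  have h1 := Complex.reCLM.circleAverage_comp_comm (c := c) (R := δ) (f := Q)
    (hQ.continuous.continuousOn.circleIntegrable')
  rw [hQ.diffContOnCl.circleAverage] at h1
  exact h1

theorem Visc_sq (δ : ℝ) (c : ℂ) : ad δ (fun w => ‖w - c‖ ^ 2) c = δ ^ 2 := by
  rw [ad, Real.circleAverage_const_on_circle (a := δ ^ 2) fun x hx => by
    rw [mem_sphere_iff_norm.1 hx, sq_abs]]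
  simp

theorem ad_add {u v : ℂ → ℝ} (hδ : 0 < δ) (hu : ContinuousOn u (closedBall c δ))
    (hv : ContinuousOn v (closedBall c δ)) :
    ad δ (fun w => u w + v w) c = ad δ u c + ad δ v c := by
  rw [ad, ad, ad, Real.circleAverage_fun_add (Visc_int hδ hu) (Visc_int hδ hv)]
  ring

theorem ad_const_mul (a δ : ℝ) (u : ℂ → ℝ) (c : ℂ) :
    ad δ (fun w => a * u w) c = a * ad δ u c := by
  have h1 := Real.circleAverage_fun_smul (a := a) (f := u) (c := c) (R := δ)
  simp only [smul_eq_mul] at h1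
  rw [ad, ad, h1]
  ring

theorem ad_congr {u v : ℂ → ℝ} (hδ : 0 < δ) (h : EqOn u v (closedBall c δ)) :
    ad δ u c = ad δ v c := by
  rw [ad, ad, h (mem_closedBall_self hδ.le), Real.circleAverage_congr_sphere
    (h.mono (by rw [abs_of_pos hδ]; exact sphere_subset_closedBall))]

/-- Functions with subharmonic supporting functions from below satisfy the submean inequality.
For `ε > 0` take `Q` from `exists_re_approx`; the function `u - re Q + ε ‖z - c‖ ^ 2` has its maximum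
over the closed disc on the circle (at an interior maximum `z`, `φ - re Q + ε ‖w - c‖ ^ 2` has a local
maximum, against `pl_max`, `pl_re`, `pl_normSq`). So `u c ≤ re (Q c) + ε + ε δ ^ 2`, and `re (Q c)` is
the circle average of `re Q` (`DiffContOnCl.circleAverage`, `circleAverage_comp_comm`). -/
theorem visc {u : ℂ → ℝ} (hδ : 0 < δ) (hu : ContinuousOn u (closedBall c δ))
    (hs : ∀ z ∈ ball c δ, ∃ φ : ℂ → ℝ, ContDiffAt ℝ 2 φ z ∧ 0 ≤ pl φ z ∧ φ z = u z ∧
      ∀ᶠ w in 𝓝 z, φ w ≤ u w) : 0 ≤ ad δ u c := by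
  have key : ∀ ε : ℝ, 0 < ε → u c ≤ Real.circleAverage u c δ + ε * (2 + δ ^ 2) := by
    intro ε hε
    obtain ⟨Q, hQ, hq⟩ := exists_re_approx hδ hε (hu.mono sphere_subset_closedBall)
    have hc : Continuous fun z => (Q z).re := Complex.continuous_re.comp hQ.continuous
    have hg : ContinuousOn (fun z => u z - (Q z).re + ε * ‖z - c‖ ^ 2) (closedBall c δ) :=
      (hu.sub hc.continuousOn).add (by fun_prop)
    obtain ⟨z, hz, hm⟩ := (isCompact_closedBall c δ).exists_isMaxOn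
      ⟨c, mem_closedBall_self hδ.le⟩ hg
    have hz' : z ∈ sphere c δ := by
      by_contra hn
      have hb : z ∈ ball c δ := by
        rw [← ball_union_sphere] at hz
        exact hz.resolve_right hn
      obtain ⟨φ, h1, h2, h3, h4⟩ := hs z hb
      obtain ⟨h5, h6⟩ := pl_re (z := z) (hQ.contDiff (n := 2)).contDiffAt
      obtain ⟨h7, h8⟩ := pl_normSq c z
      have h9 : ContDiffAt ℝ 2 (fun w => ε * ‖w - c‖ ^ 2) z := contDiffAt_const.mul h7
      have h10 : IsLocalMax (fun w => φ w - (Q w).re + ε * ‖w - c‖ ^ 2) z := by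
        filter_upwards [h4, isOpen_ball.mem_nhds hb] with w a b
        have h11 : u w - (Q w).re + ε * ‖w - c‖ ^ 2 ≤ u z - (Q z).re + ε * ‖z - c‖ ^ 2 :=
          hm (ball_subset_closedBall b)
        linarith
      have h11 := pl_max ((h1.sub h5).add h9) h10
      rw [pl_add (h1.sub h5) h9, pl_sub h1 h5, h6, pl_const_mul, h8] at h11
      linarith
    have h1 : u c - (Q c).re + ε * ‖c - c‖ ^ 2 ≤ u z - (Q z).re + ε * ‖z - c‖ ^ 2 :=
      hm (mem_closedBall_self hδ.le)
    rw [mem_sphere_iff_norm.1 hz', sub_self, norm_zero] at h1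
    have h2 := (abs_le.1 (hq z hz')).2
    have h3 : Real.circleAverage (fun z => (Q z).re - u z) c δ ≤ ε :=
      Real.circleAverage_mono_on_of_le_circle
        (Visc_int hδ (hc.continuousOn.sub hu)) fun x hx => by
          rw [abs_of_pos hδ] at hx
          linarith [(abs_le.1 (hq x hx)).1]
    rw [Real.circleAverage_fun_sub (Visc_int hδ hc.continuousOn) (Visc_int hδ hu), Visc_re hQ] at h3
    nlinarith
  rw [ad, sub_nonneg]
  refine le_of_forall_pos_le_add fun ε hε => ?_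
  have h1 : 0 < 2 + δ ^ 2 := by positivity
  have h2 := key (ε / (2 + δ ^ 2)) (by positivity)
  rwa [div_mul_cancel₀ _ h1.ne'] at h2

/-- `visc` for `φ - a / 4 * ‖w - c‖ ^ 2`. -/
theorem ad_ge {φ : ℂ → ℝ} {a : ℝ} (hδ : 0 < δ) (hφ : ∀ z ∈ closedBall c δ, ContDiffAt ℝ 2 φ z)
    (ha : ∀ z ∈ ball c δ, a ≤ pl φ z) : a * δ ^ 2 / 4 ≤ ad δ φ c := by
  have hc : ContinuousOn φ (closedBall c δ) := fun z hz => (hφ z hz).continuousAt.continuousWithinAt
  have hn : ContinuousOn (fun w => -(a / 4) * ‖w - c‖ ^ 2) (closedBall c δ) := by fun_prop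
  have h1 := visc (u := fun w => φ w + -(a / 4) * ‖w - c‖ ^ 2) hδ (hc.add hn) fun z hz => by
    obtain ⟨h7, h8⟩ := pl_normSq c z
    have h2 := hφ z (ball_subset_closedBall hz)
    have h9 : ContDiffAt ℝ 2 (fun w => -(a / 4) * ‖w - c‖ ^ 2) z := contDiffAt_const.mul h7
    refine ⟨_, h2.add h9, ?_, rfl, Eventually.of_forall fun _ => le_rfl⟩
    rw [pl_add h2 h9, pl_const_mul, h8]
    linarith [ha z hz]
  have h2 : ad δ (fun w => -(a / 4) * ‖w - c‖ ^ 2) c = -(a / 4) * δ ^ 2 := by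
    rw [ad_const_mul, Visc_sq]
  rw [ad_add hδ hc hn, h2] at h1
  linarith

/-- `ad_ge` for `-φ`. -/
theorem ad_le {φ : ℂ → ℝ} {b : ℝ} (hδ : 0 < δ) (hφ : ∀ z ∈ closedBall c δ, ContDiffAt ℝ 2 φ z)
    (hb : ∀ z ∈ ball c δ, pl φ z ≤ b) : ad δ φ c ≤ b * δ ^ 2 / 4 := by
  have h1 := ad_ge (φ := fun w => -1 * φ w) (a := -b) hδ
    (fun z hz => contDiffAt_const.mul (hφ z hz)) fun z hz => by
      rw [pl_const_mul]
      linarith [hb z hz]
  rw [ad_const_mul] at h1
  linarith

end Pool.Agent.Lib.MP_a47f92_an.Dc
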