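import Pool.Agent.Lib.MP_a47f92_an.Dc.Lap
import Pool.Agent.Lib.MP_a47f92_an.Dc.Loc
import Pool.Agent.Lib.MP_a47f92_an.Dc.Visc

set_option autoImplicit false
set_option linter.unusedSectionVars false

namespace Pool.Agent.Lib.MP_a47f92_an.Dc

open MeasureTheory Filter Topology Set Complex Metric Function
open scoped ContDiff ComplexConjugate ENNReal NNReal

variable {s N : ℕ} {Ξ : E (s + 1) → E (s + 1)} {Ω : Set (E (s + 1))} {r : ℝ} {y : E (s + 1)}
  {ζ : ℂ}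
variable {δ : ℝ} {q b : E (s + 1) → ℝ} {S S' : Set (E (s + 1))}

theorem av_eq (Ξ : E (s + 1) → E (s + 1)) (Ω : Set (E (s + 1))) (r δ : ℝ) (g : E (s + 1) → ℝ)
    (y : E (s + 1)) : av Ξ Ω r δ g y = ad δ (fun w => g (tau Ξ Ω r y w)) 0 := by
  rw [av, ad, tau_zero]

/-- `tau_tau`, `rho_tau_ge`, `Real.circleAverage_map_add_const`. -/
theorem av_eq_ad (h : Fo Ξ Ω) (hr : 0 < r) (hδ : 0 < δ) (hζ : ‖ζ‖ + δ < rho Ξ Ω r y)
    (g : E (s + 1) → ℝ) :
    av Ξ Ω r δ g (tau Ξ Ω r y ζ) = ad δ (fun w => g (tau Ξ Ω r y w)) ζ := by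
  have h1 : ‖ζ‖ < rho Ξ Ω r y := by linarith
  have h2 := rho_tau_ge h hr h1
  rw [av, ad, ← Real.circleAverage_map_add_const (c := ζ)]
  refine congrArg (· - _) (Real.circleAverage_congr_sphere fun ξ hξ => ?_)
  rw [mem_sphere_zero_iff_norm, abs_of_pos hδ] at hξ
  have h3 := norm_add_le ζ ξ
  simp only [tau_tau h hr h1 (ξ := ξ) (by linarith) (by linarith), add_comm ξ ζ]

/-- `ad_ge`, `ad_le`, `pl_tau`. -/
theorem av_bounds (h : Fo Ξ Ω) (hr : 0 < r) (hq : ContDiffOn ℝ 2 q Ω) (hδ : 0 < δ)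
    (hρ : δ < rho Ξ Ω r y) {a a' : ℝ}
    (ha : ∀ w : ℂ, ‖w‖ ≤ δ → a ≤ ll Ξ q (tau Ξ Ω r y w) ∧ ll Ξ q (tau Ξ Ω r y w) ≤ a') :
    a ≤ av Ξ Ω r δ q y / δ ^ 2 ∧ av Ξ Ω r δ q y / δ ^ 2 ≤ a' := by
  have h1 : ∀ z ∈ closedBall (0 : ℂ) δ, ‖z‖ < rho Ξ Ω r y := fun z hz =>
    (mem_closedBall_zero_iff.1 hz).trans_lt hρ
  have h2 := fun z hz => (pl_tau h hr hq (h1 z hz)).1
  have h3 := fun z (hz : z ∈ ball (0 : ℂ) δ) => (pl_tau h hr hq (h1 z (ball_subset_closedBall hz))).2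
  have h4 := fun z (hz : z ∈ ball (0 : ℂ) δ) => ha z (mem_ball_zero_iff.1 hz).le
  have h5 := ad_ge (a := 4 * a) hδ h2 fun z hz => by
    rw [h3 z hz]
    linarith [(h4 z hz).1]
  have h6 := ad_le (b := 4 * a') hδ h2 fun z hz => by
    rw [h3 z hz]
    linarith [(h4 z hz).2]
  rw [av_eq, le_div_iff₀ (by positivity), div_le_iff₀ (by positivity)]
  constructor <;> linarith

/-- `w ↦ ll q (tau y w)` is continuous at `0` (`continuousOn_ll`). -/
theorem av_tendsto (h : Fo Ξ Ω) (hr : 0 < r) (hq : ContDiffOn ℝ 2 q Ω) (hy : y ∈ Ur Ξ Ω) :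
    Tendsto (fun δ => av Ξ Ω r δ q y / δ ^ 2) (𝓝[>] 0) (𝓝 (ll Ξ q y)) := by
  have h0 := rho_pos h hr hy
  have h1 : ContinuousAt (fun w => ll Ξ q (tau Ξ Ω r y w)) 0 :=
    ContinuousAt.comp_of_eq ((continuousOn_ll h hq).continuousAt (h.isOpen_ur.mem_nhds hy))
      (tau_contDiffAt h hr (by rwa [norm_zero])).continuousAt (tau_zero Ξ Ω r y)
  refine Metric.tendsto_nhds.2 fun ε hε => ?_
  obtain ⟨η, hη, h2⟩ := Metric.continuousAt_iff.1 h1 (ε / 2) (half_pos hε)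
  filter_upwards [Ioo_mem_nhdsGT (lt_min hη h0)] with δ hδ
  obtain ⟨h3, h4⟩ := lt_min_iff.1 hδ.2
  have h5 := av_bounds h hr hq hδ.1 h4 (a := ll Ξ q y - ε / 2) (a' := ll Ξ q y + ε / 2)
    fun w hw => by
      have h6 := h2 (x := w) (by rw [dist_zero_right]; exact hw.trans_lt h3)
      rw [tau_zero, Real.dist_eq, abs_lt] at h6
      constructor <;> linarith [h6.1, h6.2]
  rw [Real.dist_eq, abs_lt]
  constructor <;> linarith [h5.1, h5.2]

/-- On the open set `δ < rho` replace `b` by `Ω.indicator b` and `tau` by the measurable function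
`(Dm).piecewise`; `StronglyMeasurable.integral_prod_right'`. -/
theorem ms_av (h : Fo Ξ Ω) (hr : 0 < r) (hδ : 0 < δ) (hb : Ms Ω b) :
    Measurable ({y | δ < rho Ξ Ω r y}.indicator (av Ξ Ω r δ b)) := by
  classical
  have h1 : Measurable ((Dm Ξ Ω r).piecewise (fun w => tau Ξ Ω r w.1 w.2) fun _ => 0) :=
    (continuousOn_tau h hr).measurable_piecewise continuousOn_const (isOpen_dm h hr).measurableSet
  have h2 : Measurable fun w : E (s + 1) × ℝ => Ω.indicator b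
      ((Dm Ξ Ω r).piecewise (fun w => tau Ξ Ω r w.1 w.2) (fun _ => 0) (w.1, circleMap 0 δ w.2)) :=
    hb.comp (h1.comp (measurable_fst.prodMk ((measurable_circleMap 0 δ).comp measurable_snd)))
  have h3 := (((h2.stronglyMeasurable.integral_prod_right'
    (ν := volume.restrict (Ioc 0 (2 * Real.pi)))).measurable.const_smul
      (2 * Real.pi)⁻¹).sub hb).indicator (isOpen_lt_rho h hr δ).measurableSet
  refine (congrArg Measurable (indicator_congr fun y hy => ?_)).mp h3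
  have h4 : ∀ θ, ‖circleMap 0 δ θ‖ < rho Ξ Ω r y := fun θ => by
    rw [norm_circleMap_zero, abs_of_pos hδ]
    exact hy
  rw [av, Real.circleAverage, intervalIntegral.integral_of_le Real.two_pi_pos.le,
    ← indicator_of_mem (mem_ur h hr (hδ.trans hy)).1 b]
  refine congrArg (fun t : ℝ => (2 * Real.pi)⁻¹ • t - _) (congrArg _ (funext fun θ => ?_))
  rw [piecewise_eq_of_mem (Dm Ξ Ω r) _ _ (i := (y, circleMap 0 δ θ)) (h4 θ),
    indicator_of_mem (tau_mem h hr (h4 θ)).1]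

theorem abs_av_le (hδ : 0 < δ) {A : ℝ} (hA : ∀ w : ℂ, ‖w‖ ≤ δ → |b (tau Ξ Ω r y w)| ≤ A) :
    |av Ξ Ω r δ b y| ≤ 2 * A := by
  have h1 := hA 0 (by rw [norm_zero]; exact hδ.le)
  rw [tau_zero] at h1
  have h2 := intervalIntegral.norm_integral_le_of_norm_le_const (a := 0) (b := 2 * Real.pi)
    (f := fun θ => b (tau Ξ Ω r y (circleMap 0 δ θ))) (C := A) fun θ _ =>
      hA _ (by rw [norm_circleMap_zero, abs_of_pos hδ])
  rw [sub_zero, abs_of_pos Real.two_pi_pos, Real.norm_eq_abs] at h2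
  have h3 : |Real.circleAverage (fun ζ => b (tau Ξ Ω r y ζ)) 0 δ| ≤ A := by
    rw [Real.circleAverage, smul_eq_mul, abs_mul, abs_of_pos (inv_pos.2 Real.two_pi_pos),
      inv_mul_le_iff₀ Real.two_pi_pos]
    exact h2.trans_eq (mul_comm _ _)
  exact (abs_sub _ _).trans (by linarith)

theorem Av_meas (h : Fo Ξ Ω) (hr : 0 < r) (hδ : 0 < δ) (hS : IsCompact S)
    (hρ : ∀ y ∈ S, δ < rho Ξ Ω r y) (hb : Ms Ω b) :
    AEStronglyMeasurable (av Ξ Ω r δ b) (volume.restrict S) :=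
  (ms_av h hr hδ hb).aestronglyMeasurable.congr
    (ae_restrict_of_forall_mem hS.measurableSet fun y hy =>
      indicator_of_mem (s := {y | δ < rho Ξ Ω r y}) (hρ y hy) _)

theorem integrableOn_av (h : Fo Ξ Ω) (hr : 0 < r) (hδ : 0 < δ) (hS : IsCompact S)
    (hρ : ∀ y ∈ S, δ < rho Ξ Ω r y) (hb : Ms Ω b) {A : ℝ}
    (hA : ∀ y ∈ S, ∀ w : ℂ, ‖w‖ ≤ δ → |b (tau Ξ Ω r y w)| ≤ A) {u : E (s + 1) → ℝ}
    (hu : IntegrableOn u S) : IntegrableOn (fun y => u y * av Ξ Ω r δ b y) S :=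
  Integrable.mul_bdd (c := 2 * A) hu (Av_meas h hr hδ hS hρ hb)
    (ae_restrict_of_forall_mem hS.measurableSet fun y hy => abs_av_le hδ (hA y hy))

/-- Dominated convergence (`tendsto_integral_filter_of_dominated_convergence`): `exists_nbhd`,
`ll q` is bounded on the compact set `S' ⊆ Ur`, `av_bounds`, `av_tendsto`, `ms_av`. -/
theorem integral_av_tendsto (h : Fo Ξ Ω) (hr : 0 < r) (hq : ContDiffOn ℝ 2 q Ω) (hS : IsCompact S)
    (hU : S ⊆ Ur Ξ Ω) {u : E (s + 1) → ℝ} (hu : IntegrableOn u S) :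
    Tendsto (fun δ => ∫ y in S, u y * (av Ξ Ω r δ q y / δ ^ 2)) (𝓝[>] 0)
      (𝓝 (∫ y in S, u y * ll Ξ q y)) := by
  obtain ⟨δ₀, h0, S', h1, h2, h3, h4⟩ := exists_nbhd h hr hS hU
  obtain ⟨C, hC⟩ := h1.exists_bound_of_continuousOn
    ((continuousOn_ll h hq).mono fun y hy => mem_ur h hr (h0.trans (h3 y hy)))
  refine tendsto_integral_filter_of_dominated_convergence (fun y => ‖u y‖ * C) ?_ ?_
    (hu.norm.mul_const C) (ae_restrict_of_forall_mem hS.measurableSet fun y hy =>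
      (av_tendsto h hr hq (hU hy)).const_mul _)
  · filter_upwards [Ioo_mem_nhdsGT h0] with δ hδ
    exact hu.aestronglyMeasurable.mul ((Av_meas h hr hδ.1 hS (fun y hy => hδ.2.trans (h3 y (h2 hy)))
      (Ms.of_continuousOn h.op hq.continuousOn)).aemeasurable.div_const _).aestronglyMeasurable
  · filter_upwards [Ioo_mem_nhdsGT h0] with δ hδ
    refine ae_restrict_of_forall_mem hS.measurableSet fun y hy => ?_
    rw [norm_mul]
    exact mul_le_mul_of_nonneg_left (abs_le.2 (av_bounds h hr hq hδ.1 (hδ.2.trans (h3 y (h2 hy)))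
      fun w hw => abs_le.1 (hC _ (h4 y hy w (hw.trans hδ.2.le))))) (norm_nonneg _)

end Pool.Agent.Lib.MP_a47f92_an.Dc
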