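import Pool.Agent.Lib.MP_a47f92_an.Dc.Loc
import Pool.Agent.Lib.MP_a47f92_an.Pair

set_option autoImplicit false
set_option linter.unusedSectionVars false

namespace Pool.Agent.Lib.MP_a47f92_an.Dc

open MeasureTheory Filter Topology Set Complex Metric Function
open scoped ContDiff ComplexConjugate ENNReal NNReal

variable {s N : ℕ} {Ξ : E (s + 1) → E (s + 1)} {Ω : Set (E (s + 1))} {r : ℝ} {y : E (s + 1)}
  {ζ : ℂ}
variable {δ A : ℝ} {a b : E (s + 1) → ℝ} {S S' : Set (E (s + 1))}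

/-- `integral_image_eq_integral_abs_det_fderiv_smul` for the bijection `tau · ζ` from `Dz ζ` onto
`Dz (-ζ)` (`tau_neg`, `jac_tau`, `det_restrict`). -/
theorem cov (h : Fo Ξ Ω) (hr : 0 < r) (ζ : ℂ) (g : E (s + 1) → ℝ) :
    ∫ y in Dz Ξ Ω r ζ, jac Ξ y * g (tau Ξ Ω r y ζ) = ∫ y in Dz Ξ Ω r (-ζ), jac Ξ y * g y := by
  have e : (fun y => tau Ξ Ω r y ζ) '' Dz Ξ Ω r ζ = Dz Ξ Ω r (-ζ) := by
    refine Subset.antisymm ?_ fun z hz => ?_
    · rintro _ ⟨y, hy, rfl⟩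
      exact (tau_neg h hr hy).2
    · have := tau_neg h hr hz
      rw [neg_neg] at this
      exact ⟨_, this.2, this.1⟩
  have hi : InjOn (fun y => tau Ξ Ω r y ζ) (Dz Ξ Ω r ζ) := fun y hy z hz e => by
    have e' : tau Ξ Ω r y ζ = tau Ξ Ω r z ζ := e
    rw [← (tau_neg h hr hy).1, e', (tau_neg h hr hz).1]
  have hm := (isOpen_dz h hr ζ).measurableSet
  rw [← e, integral_image_eq_integral_abs_det_fderiv_smul volume hm
    (f' := fun y => (fderiv ℂ (fun y => tau Ξ Ω r y ζ) y).restrictScalars ℝ)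
    (fun y hy => ((jac_tau h hr hy.1).1.hasFDerivAt.restrictScalars ℝ).hasFDerivWithinAt) hi]
  refine setIntegral_congr_fun hm fun y hy => ?_
  simp only [det_restrict, smul_eq_mul]
  rw [abs_of_nonneg (sq_nonneg _), ← (jac_tau h hr hy.1).2, mul_assoc]
  rfl

/-- `cov` for `g z = b z * a (tau z (-ζ))`; `S ⊆ Dz ζ`; the integrand on the right vanishes on
`Dz (-ζ) \ S'` and on `S' \ Dz (-ζ)` (`setIntegral_eq_of_subset_of_forall_diff_eq_zero` applied
twice with the intersection). -/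
theorem cov_pair (h : Fo Ξ Ω) (hr : 0 < r) (hS : IsCompact S) (hS' : IsCompact S') (hSS : S ⊆ S')
    (hρ : ∀ y ∈ S', δ < rho Ξ Ω r y) (hm : ∀ y ∈ S, ∀ w : ℂ, ‖w‖ ≤ δ → tau Ξ Ω r y w ∈ S')
    (h0 : ∀ y ∉ S, a y = 0) (b : E (s + 1) → ℝ) (hζ : ‖ζ‖ ≤ δ) :
    ∫ y in S, jac Ξ y * (a y * b (tau Ξ Ω r y ζ)) =
      ∫ y in S', jac Ξ y * (b y * a (tau Ξ Ω r y (-ζ))) := by
  have hm1 := (isOpen_dz h hr ζ).measurableSet
  have hm2 := (isOpen_dz h hr (-ζ)).measurableSet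
  have h1 : S ⊆ Dz Ξ Ω r ζ := fun y hy =>
    ⟨hζ.trans_lt (hρ y (hSS hy)), hζ.trans_lt (hρ _ (hm y hy ζ hζ))⟩
  have e1 : ∫ y in Dz Ξ Ω r ζ, jac Ξ y * (a y * b (tau Ξ Ω r y ζ)) =
      ∫ y in S, jac Ξ y * (a y * b (tau Ξ Ω r y ζ)) :=
    setIntegral_eq_of_subset_of_forall_sdiff_eq_zero hm1 h1 fun y hy => by
      rw [h0 y hy.2, zero_mul, mul_zero]
  have e2 : ∫ y in Dz Ξ Ω r (-ζ), jac Ξ y * (b y * a (tau Ξ Ω r y (-ζ))) =
      ∫ y in Dz Ξ Ω r (-ζ) ∩ S', jac Ξ y * (b y * a (tau Ξ Ω r y (-ζ))) :=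
    setIntegral_eq_of_subset_of_forall_sdiff_eq_zero hm2 inter_subset_left fun y hy => by
      rw [h0 _ fun hc => hy.2 ⟨hy.1, ?_⟩, mul_zero, mul_zero]
      have := (tau_neg h hr hy.1).1
      rw [neg_neg] at this
      exact this ▸ hm _ hc ζ hζ
  have e3 : ∫ y in S', jac Ξ y * (b y * a (tau Ξ Ω r y (-ζ))) =
      ∫ y in Dz Ξ Ω r (-ζ) ∩ S', jac Ξ y * (b y * a (tau Ξ Ω r y (-ζ))) :=
    setIntegral_eq_of_subset_of_forall_sdiff_eq_zero hS'.measurableSet inter_subset_right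
      fun y hy => by
      rw [h0 _ fun hc => hy.2 ⟨⟨?_, ?_⟩, hy.1⟩, mul_zero, mul_zero]
      · rw [norm_neg]
        exact hζ.trans_lt (hρ y hy.1)
      · rw [norm_neg]
        exact hζ.trans_lt (hρ _ (hSS hc))
  rw [← e1, e3, ← e2, ← cov h hr ζ fun z => b z * a (tau Ξ Ω r z (-ζ))]
  refine setIntegral_congr_fun hm1 fun y hy => ?_
  simp only [(tau_neg h hr hy).1]
  rw [mul_comm (a y)]

theorem Cov_meas (h : Fo Ξ Ω) (hr : 0 < r) (hb : Ms Ω b) :
    ∃ B : E (s + 1) × ℂ → ℝ, Measurable B ∧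
      ∀ y w, ‖w‖ < rho Ξ Ω r y → B (y, w) = b (tau Ξ Ω r y w) := by
  classical
  refine ⟨Ω.indicator b ∘ (Dm Ξ Ω r).piecewise (fun w => tau Ξ Ω r w.1 w.2) fun w => w.1,
    hb.comp ((continuousOn_tau h hr).measurable_piecewise continuous_fst.continuousOn
      (isOpen_dm h hr).measurableSet), fun y w hw => ?_⟩
  rw [Function.comp_apply, piecewise_eq_of_mem _ _ _ (show (y, w) ∈ Dm Ξ Ω r from hw),
    indicator_of_mem (tau_mem h hr hw).1]

theorem Cov_int (hS : MeasurableSet S) (hΩ : S ⊆ Ω) (ha : Ms Ω a) (hA : ∀ y ∈ S, |a y| ≤ A)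
    {u : E (s + 1) → ℝ} (hu : IntegrableOn u S) : IntegrableOn (fun y => u y * a y) S := by
  refine Integrable.mul_bdd hu (c := A) ?_ ((ae_restrict_mem hS).mono hA)
  refine (Measurable.aestronglyMeasurable ha).congr ?_
  filter_upwards [ae_restrict_mem hS] with y hy
  exact indicator_of_mem (hΩ hy) _

theorem Cov_neg (f : ℂ → ℝ) (δ : ℝ) :
    Real.circleAverage (fun w => f (-w)) 0 δ = Real.circleAverage f 0 δ := by
  rw [← Real.circleAverage_neg_radius (f := f)]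
  simp only [Real.circleAverage, circleMap, zero_add, ofReal_neg, neg_mul]

/-- Fubini for the circle average: the integrand is bounded and measurable on
`S × Ioc 0 (2 π)` (replace `b` by `Ω.indicator b`, `tau` by `(Dm).piecewise`). -/
theorem integral_circle (h : Fo Ξ Ω) (hr : 0 < r) (hδ : 0 < δ) (hS : IsCompact S)
    (hρ : ∀ y ∈ S, δ < rho Ξ Ω r y) (hb : Ms Ω b)
    (hA : ∀ y ∈ S, ∀ w : ℂ, ‖w‖ ≤ δ → |b (tau Ξ Ω r y w)| ≤ A) {u : E (s + 1) → ℝ}
    (hu : IntegrableOn u S) :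
    IntegrableOn (fun y => u y * Real.circleAverage (fun w => b (tau Ξ Ω r y w)) 0 δ) S ∧
      ∫ y in S, u y * Real.circleAverage (fun w => b (tau Ξ Ω r y w)) 0 δ =
        Real.circleAverage (fun w => ∫ y in S, u y * b (tau Ξ Ω r y w)) 0 δ := by
  obtain ⟨B, hB, hB'⟩ := Cov_meas h hr hb
  have hn : ∀ θ : ℝ, ‖circleMap 0 δ θ‖ ≤ δ := fun θ => by
    rw [norm_circleMap_zero, abs_of_pos hδ]
  have hae : ∀ᵐ p : ℝ × E (s + 1) ∂(volume.restrict (uIoc 0 (2 * Real.pi))).prod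
      (volume.restrict S), p.2 ∈ S :=
    Measure.quasiMeasurePreserving_snd.ae (ae_restrict_mem hS.measurableSet)
  have hfin : IsFiniteMeasure (volume.restrict (uIoc 0 (2 * Real.pi))) :=
    ⟨by rw [Measure.restrict_apply_univ]; exact measure_Ioc_lt_top⟩
  have hi : Integrable (uncurry fun (θ : ℝ) (y : E (s + 1)) =>
      u y * b (tau Ξ Ω r y (circleMap 0 δ θ)))
      ((volume.restrict (uIoc 0 (2 * Real.pi))).prod (volume.restrict S)) := by
    refine Integrable.mul_bdd (Integrable.comp_snd hu _) (c := A) ?_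
      (hae.mono fun p hp => hA _ hp _ (hn _))
    refine (hB.comp (measurable_snd.prodMk
      ((continuous_circleMap 0 δ).measurable.comp measurable_fst))).aestronglyMeasurable.congr ?_
    filter_upwards [hae] with p hp
    exact hB' _ _ ((hn _).trans_lt (hρ _ hp))
  have e : ∀ y, u y * Real.circleAverage (fun w => b (tau Ξ Ω r y w)) 0 δ =
      (2 * Real.pi)⁻¹ * ∫ θ in (0 : ℝ)..2 * Real.pi, u y * b (tau Ξ Ω r y (circleMap 0 δ θ)) :=
    fun y => by
    rw [Real.circleAverage_def, intervalIntegral.integral_const_mul, smul_eq_mul]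
    ring
  simp only [e]
  refine ⟨Integrable.const_mul ?_ _, ?_⟩
  · have := hi.integral_prod_right
    rw [uIoc_of_le Real.two_pi_pos.le] at this
    simp only [intervalIntegral.integral_of_le Real.two_pi_pos.le]
    exact this
  · rw [integral_const_mul, Real.circleAverage_def, intervalIntegral_integral_swap hi, smul_eq_mul]

/-- `integral_circle` on both sides, `cov_pair`, and the invariance of the circle average under
`w ↦ -w` (`Real.circleAverage_eq_integral_add` with `π`). -/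
theorem adj (h : Fo Ξ Ω) (hr : 0 < r) (hδ : 0 < δ) (hS : IsCompact S) (hS' : IsCompact S')
    (hSS : S ⊆ S') (hρ : ∀ y ∈ S', δ < rho Ξ Ω r y)
    (hm : ∀ y ∈ S, ∀ w : ℂ, ‖w‖ ≤ δ → tau Ξ Ω r y w ∈ S') (ha : Ms Ω a) (hb : Ms Ω b)
    (h0 : ∀ y ∉ S, a y = 0) (hA : ∀ y, |a y| ≤ A) (hB : ∀ y ∈ S', |b y| ≤ A) :
    ∫ y in S, jac Ξ y * (a y * av Ξ Ω r δ b y) = ∫ y in S', jac Ξ y * (b y * av Ξ Ω r δ a y) := by
  have hΩ : S' ⊆ Ω := fun y hy => (mem_ur h hr (hδ.trans (hρ y hy))).1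
  have j' : IntegrableOn (jac Ξ) S' :=
    (h.contDiffOn_jac.continuousOn.mono hΩ).integrableOn_compact hS'
  have j : IntegrableOn (jac Ξ) S := j'.mono_set hSS
  have ja := Cov_int hS.measurableSet (hSS.trans hΩ) ha (fun y _ => hA y) j
  have jb := Cov_int hS'.measurableSet hΩ hb hB j'
  have jab := Cov_int hS.measurableSet (hSS.trans hΩ) hb (fun y hy => hB y (hSS hy)) ja
  have jba := Cov_int hS'.measurableSet hΩ ha (fun y _ => hA y) jb
  obtain ⟨i1, e1⟩ := integral_circle h hr hδ hS (fun y hy => hρ y (hSS hy)) hb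
    (fun y hy w hw => hB _ (hm y hy w hw)) ja
  obtain ⟨i2, e2⟩ := integral_circle h hr hδ hS' hρ ha (fun _ _ _ _ => hA _) jb
  have e3 : ∫ y in S', jac Ξ y * b y * a y = ∫ y in S, jac Ξ y * a y * b y := by
    rw [setIntegral_eq_of_subset_of_forall_sdiff_eq_zero hS'.measurableSet hSS fun y hy => by
      rw [h0 y hy.2, mul_zero]]
    simp only [mul_right_comm]
  have e4 : Real.circleAverage (fun w => ∫ y in S, jac Ξ y * a y * b (tau Ξ Ω r y w)) 0 δ =
      Real.circleAverage (fun w => ∫ y in S', jac Ξ y * b y * a (tau Ξ Ω r y w)) 0 δ := by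
    rw [← Cov_neg fun w => ∫ y in S', jac Ξ y * b y * a (tau Ξ Ω r y w)]
    refine Real.circleAverage_congr_sphere fun w hw => ?_
    simp only [mul_assoc]
    refine cov_pair h hr hS hS' hSS hρ hm h0 b ?_
    rw [mem_sphere_zero_iff_norm.1 hw, abs_of_pos hδ]
  simp only [av, ← mul_assoc, mul_sub]
  rw [integral_sub i1 jab, integral_sub i2 jba, e1, e2, e3, e4]

end Pool.Agent.Lib.MP_a47f92_an.Dc
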