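import Pool.Agent.Lib.MP_a47f92_an.Dc.Tf

set_option autoImplicit false
set_option linter.unusedSectionVars false

namespace Pool.Agent.Lib.MP_a47f92_an.Dc

open MeasureTheory Filter Topology Set Complex Metric Function
open scoped ContDiff ComplexConjugate ENNReal NNReal

theorem Ctr_ext {n : ℂ → ℝ} {T : ℝ} (hT : 0 < T) (hn : ContinuousOn n (closedBall 0 T))
    (h0 : ∀ z ∈ closedBall (0 : ℂ) T, 0 ≤ n z) :
    ∃ m : ℂ → ℝ, Continuous m ∧ (∀ z, 0 ≤ m z) ∧ EqOn m n (closedBall 0 T) := by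
  have h1 : ∀ z : ℂ, 0 < max T ‖z‖ := fun z => hT.trans_le (le_max_left _ _)
  have h2 : ∀ z : ℂ, (T / max T ‖z‖) • z ∈ closedBall (0 : ℂ) T := fun z => by
    rw [mem_closedBall_zero_iff, norm_smul, Real.norm_of_nonneg (div_pos hT (h1 z)).le,
      div_mul_eq_mul_div, div_le_iff₀ (h1 z)]
    exact mul_le_mul_of_nonneg_left (le_max_right _ _) hT.le
  refine ⟨fun z => n ((T / max T ‖z‖) • z), hn.comp_continuous ((continuous_const.div
    (continuous_const.max continuous_norm) fun z => (h1 z).ne').smul continuous_id) h2,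
    fun z => h0 _ (h2 z), fun z hz => ?_⟩
  simp only [max_eq_left (mem_closedBall_zero_iff.1 hz), div_self hT.ne', one_smul]

theorem Ctr_le {f : ℂ → ℝ} (hf : Integrable f) :
    ENNReal.ofReal (∫ z, f z) ≤ ∫⁻ z, ENNReal.ofReal (f z) := by
  rw [integral_eq_lintegral_pos_part_sub_lintegral_neg_part hf]
  exact (ENNReal.ofReal_le_ofReal (sub_le_self _ ENNReal.toReal_nonneg)).trans
    ENNReal.ofReal_toReal_le

theorem Ctr_vol {r : ℝ} (hr : 0 ≤ r) : volume.real (ball (0 : ℂ) r) = r ^ 2 * Real.pi := by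
  rw [measureReal_def, Complex.volume_ball, ENNReal.toReal_mul, ENNReal.toReal_pow,
    ENNReal.toReal_ofReal hr, ENNReal.coe_toReal, NNReal.coe_real_pi]

theorem Ctr_cpt {f : ℂ → ℝ} (T : ℝ) (h : ∀ z : ℂ, T ≤ ‖z‖ → f z = 0) : HasCompactSupport f :=
  HasCompactSupport.intro (isCompact_closedBall (0 : ℂ) T) fun z hz =>
    h z (not_le.1 (mem_closedBall_zero_iff.not.1 hz)).le

theorem Ctr_low {R b δ B : ℝ} {m : ℂ → ℝ} (hR : 4 * b ≤ R) (hδ : 0 < δ)
    (hδb : δ ≤ b / 2) (hB : 0 ≤ B) (hm : Continuous m) (h0 : ∀ z, 0 ≤ m z)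
    (h1 : ∀ z : ℂ, ‖z‖ ≤ b → m z = 0) (h2 : ∀ z : ℂ, R / 2 ≤ ‖z‖ → ‖z‖ ≤ R → B ≤ m z) :
    B * δ ^ 2 / 6 ≤ ∫ z, m z * ad δ (tf R (b / 2)) z := by
  have hb2 : 0 < b / 2 := by linarith
  have hR0 : 0 < R := by linarith
  have h3 : Integrable fun z => m z * ad δ (tf R (b / 2)) z :=
    (hm.mul (continuous_ad δ (tf_continuous hb2))).integrable_of_hasCompactSupport
      (Ctr_cpt (R + δ) fun z hz => by
        rw [Pi.mul_apply, ad_congr (u := tf R (b / 2)) (v := fun _ => 0) (c := z) hδ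
          fun w hw => tf_zero hb2 (by linarith) (by
          have h4 := mem_closedBall_iff_norm.1 hw
          have h5 := norm_sub_norm_le z w
          rw [norm_sub_rev] at h5
          linarith)]
        simp [ad, Real.circleAverage_const])
  have h4 : ∀ z, 0 ≤ m z * ad δ (tf R (b / 2)) z := fun z => by
    rcases le_or_gt ‖z‖ b with h | h
    · rw [h1 z h, zero_mul]
    · exact mul_nonneg (h0 z) (ad_tf_nonneg hb2 (by linarith) hδ (by linarith))
  have h5 := setIntegral_ge_of_const_le_real (μ := volume)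
    (s := ball (0 : ℂ) (3 * R / 4) \ ball 0 (R / 2)) (c := B * (δ ^ 2 / (4 * R ^ 2)))
    (measurableSet_ball.diff measurableSet_ball)
    (measure_ne_top_of_subset sdiff_subset measure_ball_lt_top.ne) (fun z hz => by
      have h6 := mem_ball_zero_iff.1 hz.1
      have h7 := not_lt.1 (mem_ball_zero_iff.not.1 hz.2)
      exact mul_le_mul (h2 z h7 (by linarith)) (ad_tf_ge hb2 hδ (by linarith) (by linarith))
        (by positivity) (h0 z)) h3.integrableOn
  rw [measureReal_sdiff (ball_subset_ball (by linarith)) measurableSet_ball measure_ball_lt_top.ne,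
    Ctr_vol (by linarith), Ctr_vol (by linarith)] at h5
  refine le_trans ?_ (h5.trans (setIntegral_le_integral h3 (Eventually.of_forall h4)))
  have h6 : B * (δ ^ 2 / (4 * R ^ 2)) * ((3 * R / 4) ^ 2 * Real.pi - (R / 2) ^ 2 * Real.pi) =
      B * δ ^ 2 * (5 * Real.pi / 64) := by
    field_simp
    ring
  rw [h6, div_eq_mul_inv]
  exact mul_le_mul_of_nonneg_left (by linarith [Real.pi_gt_three]) (by positivity)

/-- Replace `n` by a continuous function on the plane, nonnegative and equal to `n` on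
`closedBall 0 (2 R)` (compose with the radial retraction). With `φ = tf R (b / 2)` and
`Λ = 2 * log (2 R / b) ≥ φ`: `Λ ∫ ad (n + q) ≥ ∫ φ ad (n + q) ≥ ∫ φ ad n = ∫ n ad φ` (`ad_add`,
`ad_symm`); the last integrand is nonnegative everywhere (`n = 0` for `‖z‖ ≤ b`, `ad_tf_nonneg`
elsewhere) and at least `B δ ^ 2 / (4 R ^ 2)` on the annulus `R / 2 ≤ ‖z‖ ≤ 3 R / 4` of area
`5 π R ^ 2 / 16` (`ad_tf_ge`). The function `ad δ (n + q)` is continuous on `closedBall 0 R`, or at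
least: `φ * ad δ n ≤ Λ * ad δ (n + q)` pointwise on `ball 0 R`, so that
`ofReal (∫ φ ad n) ≤ ∫⁻ ofReal (φ ad n) ≤ ofReal Λ * ∫⁻ ofReal (ad (n + q))`. -/
theorem ctr {R b δ B : ℝ} {n q : ℂ → ℝ} (hb : 0 < b) (hR : 4 * b ≤ R) (hδ : 0 < δ) (hδb : δ ≤ b / 2)
    (hB : 0 ≤ B) (hn : ContinuousOn n (closedBall 0 (2 * R)))
    (hq : ContinuousOn q (closedBall 0 (2 * R))) (h0 : ∀ z ∈ closedBall (0 : ℂ) (2 * R), 0 ≤ n z)
    (h1 : ∀ z : ℂ, ‖z‖ ≤ b → n z = 0) (h2 : ∀ z : ℂ, R / 2 ≤ ‖z‖ → ‖z‖ ≤ R → B ≤ n z)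
    (h3 : ∀ z ∈ ball (0 : ℂ) R, 0 ≤ ad δ q z)
    (h4 : ∀ z ∈ ball (0 : ℂ) R, 0 ≤ ad δ (fun w => n w + q w) z) :
    ENNReal.ofReal (B / (12 * Real.log (2 * R / b))) ≤
      ∫⁻ z in ball (0 : ℂ) R, ENNReal.ofReal (ad δ (fun w => n w + q w) z / δ ^ 2) := by
  have hb2 : 0 < b / 2 := by linarith
  obtain ⟨m, hm, hm0, hmn⟩ := Ctr_ext (by linarith) hn h0
  have h5 := Ctr_low (B := B) hR hδ hδb hB hm hm0
    (fun z hz => (hmn (mem_closedBall_zero_iff.2 (by linarith))).trans (h1 z hz))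
    fun z hz hz' => (h2 z hz hz').trans_eq (hmn (mem_closedBall_zero_iff.2 (by linarith))).symm
  have hz : ∀ z : ℂ, R ≤ ‖z‖ → tf R (b / 2) z = 0 := fun z hz => tf_zero hb2 (by linarith) hz
  rw [← ad_symm δ (tf_continuous hb2) (Ctr_cpt R hz) hm] at h5
  have hL : 0 < Real.log (2 * R / b) := Real.log_pos (by rw [lt_div_iff₀ hb]; linarith)
  have h6 : Integrable fun z => tf R (b / 2) z * ad δ m z / (2 * Real.log (2 * R / b) * δ ^ 2) :=
    (((tf_continuous hb2).mul (continuous_ad δ hm)).integrable_of_hasCompactSupport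
      (Ctr_cpt R hz).mul_right).div_const _
  have h7 : B / (12 * Real.log (2 * R / b)) ≤
      ∫ z, tf R (b / 2) z * ad δ m z / (2 * Real.log (2 * R / b) * δ ^ 2) := by
    rw [integral_div]
    refine le_trans (le_of_eq ?_) (div_le_div_of_nonneg_right h5 (by positivity))
    field_simp
    ring
  refine ((ENNReal.ofReal_le_ofReal h7).trans (Ctr_le h6)).trans ?_
  rw [← lintegral_indicator measurableSet_ball]
  refine lintegral_mono fun z => ?_
  by_cases h8 : z ∈ ball (0 : ℂ) R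
  · rw [indicator_of_mem h8]
    refine ENNReal.ofReal_le_ofReal ?_
    have h9 : closedBall z δ ⊆ closedBall 0 (2 * R) := closedBall_subset_closedBall' (by
      have := mem_ball.1 h8
      linarith)
    have h10 := h4 z h8
    have h11 := tf_le hb2 (by linarith : b / 2 ≤ R) z
    rw [div_div_eq_mul_div, mul_comm R] at h11
    rw [ad_congr hδ (hmn.mono h9), ← div_div]
    refine div_le_div_of_nonneg_right ?_ (by positivity)
    rw [div_le_iff₀' (by positivity)]
    refine (mul_le_mul_of_nonneg_left ?_ (tf_nonneg _ _ z)).trans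
      (mul_le_mul_of_nonneg_right h11 h10)
    rw [ad_add hδ (hn.mono h9) (hq.mono h9)]
    linarith [h3 z h8]
  · rw [hz z (not_lt.1 (mem_ball_zero_iff.not.1 h8)), zero_mul, zero_div, ENNReal.ofReal_zero]
    exact zero_le

end Pool.Agent.Lib.MP_a47f92_an.Dc
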