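import Pool.Agent.Lib.MP_a47f92_an.Dc.Def
import Pool.Agent.Lib.MP_a47f92_an.MDisc

set_option autoImplicit false
set_option linter.unusedSectionVars false

namespace Pool.Agent.Lib.MP_a47f92_an.Dc

open MeasureTheory Filter Topology Set Complex Metric Function
open scoped ContDiff ComplexConjugate ENNReal NNReal

variable {s : ℕ}

theorem cs_zero (t : ℂ) (x : E s) : cs t x 0 = t := rfl

theorem cs_succ (t : ℂ) (x : E s) (i : Fin s) : cs t x i.succ = x i := rfl

theorem tl_apply (y : E (s + 1)) (i : Fin s) : tl y i = y i.succ := rfl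

theorem tl_cs (t : ℂ) (x : E s) : tl (cs t x) = x := rfl

theorem cs_tl (y : E (s + 1)) : cs (y 0) (tl y) = y := by
  ext i
  refine Fin.cases rfl (fun _ => rfl) i

/-- The splitting of the first coordinate. -/
noncomputable def Fub_cs (s : ℕ) : (ℂ × E s) ≃L[ℂ] E (s + 1) :=
  LinearEquiv.toContinuousLinearEquiv
    { toFun := fun q => cs q.1 q.2
      invFun := fun y => (y 0, tl y)
      map_add' := fun a b => by
        ext i
        refine Fin.cases rfl (fun _ => rfl) i
      map_smul' := fun c a => by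
        ext i
        refine Fin.cases rfl (fun _ => rfl) i
      left_inv := fun _ => rfl
      right_inv := cs_tl }

theorem contDiff_tl : ContDiff ℂ ∞ (tl : E (s + 1) → E s) :=
  contDiff_snd.comp (Fub_cs s).symm.contDiff

theorem contDiff_cs : ContDiff ℂ ∞ fun w : ℂ × E s => cs w.1 w.2 := (Fub_cs s).contDiff

theorem measurePreserving_cs : MeasurePreserving fun w : ℂ × E s => cs w.1 w.2 := by
  let L : WithLp 2 (ℂ × E s) ≃ₗᵢ[ℝ] E (s + 1) :=
    { toLinearEquiv := (WithLp.linearEquiv 2 ℝ (ℂ × E s)).trans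
        ((Fub_cs s).toLinearEquiv.restrictScalars ℝ)
      norm_map' := fun q => by
        rw [← sq_eq_sq₀ (norm_nonneg _) (norm_nonneg _), WithLp.prod_norm_sq_eq_of_L2,
          EuclideanSpace.norm_sq_eq, EuclideanSpace.norm_sq_eq q.snd, Fin.sum_univ_succ]
        rfl }
  exact L.measurePreserving.comp (WithLp.volume_preserving_toLp ℂ (E s))

theorem lintegral_cs {F : E (s + 1) → ℝ≥0∞} (hF : Measurable F) :
    ∫⁻ y, F y = ∫⁻ x : E s, ∫⁻ t : ℂ, F (cs t x) := by
  rw [← measurePreserving_cs.lintegral_comp hF]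
  exact lintegral_prod_symm' _ (hF.comp measurePreserving_cs.measurable)

theorem Fub_det {A B : Mat (s + 1)} (hA : ∀ j, A 0 j = ev 0 j) (hB : ∀ j, B 0 j = ev 0 j)
    (h : ∀ i j : Fin s, A i.succ j.succ = B i.succ j.succ) : A.det = B.det := by
  have key : ∀ C : Mat (s + 1), (∀ j, C 0 j = ev 0 j) →
      C.det = (C.submatrix Fin.succ Fin.succ).det := fun C hC => by
    rw [Matrix.det_succ_row_zero, Fin.sum_univ_succ, Finset.sum_eq_zero fun j _ => ?_]
    · simp [hC, ev]
    · simp [hC, ev]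
  rw [key A hA, key B hB]
  congr 1
  exact Matrix.ext h

/-- Both matrices have first row `(1, 0, …, 0)` and the same lower right block. -/
theorem dl_psi {Ξ : E (s + 1) → E (s + 1)} {Ω : Set (E (s + 1))} (h : Fo Ξ Ω) {w : E (s + 1)}
    (hw : cs 0 (tl w) ∈ Ω) :
    DifferentiableAt ℂ (fun w : E (s + 1) => Ξ (cs 0 (tl w)) + w 0 • ev 0) w ∧
      dl (fun w : E (s + 1) => Ξ (cs 0 (tl w)) + w 0 • ev 0) w = dl Ξ (cs 0 (tl w)) := by
  let p0 : E (s + 1) →L[ℂ] ℂ := EuclideanSpace.proj 0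
  let Q : E (s + 1) →L[ℂ] E (s + 1) := p0.smulRight (ev 0)
  let P : E (s + 1) →L[ℂ] E (s + 1) := ContinuousLinearMap.id ℂ _ - Q
  have hP : ∀ v : E (s + 1), cs 0 (tl v) = P v := fun v => by
    ext i
    refine Fin.cases ?_ (fun j => ?_) i
    · simp [P, Q, p0, ev, cs_zero]
    · simp [P, Q, p0, ev, cs_succ, tl_apply]
  have hT := (h.an _ hw).differentiableAt.hasFDerivAt
  set T := fderiv ℂ Ξ (cs 0 (tl w))
  have h0 : ∀ v, T v 0 = v 0 := fun v => by
    have h1 : HasFDerivAt (fun y => p0 (Ξ y)) (p0.comp T) (cs 0 (tl w)) := p0.hasFDerivAt.comp _ hT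
    have h2 : HasFDerivAt (fun y => p0 (Ξ y)) p0 (cs 0 (tl w)) :=
      p0.hasFDerivAt.congr_of_eventuallyEq
        (mem_of_superset (h.op.mem_nhds hw) fun y hy => h.fst y hy)
    exact congrArg (fun L : E (s + 1) →L[ℂ] ℂ => L v) (h1.unique h2)
  have hd : HasFDerivAt (fun w : E (s + 1) => Ξ (cs 0 (tl w)) + w 0 • ev 0) (T.comp P + Q) w := by
    rw [hP] at hT
    simp only [hP]
    exact (hT.comp w P.hasFDerivAt).add Q.hasFDerivAt
  refine ⟨hd.differentiableAt, ?_⟩
  rw [dl, hd.fderiv]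
  change _ = T.det
  rw [← cmat_det, ← cmat_det]
  refine Fub_det (fun j => ?_) (fun j => ?_) fun i j => ?_
  · simp [cmat, h0, P, Q, p0, ev, eq_comm]
  · simp [cmat, h0, ev, eq_comm]
  · simp [cmat, P, Q, p0, ev, (Fin.succ_ne_zero j).symm]

end Pool.Agent.Lib.MP_a47f92_an.Dc
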