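import Pool.Agent.Lib.MP_a47f92_an.Dc.Loc
import Pool.Agent.Lib.MP_a47f92_an.Dc.Fub
import Pool.Agent.Lib.MP_a47f92_an.Pair

set_option autoImplicit false
set_option linter.unusedSectionVars false

namespace Pool.Agent.Lib.MP_a47f92_an.Dc

open MeasureTheory Filter Topology Set Complex Metric Function
open scoped ContDiff ComplexConjugate ENNReal NNReal

variable {s N : ℕ} {Ξ : E (s + 1) → E (s + 1)} {Ω : Set (E (s + 1))} {r : ℝ} {y : E (s + 1)}
  {ζ : ℂ}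

theorem DD_ind (h : Fo Ξ Ω) (hr : 0 < r) {g : E (s + 1) → ℝ≥0∞} (hg : Measurable g) :
    Measurable ((Dm Ξ Ω r).indicator fun w : E (s + 1) × ℂ => g (tau Ξ Ω r w.1 w.2)) := by
  classical
  have h1 : Measurable ((Dm Ξ Ω r).piecewise (fun w : E (s + 1) × ℂ => tau Ξ Ω r w.1 w.2)
      fun _ => 0) :=
    (continuousOn_tau h hr).measurable_piecewise continuousOn_const (isOpen_dm h hr).measurableSet
  have h2 := (hg.comp h1).indicator (isOpen_dm h hr).measurableSet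
  convert h2 using 1
  ext w
  by_cases hw : w ∈ Dm Ξ Ω r
  · simp [hw]
  · simp [hw]

theorem DD_ball (g : E (s + 1) → ℝ≥0∞) (y : E (s + 1)) :
    ∫⁻ w in ball (0 : ℂ) (rho Ξ Ω r y), g (tau Ξ Ω r y w) =
      ∫⁻ w : ℂ, (Dm Ξ Ω r).indicator (fun w : E (s + 1) × ℂ => g (tau Ξ Ω r w.1 w.2)) (y, w) := by
  rw [← lintegral_indicator measurableSet_ball]
  congr 1
  ext w
  by_cases hw : ‖w‖ < rho Ξ Ω r y
  · rw [indicator_of_mem (mem_ball_zero_iff.2 hw), indicator_of_mem (show (y, w) ∈ Dm Ξ Ω r from hw)]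
  · rw [indicator_of_notMem (fun h => hw (mem_ball_zero_iff.1 h)),
      indicator_of_notMem (show (y, w) ∉ Dm Ξ Ω r from hw)]

/-- The centre and the parameter of a point. -/
noncomputable def DD_kap (w : E (s + 1)) : E (s + 1) × ℂ := (cs 0 (tl w), w 0)

theorem DD_cs0 : ContDiff ℂ ∞ fun x : E s => cs 0 x :=
  contDiff_cs.comp (contDiff_const.prodMk contDiff_id)

theorem DD_kap_diff : Differentiable ℂ (DD_kap : E (s + 1) → E (s + 1) × ℂ) := by
  have h1 : Differentiable ℂ fun w : E (s + 1) => cs 0 (tl w) :=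
    (DD_cs0.comp contDiff_tl).differentiable (by simp)
  have h2 : Differentiable ℂ fun w : E (s + 1) => w 0 :=
    (EuclideanSpace.proj (0 : Fin (s + 1)) : E (s + 1) →L[ℂ] ℂ).differentiable
  exact h1.prodMk h2

theorem DD_inj0 (h : Fo Ξ Ω) (hr : 0 < r) {x x' : E (s + 1)} {t : ℂ}
    (ht : ‖t‖ < rho Ξ Ω r x) (hle : rho Ξ Ω r x ≤ rho Ξ Ω r x')
    (he : tau Ξ Ω r x t = tau Ξ Ω r x' t) : x = x' := by
  have ht' : ‖t‖ < rho Ξ Ω r x' := ht.trans_le hle
  have h1 : Ξ x = Ξ x' := by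
    have a := tau_img h hr ht
    have b := tau_img h hr ht'
    rw [he, b] at a
    exact (add_right_cancel a).symm
  have hs := tau_spec h hr x
  have hs' := tau_spec h hr x'
  have hsub : ball (0 : ℂ) (rho Ξ Ω r x) ⊆ ball 0 (rho Ξ Ω r x') := ball_subset_ball hle
  have h2 := lift_eq h (convex_ball (0 : ℂ) (rho Ξ Ω r x)).isPreconnected hs.diff.continuousOn
    (hs'.diff.continuousOn.mono hsub) hs.mem
    (fun w hw => by rw [hs.eq w hw, hs'.eq w (hsub hw), h1]) (mem_ball_zero_iff.2 ht) he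
  have h3 := h2 (mem_ball_self ((norm_nonneg t).trans_lt ht))
  rwa [tau_zero, tau_zero] at h3

theorem DD_inj (h : Fo Ξ Ω) (hr : 0 < r) :
    InjOn (fun w : E (s + 1) => tau Ξ Ω r (cs 0 (tl w)) (w 0)) (DD_kap ⁻¹' Dm Ξ Ω r) := by
  intro w hw w' hw' he
  have hw1 : ‖w 0‖ < rho Ξ Ω r (cs 0 (tl w)) := hw
  have hw2 : ‖w' 0‖ < rho Ξ Ω r (cs 0 (tl w')) := hw'
  have he1 : tau Ξ Ω r (cs 0 (tl w)) (w 0) = tau Ξ Ω r (cs 0 (tl w')) (w' 0) := he
  have h0 : w 0 = w' 0 := by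
    have a := tau_fst h hr hw1
    have b := tau_fst h hr hw2
    rw [he1, b, cs_zero, cs_zero] at a
    exact (add_left_cancel a).symm
  rw [← h0] at he1 hw2
  have h1 : cs 0 (tl w) = cs 0 (tl w') := by
    rcases le_total (rho Ξ Ω r (cs 0 (tl w))) (rho Ξ Ω r (cs 0 (tl w'))) with hle | hle
    · exact DD_inj0 h hr hw1 hle he1
    · exact (DD_inj0 h hr hw2 hle he1.symm).symm
  have h2 : tl w = tl w' := by
    have := congrArg tl h1
    rwa [tl_cs, tl_cs] at this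
  rw [← cs_tl w, ← cs_tl w', h2, ← h0]

theorem DD_open (h : Fo Ξ Ω) (hr : 0 < r) : IsOpen (DD_kap ⁻¹' Dm Ξ Ω r) :=
  (isOpen_dm h hr).preimage DD_kap_diff.continuous

theorem DD_diff (h : Fo Ξ Ω) (hr : 0 < r) {w : E (s + 1)} (hw : w ∈ DD_kap ⁻¹' Dm Ξ Ω r) :
    DifferentiableAt ℂ (fun w : E (s + 1) => tau Ξ Ω r (cs 0 (tl w)) (w 0)) w :=
  ((differentiableOn_tau h hr).differentiableAt ((isOpen_dm h hr).mem_nhds hw)).comp w
    (DD_kap_diff w)

theorem DD_jac (h : Fo Ξ Ω) (hr : 0 < r) {w : E (s + 1)} (hw : w ∈ DD_kap ⁻¹' Dm Ξ Ω r) :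
    jac (fun w : E (s + 1) => tau Ξ Ω r (cs 0 (tl w)) (w 0)) w *
      jac Ξ (tau Ξ Ω r (cs 0 (tl w)) (w 0)) = jac Ξ (cs 0 (tl w)) := by
  have hw1 : ‖w 0‖ < rho Ξ Ω r (cs 0 (tl w)) := hw
  have hc : cs 0 (tl w) ∈ Ω := (mem_ur h hr ((norm_nonneg _).trans_lt hw1)).1
  have hm : tau Ξ Ω r (cs 0 (tl w)) (w 0) ∈ Ω := (tau_mem h hr hw1).1
  have hX : DifferentiableAt ℂ Ξ (tau Ξ Ω r (cs 0 (tl w)) (w 0)) := (h.an _ hm).differentiableAt
  have hev : (Ξ ∘ fun w : E (s + 1) => tau Ξ Ω r (cs 0 (tl w)) (w 0)) =ᶠ[𝓝 w]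
      fun w : E (s + 1) => Ξ (cs 0 (tl w)) + w 0 • ev 0 := by
    filter_upwards [(DD_open h hr).mem_nhds hw] with v hv
    exact tau_img h hr hv
  have h1 := fderiv_comp w hX (DD_diff h hr hw)
  have h2 := (dl_psi h hc).2
  unfold dl at h2
  rw [← hev.fderiv_eq, h1] at h2
  have h3 : (fderiv ℂ Ξ (tau Ξ Ω r (cs 0 (tl w)) (w 0))).det *
      (fderiv ℂ (fun w : E (s + 1) => tau Ξ Ω r (cs 0 (tl w)) (w 0)) w).det =
      (fderiv ℂ Ξ (cs 0 (tl w))).det := by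
    rw [← h2]
    exact (LinearMap.det_comp _ _).symm
  unfold jac
  rw [← h3, norm_mul]
  ring

/-- The function `(Dm).indicator fun w => g (tau w.1 w.2)` is measurable
(`ContinuousOn.measurable_piecewise`); `Measurable.lintegral_prod_right'`. -/
theorem measurable_disc (h : Fo Ξ Ω) (hr : 0 < r) {g : E (s + 1) → ℝ≥0∞} (hg : Measurable g) :
    Measurable fun y => ∫⁻ w in ball (0 : ℂ) (rho Ξ Ω r y), g (tau Ξ Ω r y w) := by
  have h3 := (DD_ind h hr hg).lintegral_prod_right' (ν := volume)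
  simp only [DD_ball]
  exact h3

/-- The centred discs are disjoint. The map `Φ w = tau (cs 0 (tl w)) (w 0)` is holomorphic on the
open set `A = {w | ‖w 0‖ < rho (cs 0 (tl w))}`, injective (`tau_fst`, `tau_img`, `lift_eq` on the
smaller of the two discs), maps into `Ω`, and `jac Φ w * jac Ξ (Φ w) = jac Ξ (cs 0 (tl w))`
(`dl_psi`). `lintegral_image_eq_lintegral_abs_det_fderiv_mul`, `det_restrict`, `lintegral_cs`. -/
theorem dd_le (h : Fo Ξ Ω) (hr : 0 < r) {g : E (s + 1) → ℝ≥0∞} (hg : Measurable g) :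
    ∫⁻ x : E s, ENNReal.ofReal (jac Ξ (cs 0 x)) *
        ∫⁻ w in ball (0 : ℂ) (rho Ξ Ω r (cs 0 x)), g (tau Ξ Ω r (cs 0 x) w) ≤
      ∫⁻ y in Ω, ENNReal.ofReal (jac Ξ y) * g y := by
  have hA := (DD_open h hr).measurableSet
  have hF : Measurable fun w : E (s + 1) => ENNReal.ofReal (jac Ξ (cs 0 (tl w))) *
      (Dm Ξ Ω r).indicator (fun w : E (s + 1) × ℂ => g (tau Ξ Ω r w.1 w.2)) (DD_kap w) := by
    refine Measurable.mul ?_ ((DD_ind h hr hg).comp DD_kap_diff.continuous.measurable)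
    exact ((measurable_jac Ξ).comp
      (DD_cs0.comp contDiff_tl).continuous.measurable).ennreal_ofReal
  have h1 := lintegral_cs hF
  have h2 : ∫⁻ x : E s, ENNReal.ofReal (jac Ξ (cs 0 x)) *
        ∫⁻ w in ball (0 : ℂ) (rho Ξ Ω r (cs 0 x)), g (tau Ξ Ω r (cs 0 x) w) =
      ∫⁻ w : E (s + 1), ENNReal.ofReal (jac Ξ (cs 0 (tl w))) *
      (Dm Ξ Ω r).indicator (fun w : E (s + 1) × ℂ => g (tau Ξ Ω r w.1 w.2)) (DD_kap w) := by
    rw [h1]
    refine lintegral_congr fun x => ?_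
    rw [DD_ball, ← lintegral_const_mul' _ _ ENNReal.ofReal_ne_top]
    refine lintegral_congr fun t => ?_
    simp only [DD_kap, tl_cs, cs_zero]
  have h3 := lintegral_image_eq_lintegral_abs_det_fderiv_mul (volume : Measure (E (s + 1))) hA
    (f := fun w : E (s + 1) => tau Ξ Ω r (cs 0 (tl w)) (w 0))
    (f' := fun w => (fderiv ℂ (fun w : E (s + 1) => tau Ξ Ω r (cs 0 (tl w)) (w 0)) w).restrictScalars ℝ)
    (fun w hw => ((DD_diff h hr hw).hasFDerivAt.restrictScalars ℝ).hasFDerivWithinAt)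
    (DD_inj h hr) (fun y => ENNReal.ofReal (jac Ξ y) * g y)
  have h4 : (fun w : E (s + 1) => tau Ξ Ω r (cs 0 (tl w)) (w 0)) '' (DD_kap ⁻¹' Dm Ξ Ω r) ⊆ Ω := by
    rintro _ ⟨w, hw, rfl⟩
    exact (tau_mem h hr hw).1
  refine le_trans (le_of_eq ?_) (lintegral_mono_set h4)
  rw [h2, h3, ← lintegral_indicator hA]
  refine lintegral_congr fun w => ?_
  by_cases hw : w ∈ DD_kap ⁻¹' Dm Ξ Ω r
  · rw [indicator_of_mem hw, indicator_of_mem (show DD_kap w ∈ Dm Ξ Ω r from hw), det_restrict,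
      abs_of_nonneg (sq_nonneg _), ← mul_assoc, ← ENNReal.ofReal_mul (sq_nonneg _),
      ← DD_jac h hr hw]
    rfl
  · rw [indicator_of_notMem hw, indicator_of_notMem (show DD_kap w ∉ Dm Ξ Ω r from hw), mul_zero]

/-- `setLIntegral_mono` needs no measurability of `B`. -/
theorem dd_markov (h : Fo Ξ Ω) (hr : 0 < r) {g : E (s + 1) → ℝ≥0∞} (hg : Measurable g) {a : ℝ≥0∞}
    {B : Set (E s)}
    (hB : ∀ x ∈ B, a ≤ ∫⁻ w in ball (0 : ℂ) (rho Ξ Ω r (cs 0 x)), g (tau Ξ Ω r (cs 0 x) w)) :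
    a * cen Ξ B ≤ ∫⁻ y in Ω, ENNReal.ofReal (jac Ξ y) * g y := by
  refine le_trans ?_ (dd_le h hr hg)
  have hc : Measurable fun x : E s => cs 0 x := DD_cs0.continuous.measurable
  have hj : Measurable fun x : E s => ENNReal.ofReal (jac Ξ (cs 0 x)) :=
    ((measurable_jac Ξ).comp hc).ennreal_ofReal
  unfold cen
  rw [← lintegral_const_mul a hj]
  refine le_trans (setLIntegral_mono (hj.mul ((measurable_disc h hr hg).comp hc)) ?_)
    (setLIntegral_le_lintegral _ _)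
  intro x hx
  rw [mul_comm a]
  exact mul_le_mul_right (hB x hx) _

/-- `dd_markov` for `g y = ∑ j, ofReal (ll (q j) y)`; `ofReal jac * ofReal ll ≤ ofReal LL`. -/
theorem markov_sum (h : Fo Ξ Ω) (hr : 0 < r) (q : ℕ → E (s + 1) → ℝ) (J : ℕ) {a : ℝ≥0∞}
    {B : Set (E s)} (hB : ∀ x ∈ B, a ≤ ∑ j ∈ Finset.range J, de Ξ Ω r (q j) (cs 0 x)) :
    a * cen Ξ B ≤ ∑ j ∈ Finset.range J, tot Ξ Ω (q j) := by
  have hm : ∀ j, Measurable fun y => ENNReal.ofReal (ll Ξ (q j) y) := fun j =>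
    (measurable_ll Ξ (q j)).ennreal_ofReal
  have hg : Measurable fun y => ∑ j ∈ Finset.range J, ENNReal.ofReal (ll Ξ (q j) y) :=
    Finset.measurable_fun_sum _ fun j _ => hm j
  have h1 := dd_markov h hr hg (a := a) (B := B) fun x hx => by
    refine (hB x hx).trans (le_of_eq ?_)
    unfold de
    symm
    refine lintegral_finsetSum' _ fun j _ => ?_
    exact (hm j).comp_aemeasurable (((tau_spec h hr (cs 0 x)).diff.continuousOn).aemeasurable
      measurableSet_ball)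
  refine h1.trans ?_
  unfold tot
  rw [← lintegral_finsetSum _ fun j _ => (measurable_LL Ξ (q j)).ennreal_ofReal]
  refine lintegral_mono fun y => ?_
  simp only [Finset.mul_sum]
  refine Finset.sum_le_sum fun j _ => ?_
  rw [← ENNReal.ofReal_mul (jac_nonneg Ξ y)]
  unfold ll
  rcases (jac_nonneg Ξ y).eq_or_lt with h0 | h0
  · rw [← h0]
    simp
  · rw [mul_div_cancel₀ _ h0.ne']

theorem markov_de (h : Fo Ξ Ω) (hr : 0 < r) (q : E (s + 1) → ℝ) {a : ℝ≥0∞} {B : Set (E s)}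
    (hB : ∀ x ∈ B, a ≤ de Ξ Ω r q (cs 0 x)) : a * cen Ξ B ≤ tot Ξ Ω q := by
  have h1 := markov_sum h hr (fun _ => q) 1 (a := a) (B := B) (by simpa using hB)
  simpa using h1

end Pool.Agent.Lib.MP_a47f92_an.Dc
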