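import Pool.Agent.Lib.MP_a47f92_an.G.GInt

set_option autoImplicit false
set_option linter.unusedSectionVars false

/-! Definitions for the disc count. -/

namespace Pool.Agent.Lib.MP_a47f92_an.Dc

open MeasureTheory Filter Topology Set Complex Metric Function
open scoped ContDiff ComplexConjugate ENNReal NNReal

variable {s N : ℕ}

/-- The Laplacian in the plane. -/
noncomputable def pl (f : ℂ → ℝ) (z : ℂ) : ℝ := 4 * lap f z 1

/-- The average over the circle of radius `δ` minus the value at the centre. -/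
noncomputable def ad (δ : ℝ) (g : ℂ → ℝ) (z : ℂ) : ℝ := Real.circleAverage g z δ - g z

/-- The radial test function. -/
noncomputable def tf (R b : ℝ) (z : ℂ) : ℝ :=
  max 0 (Real.log (max ‖z‖ b ^ 2 + R ^ 2) - Real.log (2 * max ‖z‖ b ^ 2))

/-- The square of the Fubini-Study length of the vector `v` at the point `a`. -/
noncomputable def en (a v : E N) : ℝ := (‖a‖ ^ 2 * ‖v‖ ^ 2 - ‖inner ℂ a v‖ ^ 2) / ‖a‖ ^ 4

/-- The lines spanned by `a` and `b` are `ε`-close. -/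
def Cl (ε : ℝ) (a b : E N) : Prop := ∃ c : ℂ, ‖c • a - un b‖ ≤ ε

/-- Holomorphic maps without zeros. -/
structure NV (f : E (s + 1) → E N) (Ω : Set (E (s + 1))) : Prop where
  an : AnalyticOnNhd ℂ f Ω
  ne : ∀ y ∈ Ω, f y ≠ 0

/-- The data defining the leaves. -/
structure Fo (Ξ : E (s + 1) → E (s + 1)) (Ω : Set (E (s + 1))) : Prop where
  op : IsOpen Ω
  an : AnalyticOnNhd ℂ Ξ Ω
  fst : ∀ y ∈ Ω, Ξ y 0 = y 0

/-- The logarithm of the norm of a map. -/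
noncomputable def lf (f : E (s + 1) → E N) (y : E (s + 1)) : ℝ := lg (f y)

/-- The majorant of the logarithm of the Jacobian. -/
noncomputable def pot (H : E (s + 1) → E N) (G : E (s + 1) → ℂ) (γ : ℝ) (y : E (s + 1)) : ℝ :=
  lf H y - γ * Real.log ‖G y‖

/-- The data of the disc count. -/
structure Tube (Ξ : E (s + 1) → E (s + 1)) (Ω : Set (E (s + 1))) (r η M P : ℝ)
    (H : E (s + 1) → E N) (G : E (s + 1) → ℂ) (γ : ℝ) (χ : E (s + 1) → ℝ) : Prop where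
  fo : Fo Ξ Ω
  r_pos : 0 < r
  r_le : r ≤ 1
  η_pos : 0 < η
  η_le : η ≤ 1
  M_ge : 1 ≤ M
  bd : ∀ y ∈ Ω, ‖Ξ y‖ ≤ M
  nv : NV H Ω
  gan : AnalyticOnNhd ℂ G Ω
  gne : ∀ y ∈ Ω, G y ≠ 0
  P_ge : 0 ≤ P
  low : ∀ y ∈ Ω, -P ≤ pot H G γ y
  up : ∀ y ∈ Ω, ‖dl Ξ y‖ ≤ Real.exp (pot H G γ y)
  sm : ContDiffOn ℝ 2 χ Ω
  cpt : HasCompactSupport χ
  nonneg : ∀ y, 0 ≤ χ y
  le_one : ∀ y, χ y ≤ 1
  nb : ∀ y ∈ tsupport χ, ball y η ⊆ Ω

theorem NV.cd {f : E (s + 1) → E N} {Ω : Set (E (s + 1))} (h : NV f Ω) : ContDiffOn ℂ ∞ f Ω :=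
  h.an.contDiffOn_of_completeSpace

theorem Fo.cd {Ξ : E (s + 1) → E (s + 1)} {Ω : Set (E (s + 1))} (h : Fo Ξ Ω) :
    ContDiffOn ℂ ∞ Ξ Ω :=
  h.an.contDiffOn_of_completeSpace

theorem Tube.gcd {Ξ : E (s + 1) → E (s + 1)} {Ω : Set (E (s + 1))} {r η M P γ : ℝ}
    {H : E (s + 1) → E N} {G : E (s + 1) → ℂ} {χ : E (s + 1) → ℝ}
    (h : Tube Ξ Ω r η M P H G γ χ) : ContDiffOn ℂ ∞ G Ω :=
  h.gan.contDiffOn_of_completeSpace

/-- Leafwise subharmonic majorants of the logarithm of the Jacobian. -/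
structure Pt (Ξ : E (s + 1) → E (s + 1)) (Ω : Set (E (s + 1))) (p : E (s + 1) → ℝ) : Prop where
  sm : ContDiffOn ℝ 2 p Ω
  psh : ∀ y ∈ Ω, 0 ≤ LL Ξ p y
  up : ∀ y ∈ Ω, ‖dl Ξ y‖ ≤ Real.exp (p y)

/-- Functions which are measurable on `Ω`. -/
def Ms (Ω : Set (E (s + 1))) (g : E (s + 1) → ℝ) : Prop := Measurable (Ω.indicator g)

/-- A quarter of the Laplacian along the leaves in the coordinate `y 0`. -/
noncomputable def ll (Ξ : E (s + 1) → E (s + 1)) (q : E (s + 1) → ℝ) (y : E (s + 1)) : ℝ :=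
  LL Ξ q y / jac Ξ y

/-- The total mass of the leafwise Laplacian. -/
noncomputable def tot (Ξ : E (s + 1) → E (s + 1)) (Ω : Set (E (s + 1))) (q : E (s + 1) → ℝ) : ℝ≥0∞ :=
  ∫⁻ y in Ω, ENNReal.ofReal (LL Ξ q y)

/-- The measure of a set of centres. -/
noncomputable def cen (Ξ : E (s + 1) → E (s + 1)) (B : Set (E s)) : ℝ≥0∞ :=
  ∫⁻ x in B, ENNReal.ofReal (jac Ξ (cs 0 x))

/-- The error term produced by the cut-off function. -/
noncomputable def err (Ξ : E (s + 1) → E (s + 1)) (Ω : Set (E (s + 1))) (r η M P : ℝ)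
    (χ : E (s + 1) → ℝ) : ℝ≥0∞ :=
  ENNReal.ofReal (1 + Real.log (M / η) + P) *
    ∫⁻ y in Ω ∩ {y | ‖y 0‖ < r}, ENNReal.ofReal |LL Ξ χ y|

/-- The square of the norm of the last coordinates. -/
noncomputable def tq (y : E (s + 1)) : ℝ := ‖tl y‖ ^ 2

/-- The mass of the leafwise Laplacian on the disc through `y`. -/
noncomputable def de (Ξ : E (s + 1) → E (s + 1)) (Ω : Set (E (s + 1))) (r : ℝ)
    (q : E (s + 1) → ℝ) (y : E (s + 1)) : ℝ≥0∞ :=
  ∫⁻ ζ in ball (0 : ℂ) (rho Ξ Ω r y), ENNReal.ofReal (ll Ξ q (tau Ξ Ω r y ζ))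

/-- The domain of the leaf translation. -/
def Dm (Ξ : E (s + 1) → E (s + 1)) (Ω : Set (E (s + 1))) (r : ℝ) : Set (E (s + 1) × ℂ) :=
  {w | ‖w.2‖ < rho Ξ Ω r w.1}

/-- The set on which the translation by `ζ` is invertible. -/
def Dz (Ξ : E (s + 1) → E (s + 1)) (Ω : Set (E (s + 1))) (r : ℝ) (ζ : ℂ) : Set (E (s + 1)) :=
  {y | ‖ζ‖ < rho Ξ Ω r y ∧ ‖ζ‖ < rho Ξ Ω r (tau Ξ Ω r y ζ)}

/-- The density of the hyperbolic metric of the punctured disc of radius `e r`. -/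
noncomputable def hy (r x : ℝ) : ℝ := (x * (1 + Real.log (r / x)))⁻¹

/-- The weight of Ahlfors type. -/
noncomputable def wt (Ξ : E (s + 1) → E (s + 1)) (Ω : Set (E (s + 1))) (r : ℝ) (p : E (s + 1) → ℝ)
    (y : E (s + 1)) : ℝ :=
  hy r (rho Ξ Ω r y) * (jac Ξ y * Real.exp (-2 * p y)) * (max (r ^ 2 - ‖y 0‖ ^ 2) 0 / (2 * r)) *
    √(‖y 0‖ / r)

/-- The positive part of the logarithm of the weight. -/
noncomputable def nn (Ξ : E (s + 1) → E (s + 1)) (Ω : Set (E (s + 1))) (r : ℝ) (p : E (s + 1) → ℝ)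
    (y : E (s + 1)) : ℝ :=
  Real.log (max (wt Ξ Ω r p y) 1)

/-- The function which is subharmonic on the leaves. -/
noncomputable def sb (Ξ : E (s + 1) → E (s + 1)) (Ω : Set (E (s + 1))) (r : ℝ) (p : E (s + 1) → ℝ)
    (y : E (s + 1)) : ℝ :=
  nn Ξ Ω r p y + 2 * p y

/-- The cut-off function, also cut off near the ramification locus. -/
noncomputable def cut (Ξ : E (s + 1) → E (s + 1)) (e : ℝ) (χ : E (s + 1) → ℝ) (y : E (s + 1)) : ℝ :=
  χ y * Real.smoothTransition (2 * jac Ξ y / e - 1)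

/-- The average over the circle of radius `δ` in the leaf minus the value at the centre. -/
noncomputable def av (Ξ : E (s + 1) → E (s + 1)) (Ω : Set (E (s + 1))) (r δ : ℝ)
    (g : E (s + 1) → ℝ) (y : E (s + 1)) : ℝ :=
  Real.circleAverage (fun ζ => g (tau Ξ Ω r y ζ)) 0 δ - g y

end Pool.Agent.Lib.MP_a47f92_an.Dc
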