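import Pool.Agent.Lib.MP_a47f92_an.Dc.Wt2
import Pool.Agent.Lib.MP_a47f92_an.Dc.Ctr

set_option autoImplicit false
set_option linter.unusedSectionVars false

namespace Pool.Agent.Lib.MP_a47f92_an.Dc

open MeasureTheory Filter Topology Set Complex Metric Function
open scoped ContDiff ComplexConjugate ENNReal NNReal

variable {s N : ℕ} {Ξ : E (s + 1) → E (s + 1)} {Ω : Set (E (s + 1))} {r η M P γ : ℝ}
  {H : E (s + 1) → E N} {G : E (s + 1) → ℂ} {χ p : E (s + 1) → ℝ} {y : E (s + 1)} {ζ : ℂ}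
variable {K : ℝ}

theorem Disc_norm_un {z : E N} (hz : z ≠ 0) : ‖un z‖ = 1 := by
  have h0 : ‖z‖ ≠ 0 := norm_ne_zero_iff.2 hz
  rw [un, norm_smul, norm_inv, norm_norm, inv_mul_cancel₀ h0]

theorem Disc_log {a l : ℝ} (ha : 0 < a) (hl : 0 ≤ l) (h1 : l ≤ a) (h2 : a ^ 2 ≤ 2 * l ^ 2) :
    0 < l ∧ 0 ≤ Real.log a - Real.log l ∧ Real.log a - Real.log l ≤ 1 := by
  have hl0 : 0 < l := by
    rcases hl.eq_or_lt with h | h
    · rw [← h] at h2
      nlinarith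
    · exact h
  refine ⟨hl0, sub_nonneg.2 (Real.log_le_log hl0 h1), ?_⟩
  have h3 : a ≤ 2 * l := by nlinarith
  have h4 := Real.log_le_log ha h3
  rw [Real.log_mul two_ne_zero hl0.ne'] at h4
  have h5 : Real.log 2 ≤ 2 - 1 := Real.log_le_sub_one_of_pos two_pos
  linarith

/-- With `l w = inner (un (H y)) (H (tau y w))` the function
`v w = log ‖dl (tau y w)‖ - log ‖l w‖ + γ * log ‖G (tau y w)‖` is harmonic near
`closedBall 0 (3 ρ / 4)` (`AnalyticAt.harmonicAt_log_norm`, `differentiableOn_comp_tau`). For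
`u = log ‖dl‖ - pot ≤ 0` we have `v = u + (log ‖H‖ - log ‖l‖)` with `0 ≤ log ‖H‖ - log ‖l‖ ≤ 1`, so
`v ≤ 1`, `v 0 ≥ -K`; `harnack` for `1 - v` gives `u ≥ -2 (1 + K)`. -/
theorem Tube.disc_u (T : Tube Ξ Ω r η M P H G γ χ) (hy : y ∈ Ω)
    (hd : Real.exp (pot H G γ y - K) ≤ ‖dl Ξ y‖)
    (hH : ∀ w : ℂ, ‖w‖ ≤ 3 * rho Ξ Ω r y / 4 → ‖H (tau Ξ Ω r y w)‖ ^ 2 ≤
      2 * ‖inner ℂ (un (H y)) (H (tau Ξ Ω r y w))‖ ^ 2) (hζ : ‖ζ‖ ≤ rho Ξ Ω r y / 4) :
    Real.exp (-4 * (1 + K)) ≤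
      jac Ξ (tau Ξ Ω r y ζ) * Real.exp (-2 * pot H G γ (tau Ξ Ω r y ζ)) := by
  have hr := T.r_pos
  have hyU : y ∈ Ur Ξ Ω :=
    ⟨hy, norm_pos_iff.1 (lt_of_lt_of_le (Real.exp_pos _) hd)⟩
  have hρ : 0 < rho Ξ Ω r y := rho_pos T.fo hr hyU
  set ρ := rho Ξ Ω r y with hρe
  set t := tau Ξ Ω r y with hte
  have hmem : ∀ w : ℂ, ‖w‖ ≤ 3 * ρ / 4 → t w ∈ Ur Ξ Ω := fun w hw =>
    tau_mem T.fo hr (by linarith)
  have hkey : ∀ w : ℂ, ‖w‖ ≤ 3 * ρ / 4 → 0 < ‖inner ℂ (un (H y)) (H (t w))‖ ∧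
      0 ≤ Real.log ‖H (t w)‖ - Real.log ‖inner ℂ (un (H y)) (H (t w))‖ ∧
      Real.log ‖H (t w)‖ - Real.log ‖inner ℂ (un (H y)) (H (t w))‖ ≤ 1 := by
    intro w hw
    refine Disc_log (norm_pos_iff.2 (T.nv.ne _ (hmem w hw).1)) (norm_nonneg _) ?_ (hH w hw)
    have := norm_inner_le_norm (𝕜 := ℂ) (un (H y)) (H (t w))
    rwa [Disc_norm_un (T.nv.ne y hy), one_mul] at this
  have hup : ∀ w : ℂ, ‖w‖ ≤ 3 * ρ / 4 → Real.log ‖dl Ξ (t w)‖ ≤ pot H G γ (t w) := by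
    intro w hw
    rw [Real.log_le_iff_le_exp (norm_pos_iff.2 (hmem w hw).2)]
    exact T.up _ (hmem w hw).1
  have d1 : DifferentiableOn ℂ (fun w => dl Ξ (t w)) (ball 0 ρ) :=
    differentiableOn_comp_tau T.fo hr T.fo.contDiffOn_dl y
  have d2 : DifferentiableOn ℂ (fun w => G (t w)) (ball 0 ρ) :=
    differentiableOn_comp_tau T.fo hr T.gcd y
  have d3 : DifferentiableOn ℂ (fun w => H (t w)) (ball 0 ρ) :=
    differentiableOn_comp_tau T.fo hr T.nv.cd y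
  have d4 : DifferentiableOn ℂ (fun w => inner ℂ (un (H y)) (H (t w))) (ball 0 ρ) :=
    (innerSL ℂ (un (H y))).differentiable.comp_differentiableOn d3
  set V : ℂ → ℝ := fun w => 1 - (Real.log ‖dl Ξ (t w)‖ -
    Real.log ‖inner ℂ (un (H y)) (H (t w))‖ + γ * Real.log ‖G (t w)‖) with hV
  have hVe : ∀ w, V w = 1 - ((Real.log ‖dl Ξ (t w)‖ - pot H G γ (t w)) +
      (Real.log ‖H (t w)‖ - Real.log ‖inner ℂ (un (H y)) (H (t w))‖)) := by
    intro w
    simp only [hV, pot, lf, lg]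
    ring
  have hharm : InnerProductSpace.HarmonicOnNhd V (closedBall 0 (3 * ρ / 4)) := by
    intro w hw
    rw [mem_closedBall_zero_iff] at hw
    have hb : ball (0 : ℂ) ρ ∈ 𝓝 w := isOpen_ball.mem_nhds (mem_ball_zero_iff.2 (by linarith))
    have a1 := (d1.analyticAt hb).harmonicAt_log_norm (hmem w hw).2
    have a2 := (d2.analyticAt hb).harmonicAt_log_norm (T.gne _ (hmem w hw).1)
    have a4 := (d4.analyticAt hb).harmonicAt_log_norm (norm_pos_iff.1 (hkey w hw).1)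
    exact (InnerProductSpace.harmonicAt_const (1 : ℝ)).sub ((a1.sub a4).add (a2.const_smul (c := γ)))
  have hV0 : ∀ w ∈ closedBall (0 : ℂ) (3 * ρ / 4), 0 ≤ V w := by
    intro w hw
    rw [mem_closedBall_zero_iff] at hw
    have := hup w hw
    have := (hkey w hw).2.2
    rw [hVe]
    linarith
  have hhar := harnack (by linarith) hharm hV0 (ζ := ζ) (by linarith)
  have hz : ‖ζ‖ ≤ 3 * ρ / 4 := by linarith
  have h00 : ‖(0 : ℂ)‖ ≤ 3 * ρ / 4 := by
    rw [norm_zero]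
    linarith
  have hy0 : pot H G γ y - K ≤ Real.log ‖dl Ξ y‖ := by
    rw [Real.le_log_iff_exp_le (norm_pos_iff.2 hyU.2)]
    exact hd
  have ht0 : t 0 = y := tau_zero Ξ Ω r y
  have k0 := (hkey 0 h00).2.1
  have k1 := (hkey ζ hz).2.2
  rw [hVe, hVe] at hhar
  rw [ht0] at hhar k0
  have hpos : 0 < ‖dl Ξ (t ζ)‖ := norm_pos_iff.2 (hmem ζ hz).2
  have he : jac Ξ (t ζ) = Real.exp (2 * Real.log ‖dl Ξ (t ζ)‖) := by
    rw [jac_eq, two_mul, Real.exp_add, Real.exp_log hpos, sq]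
  rw [he, ← Real.exp_add]
  exact Real.exp_le_exp.2 (by linarith)

/-- `ctr` with `R = ρ / 4`, `b = ρ ^ 2 / r`, `B = log (r / ρ) / 4`, `n = nn ∘ tau y`,
`q = 2 * p ∘ tau y` (`nn_centre`, `nn_lower`, `rho_tau_ge`, `rho_tau_le`, `tau_fst`, `av_eq_ad`,
`av_sb_nonneg`, `av_bounds` or `ad_ge`); `0 < log (2 R / b) = log (r / (2 ρ)) ≤ log (r / ρ)`. -/
theorem disc_low (h : Fo Ξ Ω) (hr : 0 < r) (hp : Pt Ξ Ω p) (hK : 0 ≤ K) (hy : y ∈ Ur Ξ Ω)
    (h0 : y 0 = 0) (hρ : rho Ξ Ω r y ≤ r * Real.exp (-100 * (K + 1)))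
    (hu : ∀ w : ℂ, ‖w‖ ≤ rho Ξ Ω r y / 4 → Real.exp (-4 * (1 + K)) ≤
      jac Ξ (tau Ξ Ω r y w) * Real.exp (-2 * p (tau Ξ Ω r y w))) {δ : ℝ} (hδ : 0 < δ)
    (hδ' : δ ≤ rho Ξ Ω r y ^ 2 / (2 * r)) :
    ENNReal.ofReal (1 / 48) ≤ ∫⁻ w in ball (0 : ℂ) (rho Ξ Ω r y / 4),
      ENNReal.ofReal (av Ξ Ω r δ (sb Ξ Ω r p) (tau Ξ Ω r y w) / δ ^ 2) := by
  have hρ0 : 0 < rho Ξ Ω r y := rho_pos h hr hy
  set ρ := rho Ξ Ω r y with hρe
  set t := tau Ξ Ω r y with hte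
  have h16 : 16 * ρ ≤ r := by
    have e1 : Real.exp (-100 * (K + 1)) ≤ Real.exp (-15) := Real.exp_le_exp.2 (by linarith)
    have e2 : (15 : ℝ) + 1 ≤ Real.exp 15 := Real.add_one_le_exp 15
    have e3 : Real.exp (-15) * Real.exp 15 = 1 := by
      rw [← Real.exp_add]
      simp
    have e4 : 16 * Real.exp (-15) ≤ 1 := by nlinarith [Real.exp_pos (-15)]
    have e5 : r * Real.exp (-100 * (K + 1)) ≤ r * Real.exp (-15) :=
      mul_le_mul_of_nonneg_left e1 hr.le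
    nlinarith
  have hb : 0 < ρ ^ 2 / r := by positivity
  have hbρ : ρ ^ 2 / r ≤ ρ / 16 := by
    rw [div_le_div_iff₀ hr (by norm_num)]
    nlinarith
  have hδb : δ ≤ ρ ^ 2 / r / 2 := by
    rw [div_div, mul_comm r 2]
    exact hδ'
  have hδρ : δ ≤ ρ / 32 := by linarith
  have hfst : ∀ w : ℂ, ‖w‖ < ρ → ‖t w 0‖ = ‖w‖ := by
    intro w hw
    rw [hte, tau_fst h hr hw, h0, zero_add]
  have hsub : closedBall (0 : ℂ) (2 * (ρ / 4)) ⊆ ball 0 ρ := closedBall_subset_ball (by linarith)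
  have hL : 0 < Real.log (r / (2 * ρ)) :=
    Real.log_pos (by rw [lt_div_iff₀ (by positivity)]; linarith)
  have hL2 : Real.log (r / (2 * ρ)) ≤ Real.log (r / ρ) :=
    Real.log_le_log (by positivity) (div_le_div_of_nonneg_left hr.le hρ0 (by linarith))
  have hav : ∀ z ∈ ball (0 : ℂ) (ρ / 4), av Ξ Ω r δ (sb Ξ Ω r p) (t z) =
      ad δ (fun w => nn Ξ Ω r p (t w) + 2 * p (t w)) z := by
    intro z hz
    rw [mem_ball_zero_iff] at hz
    exact av_eq_ad h hr hδ (by linarith) (sb Ξ Ω r p)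
  have hc := ctr (R := ρ / 4) (b := ρ ^ 2 / r) (δ := δ) (B := Real.log (r / ρ) / 4)
    (n := fun w => nn Ξ Ω r p (t w)) (q := fun w => 2 * p (t w)) hb (by linarith) hδ hδb
    (by linarith) ((continuousOn_nn_tau h hr hp y).mono hsub)
    (fun w hw => (continuousAt_const.mul
      (pl_tau h hr hp.sm (mem_ball_zero_iff.1 (hsub hw))).1.continuousAt).continuousWithinAt)
    (fun z _ => nn_nonneg Ξ Ω r p _)
    (fun z hz => by
      have hz' : ‖z‖ < ρ := by linarith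
      refine nn_centre hr hp (tau_mem h hr hz').1 hρ0 ?_ (by rw [hfst z hz']; exact hz)
      have := rho_tau_ge h hr hz'
      linarith)
    (fun z hz1 hz2 => by
      have hz' : ‖z‖ < ρ := by linarith
      have g1 := rho_tau_ge h hr hz'
      have g2 := rho_tau_le h hr hz'
      exact nn_lower hr hK hρ0 hρ (by linarith) (by linarith) (by rw [hfst z hz']; linarith)
        (by rw [hfst z hz']; exact hz2) (hu z hz2))
    (fun z hz => by
      rw [mem_ball_zero_iff] at hz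
      have hw : ∀ w ∈ closedBall z δ, ‖w‖ < ρ := by
        intro w hw
        rw [mem_closedBall, dist_eq_norm] at hw
        have := norm_le_norm_add_norm_sub' w z
        linarith
      rw [ad_const_mul]
      have := ad_ge (φ := fun w => p (t w)) (a := 0) (c := z) hδ
        (fun w hw' => (pl_tau h hr hp.sm (hw w hw')).1)
        (fun w hw' => by
          have hw2 := hw w (ball_subset_closedBall hw')
          rw [(pl_tau h hr hp.sm hw2).2]
          exact mul_nonneg (by norm_num)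
            (div_nonneg (hp.psh _ (tau_mem h hr hw2).1) (jac_nonneg _ _)))
      linarith)
    (fun z hz => by
      rw [← hav z hz]
      rw [mem_ball_zero_iff] at hz
      have := rho_tau_ge h hr (ζ := z) (y := y) (by linarith)
      exact av_sb_nonneg h hr hp hδ (by linarith))
  have hq : 2 * (ρ / 4) / (ρ ^ 2 / r) = r / (2 * ρ) := by
    field_simp
    ring
  rw [hq] at hc
  calc ENNReal.ofReal (1 / 48)
      ≤ ENNReal.ofReal (Real.log (r / ρ) / 4 / (12 * Real.log (r / (2 * ρ)))) := by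
        apply ENNReal.ofReal_le_ofReal
        rw [div_le_div_iff₀ (by norm_num) (by positivity)]
        linarith
    _ ≤ _ := hc
    _ = _ := setLIntegral_congr_fun measurableSet_ball fun z hz => by rw [hav z hz]

end Pool.Agent.Lib.MP_a47f92_an.Dc
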