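import Pool.Agent.Lib.MP_a47f92_an.Dc.Def

set_option autoImplicit false
set_option linter.unusedSectionVars false

namespace Pool.Agent.Lib.MP_a47f92_an.Dc

open MeasureTheory Filter Topology Set Complex Metric Function
open scoped ContDiff ComplexConjugate ENNReal NNReal

variable {c : ℂ} {σ : ℝ}

theorem Mean_le {α : Type} [MeasurableSpace α] {μ : Measure α} {f : α → ℝ} (h : 0 ≤ᵐ[μ] f) :
    ENNReal.ofReal (∫ x, f x ∂μ) ≤ ∫⁻ x, ENNReal.ofReal (f x) ∂μ := by
  by_cases hf : Integrable f μ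
  · exact (ofReal_integral_eq_lintegral_ofReal hf h).le
  · rw [integral_undef hf, ENNReal.ofReal_zero]
    exact bot_le

theorem Mean_polar (c : ℂ) (p : ℝ × ℝ) :
    c + Complex.polarCoord.symm p = circleMap c p.1 p.2 := by
  rw [Complex.polarCoord_symm_apply, circleMap, exp_mul_I, ofReal_cos, ofReal_sin]

theorem Mean_mem {r : ℝ} (hr : r ∈ Ioo 0 σ) (θ : ℝ) : circleMap c r θ ∈ ball c σ := by
  rw [mem_ball, dist_eq_norm, circleMap_sub_center, norm_circleMap_zero, abs_of_pos hr.1]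
  exact hr.2

theorem Mean_avg (u : ℂ → ℝ) (c : ℂ) (r : ℝ) :
    ∫ θ in Ioo (-Real.pi) Real.pi, u (circleMap c r θ) =
      2 * Real.pi * Real.circleAverage u c r := by
  have hπ := Real.pi_pos
  rw [Real.circleAverage_eq_integral_add (-Real.pi),
    intervalIntegral.integral_comp_add_right (fun θ => u (circleMap c r θ)), zero_add,
    show 2 * Real.pi + -Real.pi = Real.pi by ring,
    intervalIntegral.integral_of_le (by linarith), integral_Ioc_eq_integral_Ioo, smul_eq_mul]
  field_simp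

/-- Polar coordinates (`Complex.lintegral_comp_polarCoord_symm`, translation invariance,
`ofReal_integral_eq_lintegral_ofReal`, `Real.circleAverage_eq_integral_add`). -/
theorem area_submean {u : ℂ → ℝ} (hσ : 0 < σ) (hu : ContinuousOn u (ball c σ))
    (h0 : ∀ z ∈ ball c σ, 0 ≤ u z)
    (hm : ∀ δ, 0 < δ → δ < σ → u c ≤ Real.circleAverage u c δ) :
    ENNReal.ofReal (Real.pi * σ ^ 2 * u c) ≤ ∫⁻ z in ball c σ, ENNReal.ofReal (u z) := by
  have hS : MeasurableSet (Ioo (0 : ℝ) σ ×ˢ Ioo (-Real.pi) Real.pi) :=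
    measurableSet_Ioo.prod measurableSet_Ioo
  have hc : ContinuousOn (fun p : ℝ × ℝ => ENNReal.ofReal (p.1 * u (circleMap c p.1 p.2)))
      (Ioo (0 : ℝ) σ ×ˢ Ioo (-Real.pi) Real.pi) := by
    refine ENNReal.continuous_ofReal.comp_continuousOn (continuousOn_fst.mul ?_)
    refine hu.comp (Continuous.continuousOn ?_) fun p hp => Mean_mem hp.1 _
    unfold circleMap
    fun_prop
  have e1 : Real.pi * σ ^ 2 * u c = ∫ r in Ioo (0 : ℝ) σ, r * (2 * Real.pi * u c) := by
    rw [← integral_Ioc_eq_integral_Ioo, ← intervalIntegral.integral_of_le hσ.le,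
      intervalIntegral.integral_mul_const, integral_id]
    ring
  have huc := h0 c (mem_ball_self hσ)
  have hπ := Real.pi_pos
  calc ENNReal.ofReal (Real.pi * σ ^ 2 * u c)
      ≤ ∫⁻ r in Ioo (0 : ℝ) σ, ENNReal.ofReal (r * (2 * Real.pi * u c)) := by
        rw [e1]
        refine Mean_le (ae_restrict_of_forall_mem measurableSet_Ioo fun r hr => ?_)
        have := hr.1
        positivity
    _ ≤ ∫⁻ r in Ioo (0 : ℝ) σ, ∫⁻ θ in Ioo (-Real.pi) Real.pi,
          ENNReal.ofReal (r * u (circleMap c r θ)) := by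
        refine setLIntegral_mono' measurableSet_Ioo fun r hr => ?_
        refine le_trans (ENNReal.ofReal_le_ofReal ?_)
          (Mean_le (Eventually.of_forall fun θ => mul_nonneg hr.1.le (h0 _ (Mean_mem hr θ))))
        rw [integral_const_mul, Mean_avg]
        have := hm r hr.1 hr.2
        have := hr.1
        gcongr
    _ = ∫⁻ p in Ioo (0 : ℝ) σ ×ˢ Ioo (-Real.pi) Real.pi,
          ENNReal.ofReal (p.1 * u (circleMap c p.1 p.2)) :=
        (setLIntegral_prod _ (hc.aemeasurable hS)).symm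
    _ = ∫⁻ p in Ioo (0 : ℝ) σ ×ˢ Ioo (-Real.pi) Real.pi, ENNReal.ofReal p.1 •
          (ball c σ).indicator (fun z => ENNReal.ofReal (u z)) (c + Complex.polarCoord.symm p) := by
        refine setLIntegral_congr_fun hS fun p hp => ?_
        rw [Mean_polar, indicator_of_mem (Mean_mem hp.1 _), smul_eq_mul,
          ENNReal.ofReal_mul hp.1.1.le]
    _ ≤ ∫⁻ p in polarCoord.target, ENNReal.ofReal p.1 •
          (ball c σ).indicator (fun z => ENNReal.ofReal (u z)) (c + Complex.polarCoord.symm p) :=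
        lintegral_mono_set (prod_mono Ioo_subset_Ioi_self Subset.rfl)
    _ = ∫⁻ z, (ball c σ).indicator (fun z => ENNReal.ofReal (u z)) (c + z) :=
        Complex.lintegral_comp_polarCoord_symm
          fun z => (ball c σ).indicator (fun z => ENNReal.ofReal (u z)) (c + z)
    _ = _ := by
        rw [lintegral_add_left_eq_self, lintegral_indicator measurableSet_ball]

/-- `DiffContOnCl.circleAverage` gives `m = ‖G c‖ ≤ avg ‖G‖`, and `2 m x - m ^ 2 ≤ x ^ 2`. -/
theorem area_normSq {F : Type} [NormedAddCommGroup F] [NormedSpace ℂ F] [CompleteSpace F]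
    {G : ℂ → F} (hσ : 0 < σ) (hG : DifferentiableOn ℂ G (ball c σ)) :
    ENNReal.ofReal (Real.pi * σ ^ 2 * ‖G c‖ ^ 2) ≤
      ∫⁻ z in ball c σ, ENNReal.ofReal (‖G z‖ ^ 2) := by
  refine area_submean (u := fun z => ‖G z‖ ^ 2) hσ (hG.continuousOn.norm.pow 2)
    (fun z _ => by positivity) fun δ h1 h2 => ?_
  have hsub : closedBall c |δ| ⊆ ball c σ := by
    rw [abs_of_pos h1]
    exact closedBall_subset_ball h2
  have hc : ContinuousOn G (sphere c |δ|) :=
    hG.continuousOn.mono (sphere_subset_closedBall.trans hsub)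
  have hd : DiffContOnCl ℂ G (ball c |δ|) :=
    (hG.mono (closure_ball_subset_closedBall.trans hsub)).diffContOnCl
  have hπ := Real.pi_pos
  have h3 : ‖G c‖ ≤ Real.circleAverage (fun z => ‖G z‖) c δ := by
    rw [← hd.circleAverage, Real.circleAverage_def, Real.circleAverage_def, norm_smul, smul_eq_mul,
      Real.norm_of_nonneg (by positivity)]
    gcongr
    exact intervalIntegral.norm_integral_le_integral_norm (by positivity)
  have i1 : CircleIntegrable (fun z => ‖G z‖) c δ := hc.norm.circleIntegrable'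
  have i2 : CircleIntegrable (fun z => ‖G z‖ ^ 2) c δ := (hc.norm.pow 2).circleIntegrable'
  have i3 : CircleIntegrable (fun z => (2 * ‖G c‖) • ‖G z‖) c δ :=
    (hc.norm.const_smul (2 * ‖G c‖)).circleIntegrable'
  have i4 : CircleIntegrable (fun _ => ‖G c‖ ^ 2) c δ := circleIntegrable_const _ _ _
  have h4 := Real.circleAverage_mono (i3.sub i4) i2 fun z _ => by
    simp only [Pi.sub_apply, smul_eq_mul]
    nlinarith [sq_nonneg (‖G z‖ - ‖G c‖)]
  rw [Real.circleAverage_sub i3 i4, Real.circleAverage_fun_smul, Real.circleAverage_const,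
    smul_eq_mul] at h4
  nlinarith [norm_nonneg (G c)]

/-- `area_normSq` for `deriv g` on the discs of radius `R / 4` gives `‖deriv g z‖ ≤ 4 √ε₀ / R` for
`‖z‖ ≤ 3 R / 4`; mean value inequality; `ε₀ = η ^ 2 / 9`. -/
theorem flat_disp {η : ℝ} (hη : 0 < η) : ∃ ε₀ : ℝ, 0 < ε₀ ∧ ∀ (N : ℕ) (R : ℝ) (g : ℂ → E N),
    0 < R → DifferentiableOn ℂ g (ball 0 R) →
    ∫⁻ z in ball (0 : ℂ) R, ENNReal.ofReal (‖deriv g z‖ ^ 2) ≤ ENNReal.ofReal ε₀ →
    ∀ ζ : ℂ, ‖ζ‖ ≤ 3 * R / 4 → ‖g ζ - g 0‖ ≤ η := by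
  refine ⟨η ^ 2 / 9, by positivity, fun N R g hR hg hI ζ hζ => ?_⟩
  have hd : DifferentiableOn ℂ (deriv g) (ball 0 R) := hg.deriv isOpen_ball
  have h1 : ∀ z ∈ closedBall (0 : ℂ) (3 * R / 4), ‖deriv g z‖ ≤ 4 * η / (3 * R) := fun z hz => by
    have hsub : ball z (R / 4) ⊆ ball 0 R := ball_subset_ball' (by
      have := mem_closedBall.1 hz
      linarith)
    have h2 := ((area_normSq (by positivity) (hd.mono hsub)).trans
      (lintegral_mono_set hsub)).trans hI
    rw [ENNReal.ofReal_le_ofReal_iff (by positivity)] at h2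
    have h3 : (R / 4) ^ 2 * ‖deriv g z‖ ^ 2 ≤ η ^ 2 / 9 := by
      have h4 : 0 ≤ (R / 4) ^ 2 * ‖deriv g z‖ ^ 2 := by positivity
      nlinarith [Real.pi_gt_three]
    rw [le_div_iff₀ (by positivity)]
    refine (pow_le_pow_iff_left₀ (by positivity) (by positivity) two_ne_zero).1 ?_
    nlinarith
  have h2 := (convex_closedBall (0 : ℂ) (3 * R / 4)).norm_image_sub_le_of_norm_deriv_le
    (fun z hz => hg.differentiableAt (isOpen_ball.mem_nhds
      (closedBall_subset_ball (by linarith) hz))) h1 (mem_closedBall_self (by positivity))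
    (mem_closedBall_zero_iff.2 hζ)
  rw [sub_zero] at h2
  refine h2.trans ?_
  calc 4 * η / (3 * R) * ‖ζ‖ ≤ 4 * η / (3 * R) * (3 * R / 4) := by gcongr
    _ = η := by field_simp

end Pool.Agent.Lib.MP_a47f92_an.Dc
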