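import Pool.Agent.Lib.MP_a47f92_an.Dc.En
import Pool.Agent.Lib.MP_a47f92_an.Dc.Mean

set_option autoImplicit false
set_option linter.unusedSectionVars false

namespace Pool.Agent.Lib.MP_a47f92_an.Dc

open MeasureTheory Filter Topology Set Complex Metric Function
open scoped ContDiff ComplexConjugate ENNReal NNReal

variable {N : ℕ} {f : ℂ → E N} {c : ℂ} {σ : ℝ}

theorem ERa_val (a x : E N) : inner ℂ x a * inner ℂ a x / inner ℂ x x =
    ((‖inner ℂ a x‖ ^ 2 / ‖x‖ ^ 2 : ℝ) : ℂ) := by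
  rw [← inner_conj_symm x a, Complex.conj_mul', inner_self_eq_norm_sq_to_K]
  push_cast
  rfl

theorem ERa_deriv {F : ℝ → E N} {F' a : E N} {t M : ℝ} (ha : ‖a‖ = 1) (hF : HasDerivAt F F' t)
    (h0 : F t ≠ 0) (hM : 0 ≤ M) (hen : en (F t) F' ≤ M ^ 2) :
    ∃ d : ℂ, HasDerivAt (fun s => inner ℂ (F s) a * inner ℂ a (F s) / inner ℂ (F s) (F s)) d t ∧
      ‖d‖ ≤ 2 * M := by
  obtain ⟨μ, w, e, hw, hn⟩ := exists_orth h0 F'
  have hq : inner ℂ (F t) (F t) ≠ 0 := inner_self_ne_zero.2 h0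
  have h1 := ((hF.inner ℂ (hasDerivAt_const t a)).mul ((hasDerivAt_const t a).inner ℂ hF)).div
    (hF.inner ℂ hF) hq
  have hw' : inner ℂ w (F t) = 0 := by rw [← inner_conj_symm, hw, map_zero]
  refine ⟨(inner ℂ w a * inner ℂ a (F t) + inner ℂ (F t) a * inner ℂ a w) / inner ℂ (F t) (F t),
    ?_, ?_⟩
  · refine h1.congr_deriv ?_
    simp only [e, inner_add_left, inner_add_right, inner_smul_left, inner_smul_right, hw, hw',
      inner_zero_left, inner_zero_right, Pi.mul_apply]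
    field_simp
    ring
  · have hp : 0 < ‖F t‖ := norm_pos_iff.2 h0
    have h2 : ‖w‖ ≤ M * ‖F t‖ := by
      refine le_of_sq_le_sq ?_ (by positivity)
      rw [hn, mul_pow]
      exact mul_le_mul_of_nonneg_right hen (sq_nonneg _)
    have h3 : ∀ x : E N, ‖inner ℂ a x‖ ≤ ‖x‖ := fun x => by
      simpa [ha] using norm_inner_le_norm (𝕜 := ℂ) a x
    have h4 : ∀ x : E N, ‖inner ℂ x a‖ ≤ ‖x‖ := fun x => by
      simpa [ha] using norm_inner_le_norm (𝕜 := ℂ) x a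
    have h5 : ‖inner ℂ (F t) (F t)‖ = ‖F t‖ ^ 2 := by
      rw [inner_self_eq_norm_sq_to_K]
      simp
    rw [norm_div, h5, div_le_iff₀ (by positivity)]
    refine (norm_add_le _ _).trans ?_
    rw [norm_mul, norm_mul]
    have h6 := mul_le_mul ((h4 w).trans h2) (h3 (F t)) (norm_nonneg _) (by positivity)
    have h7 := mul_le_mul (h4 (F t)) ((h3 w).trans h2) (norm_nonneg _) hp.le
    nlinarith

theorem ERa_en_le {g v : E N} (hg : 1 ≤ ‖g‖) : en g v ≤ ‖v‖ ^ 2 := by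
  have h1 : 1 ≤ ‖g‖ ^ 2 := one_le_pow₀ hg
  rw [en, div_le_iff₀ (by positivity)]
  have h2 : ‖g‖ ^ 2 * ‖v‖ ^ 2 ≤ ‖v‖ ^ 2 * ‖g‖ ^ 4 := by
    have := mul_le_mul_of_nonneg_left h1 (show 0 ≤ ‖g‖ ^ 2 * ‖v‖ ^ 2 by positivity)
    nlinarith
  nlinarith [sq_nonneg ‖inner ℂ g v‖]

/-- With `a = un (f c)`, `l = inner a f`, the function `θ = 1 - ‖l‖ ^ 2 / ‖f‖ ^ 2` vanishes at `c`;
if `f' = μ f + w` (`exists_orth`) its real derivative in the direction `v` is
`-2 re (conj l * inner a w * v) / ‖f‖ ^ 2`, of size at most `2 m ‖v‖`. Mean value inequality along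
the segment `t ↦ c + t (z - c)`. -/
theorem theta_le {m : ℝ} (hf : DifferentiableOn ℂ f (ball c σ)) (h0 : ∀ z ∈ ball c σ, f z ≠ 0)
    (hm : 0 ≤ m) (hs : ∀ z ∈ ball c σ, en (f z) (deriv f z) ≤ m ^ 2) {z : ℂ} (hz : z ∈ ball c σ) :
    ‖f z‖ ^ 2 - ‖inner ℂ (un (f c)) (f z)‖ ^ 2 ≤ 2 * m * ‖z - c‖ * ‖f z‖ ^ 2 := by
  have hzc : ‖z - c‖ < σ := by rwa [mem_ball, dist_eq_norm] at hz
  have hc : c ∈ ball c σ := mem_ball_self ((norm_nonneg _).trans_lt hzc)
  have ha : ‖un (f c)‖ = 1 := norm_un (h0 c hc)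
  have key : ∀ t ∈ Icc (0 : ℝ) 1, ∃ d : ℂ, HasDerivAt (fun s : ℝ =>
      inner ℂ (f (c + s * (z - c))) (un (f c)) * inner ℂ (un (f c)) (f (c + s * (z - c))) /
        inner ℂ (f (c + s * (z - c))) (f (c + s * (z - c)))) d t ∧ ‖d‖ ≤ 2 * (m * ‖z - c‖) := by
    intro t ht
    have hmem : c + t * (z - c) ∈ ball c σ := by
      rw [mem_ball, dist_eq_norm, add_sub_cancel_left, norm_mul, Complex.norm_real,
        Real.norm_of_nonneg ht.1]
      exact (mul_le_of_le_one_left (norm_nonneg _) ht.2).trans_lt hzc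
    have h1 : HasDerivAt (fun s : ℝ => c + s * (z - c)) (z - c) t := by
      simpa using ((hasDerivAt_id t).ofReal_comp.mul_const (z - c)).const_add c
    have h2 := (hf.differentiableAt (isOpen_ball.mem_nhds hmem)).hasDerivAt.scomp t h1
    refine ERa_deriv (F := fun s : ℝ => f (c + s * (z - c))) ha h2 (h0 _ hmem) (by positivity) ?_
    rw [en_smul, mul_pow, mul_comm]
    exact mul_le_mul_of_nonneg_right (hs _ hmem) (sq_nonneg _)
  choose! d hd hd' using key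
  have h3 := norm_image_sub_le_of_norm_deriv_le_segment_01'
    (fun t ht => (hd t ht).hasDerivWithinAt) fun t ht => hd' t (Ico_subset_Icc_self ht)
  simp only [ERa_val, Complex.ofReal_one, Complex.ofReal_zero, one_mul, zero_mul, add_zero,
    add_sub_cancel] at h3
  have hp : 0 < ‖f c‖ := norm_pos_iff.2 (h0 c hc)
  have hp' : 0 < ‖f z‖ := norm_pos_iff.2 (h0 z hz)
  have h4 : ‖inner ℂ (un (f c)) (f c)‖ = ‖f c‖ := by
    rw [un, RCLike.real_smul_eq_coe_smul (K := ℂ), inner_smul_left, inner_self_eq_norm_sq_to_K]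
    simp only [norm_mul, RCLike.norm_conj, RCLike.norm_ofReal, norm_pow, abs_inv, abs_norm]
    field_simp
  rw [h4, div_self (by positivity), ← Complex.ofReal_sub, Complex.norm_real, Real.norm_eq_abs,
    abs_le] at h3
  have h5 : 1 - 2 * (m * ‖z - c‖) ≤ ‖inner ℂ (un (f c)) (f z)‖ ^ 2 / ‖f z‖ ^ 2 := by
    linarith [h3.1]
  rw [le_div_iff₀ (by positivity)] at h5
  linarith

/-- By `theta_le`, `‖l‖ ^ 2 ≥ 3 / 4 ‖f‖ ^ 2`. For `g = l⁻¹ • f`: `inner a g = 1`, `inner a g' = 0`,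
`g c = a`, `‖g‖ ^ 2 ≤ 4 / 3`, `en f f' = en g g'` (`en_deriv_smul`), `en (g c) (g' c) = ‖g' c‖ ^ 2`,
`‖g'‖ ^ 2 ≤ 16 / 9 en g g'` (`en_chart`); apply `area_normSq` to `g'`. -/
theorem en_centre (hσ : 0 < σ) (hf : DifferentiableOn ℂ f (ball c σ))
    (h0 : ∀ z ∈ ball c σ, f z ≠ 0)
    (hs : ∀ z ∈ ball c σ, en (f z) (deriv f z) ≤ (1 / (8 * σ)) ^ 2) :
    ENNReal.ofReal (Real.pi * σ ^ 2 * en (f c) (deriv f c)) ≤
      2 * ∫⁻ z in ball c σ, ENNReal.ofReal (en (f z) (deriv f z)) := by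
  have hc : c ∈ ball c σ := mem_ball_self hσ
  have ha : ‖un (f c)‖ = 1 := norm_un (h0 c hc)
  have hl : ∀ z ∈ ball c σ, 3 / 4 * ‖f z‖ ^ 2 ≤ ‖inner ℂ (un (f c)) (f z)‖ ^ 2 := fun z hz => by
    have h1 := theta_le hf h0 (by positivity) hs hz
    have hzc : ‖z - c‖ < σ := by rwa [mem_ball, dist_eq_norm] at hz
    have h2 : 2 * (1 / (8 * σ)) * ‖z - c‖ ≤ 1 / 4 := by
      have : 2 * (1 / (8 * σ)) * σ = 1 / 4 := by
        field_simp
        norm_num
      rw [← this]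
      exact mul_le_mul_of_nonneg_left hzc.le (by positivity)
    have h3 := mul_le_mul_of_nonneg_right h2 (sq_nonneg ‖f z‖)
    linarith
  generalize un (f c) = a at ha hl
  have hl0 : ∀ z ∈ ball c σ, inner ℂ a (f z) ≠ 0 := fun z hz h => by
    have h1 := hl z hz
    have hp : 0 < ‖f z‖ := norm_pos_iff.2 (h0 z hz)
    rw [h, norm_zero] at h1
    nlinarith
  have hld : DifferentiableOn ℂ (fun z => (inner ℂ a (f z))⁻¹) (ball c σ) :=
    ((innerSL ℂ a).differentiable.comp_differentiableOn hf).inv hl0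
  obtain ⟨g, hg⟩ : ∃ g : ℂ → E N, g = fun z => (inner ℂ a (f z))⁻¹ • f z := ⟨_, rfl⟩
  have hgd : DifferentiableOn ℂ g (ball c σ) := hg ▸ hld.smul hf
  have h1 : ∀ z ∈ ball c σ, inner ℂ a (g z) = 1 := fun z hz => by
    rw [hg, inner_smul_right, inv_mul_cancel₀ (hl0 z hz)]
  have h2 : ∀ z ∈ ball c σ, inner ℂ a (deriv g z) = 0 := fun z hz => by
    have h3 := (innerSL ℂ a).hasFDerivAt.comp_hasDerivAt z
      (hgd.differentiableAt (isOpen_ball.mem_nhds hz)).hasDerivAt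
    refine h3.unique ((hasDerivAt_const z (1 : ℂ)).congr_of_eventuallyEq ?_)
    filter_upwards [isOpen_ball.mem_nhds hz] with w hw using h1 w hw
  have h3 : ∀ z ∈ ball c σ, en (g z) (deriv g z) = en (f z) (deriv f z) := fun z hz => by
    have h4 := en_deriv_smul (l := fun z => (inner ℂ a (f z))⁻¹)
      (hf.differentiableAt (isOpen_ball.mem_nhds hz))
      (hld.differentiableAt (isOpen_ball.mem_nhds hz)) (inv_ne_zero (hl0 z hz))
    rw [hg]
    exact h4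
  have h4 : ∀ z ∈ ball c σ, ‖g z‖ ^ 2 ≤ 4 / 3 := fun z hz => by
    have hp : 0 < ‖inner ℂ a (f z)‖ := norm_pos_iff.2 (hl0 z hz)
    rw [hg]
    simp only [norm_smul, norm_inv, mul_pow, inv_pow]
    rw [inv_mul_le_iff₀ (by positivity)]
    linarith [hl z hz]
  have h5 : ∀ z ∈ ball c σ, ‖deriv g z‖ ^ 2 ≤ 2 * en (f z) (deriv f z) := fun z hz => by
    have h6 := en_chart ha (h1 z hz) (h2 z hz)
    have h7 : ‖g z‖ ^ 4 ≤ 2 := by nlinarith [h4 z hz, sq_nonneg ‖g z‖]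
    have h8 := mul_le_mul_of_nonneg_left h7 (en_nonneg (g z) (deriv g z))
    rw [← h3 z hz]
    linarith
  have h6 : en (f c) (deriv f c) ≤ ‖deriv g c‖ ^ 2 := by
    rw [← h3 c hc]
    refine ERa_en_le ?_
    simpa [ha, h1 c hc] using norm_inner_le_norm (𝕜 := ℂ) a (g c)
  refine (ENNReal.ofReal_le_ofReal (mul_le_mul_of_nonneg_left h6 (by positivity))).trans
    ((area_normSq hσ (hgd.deriv isOpen_ball)).trans ?_)
  rw [← lintegral_const_mul' _ _ (by simp)]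
  refine setLIntegral_mono' measurableSet_ball fun z hz => ?_
  refine (ENNReal.ofReal_le_ofReal (h5 z hz)).trans (le_of_eq ?_)
  rw [ENNReal.ofReal_mul (by norm_num)]
  simp

end Pool.Agent.Lib.MP_a47f92_an.Dc
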