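import Pool.Agent.Lib.MP_a47f92_an.Dc.ERa

set_option autoImplicit false
set_option linter.unusedSectionVars false

namespace Pool.Agent.Lib.MP_a47f92_an.Dc

open MeasureTheory Filter Topology Set Complex Metric Function
open scoped ContDiff ComplexConjugate ENNReal NNReal

theorem ERb_step {N : ℕ} {f : ℂ → E N} {R ε₀ : ℝ} (hf : DifferentiableOn ℂ f (ball 0 R))
    (h0 : ∀ z ∈ ball (0 : ℂ) R, f z ≠ 0) (h1 : 0 ≤ ε₀) (h2 : ε₀ ≤ 1 / 200)
    (hE : ∫⁻ z in ball (0 : ℂ) R, ENNReal.ofReal (en (f z) (deriv f z)) ≤ ENNReal.ofReal ε₀)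
    {R' : ℝ} (hR : R' < R) {z : ℂ} (hz : z ∈ closedBall (0 : ℂ) R') :
    (R' - ‖z‖) ^ 2 * en (f z) (deriv f z) ≤ 3 * ε₀ := by
  have hsub : closedBall (0 : ℂ) R' ⊆ ball 0 R := closedBall_subset_ball hR
  have hc : ContinuousOn (fun w : ℂ => (R' - ‖w‖) ^ 2 * en (f w) (deriv f w))
      (closedBall 0 R') :=
    (by fun_prop : Continuous fun w : ℂ => (R' - ‖w‖) ^ 2).continuousOn.mul
      ((continuousOn_en isOpen_ball hf h0).mono hsub)
  obtain ⟨c, hcm, hmax⟩ := (isCompact_closedBall (0 : ℂ) R').exists_isMaxOn ⟨z, hz⟩ hc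
  refine (isMaxOn_iff.1 hmax z hz).trans ?_
  by_contra hlt
  rw [not_le] at hlt
  obtain ⟨d, hd⟩ : ∃ d, d = R' - ‖c‖ := ⟨_, rfl⟩
  obtain ⟨m, hm0, hm⟩ : ∃ m : ℝ, 0 ≤ m ∧ en (f c) (deriv f c) = m ^ 2 :=
    ⟨_, Real.sqrt_nonneg _, (Real.sq_sqrt (en_nonneg _ _)).symm⟩
  rw [← hd, hm] at hlt
  have hd0 : 0 ≤ d := by
    rw [hd, sub_nonneg]
    exact mem_closedBall_zero_iff.1 hcm
  have hdp : 0 < d := hd0.lt_of_ne fun e => by
    rw [← e] at hlt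
    nlinarith
  have hmp : 0 < m := hm0.lt_of_ne fun e => by
    rw [← e] at hlt
    nlinarith
  obtain ⟨σ, hσ, hσ1, hσ2, hσ3⟩ : ∃ σ : ℝ, 0 < σ ∧ σ ≤ d / 2 ∧ σ * m ≤ 1 / 16 ∧
      (σ = d / 2 ∨ σ * m = 1 / 16) := by
    have e : 1 / (16 * m) * m = 1 / 16 := by field_simp
    refine ⟨min (d / 2) (1 / (16 * m)), by positivity, min_le_left _ _,
      (mul_le_mul_of_nonneg_right (min_le_right _ _) hm0).trans e.le, ?_⟩
    rcases min_choice (d / 2) (1 / (16 * m)) with h | h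
    · exact Or.inl h
    · exact Or.inr (by rw [h, e])
  have hn : ∀ w ∈ ball c σ, d / 2 ≤ R' - ‖w‖ := fun w hw => by
    have h3 := mem_ball_iff_norm.1 hw
    have h4 := norm_le_norm_add_norm_sub' w c
    linarith
  have hb : ball c σ ⊆ closedBall 0 R' := fun w hw => mem_closedBall_zero_iff.2 (by
    have := hn w hw
    linarith)
  have hb' := hb.trans hsub
  have h3 := en_centre hσ (hf.mono hb') (fun w hw => h0 w (hb' hw)) fun w hw => by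
    have h4 := isMaxOn_iff.1 hmax w (hb hw)
    rw [← hd, hm] at h4
    have h5 : (d / 2) ^ 2 * en (f w) (deriv f w) ≤ d ^ 2 * m ^ 2 :=
      (mul_le_mul_of_nonneg_right (pow_le_pow_left₀ (by positivity) (hn w hw) 2)
        (en_nonneg _ _)).trans h4
    have h6 : en (f w) (deriv f w) ≤ (2 * m) ^ 2 := by
      refine le_of_mul_le_mul_left ?_ (show 0 < (d / 2) ^ 2 by positivity)
      linarith
    refine h6.trans (pow_le_pow_left₀ (by positivity) ?_ 2)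
    rw [le_div_iff₀ (by positivity)]
    linarith
  have h4 : ENNReal.ofReal (Real.pi * σ ^ 2 * m ^ 2) ≤ ENNReal.ofReal (2 * ε₀) := by
    rw [← hm, ENNReal.ofReal_mul zero_le_two, ENNReal.ofReal_ofNat]
    exact h3.trans (by gcongr; exact (lintegral_mono_set hb').trans hE)
  rw [ENNReal.ofReal_le_ofReal_iff (by positivity)] at h4
  have h5 : 3 * (σ * m) ^ 2 ≤ 2 * ε₀ := by
    refine le_trans ?_ h4
    rw [mul_assoc, ← mul_pow]
    exact mul_le_mul_of_nonneg_right Real.pi_gt_three.le (sq_nonneg _)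
  rcases hσ3 with e | e
  · rw [e] at h5
    nlinarith
  · rw [e] at h5
    linarith

/-- Point picking. For `R' < R` let `c` maximise `(R' - ‖z‖) ^ 2 * en` on `closedBall 0 R'`,
`m = √(en c) > 0`, `d = R' - ‖c‖ > 0`. On `ball c (d / 2)` the speed is at most `2 m`. Apply
`en_centre` with `σ = min (d / 2) (1 / (16 m))`: `π σ ^ 2 m ^ 2 ≤ 2 ε₀ ≤ 1 / 100` excludes the second
value, so `π d ^ 2 m ^ 2 ≤ 8 ε₀`. Let `R'` tend to `R`. -/
theorem heinz {N : ℕ} {f : ℂ → E N} {R ε₀ : ℝ} (hf : DifferentiableOn ℂ f (ball 0 R))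
    (h0 : ∀ z ∈ ball (0 : ℂ) R, f z ≠ 0) (h1 : 0 ≤ ε₀) (h2 : ε₀ ≤ 1 / 200)
    (hE : ∫⁻ z in ball (0 : ℂ) R, ENNReal.ofReal (en (f z) (deriv f z)) ≤ ENNReal.ofReal ε₀) :
    ∀ z ∈ ball (0 : ℂ) R, (R - ‖z‖) ^ 2 * en (f z) (deriv f z) ≤ 3 * ε₀ := by
  intro z hz
  have hc : Continuous fun x : ℝ => (x - ‖z‖) ^ 2 * en (f z) (deriv f z) := by fun_prop
  refine le_of_tendsto ((hc.tendsto R).mono_left (nhdsWithin_le_nhds (s := Iio R))) ?_
  filter_upwards [Ioo_mem_nhdsLT (mem_ball_zero_iff.1 hz)] with x hx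
  exact ERb_step hf h0 h1 h2 hE hx.2 (mem_closedBall_zero_iff.2 hx.1.le)

/-- On `ball 0 (7 R / 8)` the speed is at most `m = 8 √(3 ε₀) / R`; `theta_le` gives
`θ ≤ 12 √(3 ε₀) ≤ min (η ^ 2) (1 / 2)`; `cl_of_theta`. -/
theorem er_main {η : ℝ} (hη : 0 < η) : ∃ ε₀ : ℝ, 0 < ε₀ ∧ ∀ (N : ℕ) (R : ℝ) (f : ℂ → E N),
    0 < R → DifferentiableOn ℂ f (ball 0 R) → (∀ z ∈ ball (0 : ℂ) R, f z ≠ 0) →
    ∫⁻ z in ball (0 : ℂ) R, ENNReal.ofReal (en (f z) (deriv f z)) ≤ ENNReal.ofReal ε₀ →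
    ∀ ζ : ℂ, ‖ζ‖ ≤ 3 * R / 4 → Cl η (f ζ) (f 0) ∧
      ‖f ζ‖ ^ 2 ≤ 2 * ‖inner ℂ (un (f 0)) (f ζ)‖ ^ 2 := by
  obtain ⟨κ, hκ, hκ1, hκ2⟩ : ∃ κ : ℝ, 0 < κ ∧ κ ≤ η ^ 2 ∧ κ ≤ 1 / 2 :=
    ⟨min (η ^ 2) (1 / 2), by positivity, min_le_left _ _, min_le_right _ _⟩
  refine ⟨κ ^ 2 / 432, by positivity, fun N R f hR hf h0 hE ζ hζ => ?_⟩
  have h1 := heinz hf h0 (by positivity) (by nlinarith) hE
  have hb : ball (0 : ℂ) (7 * R / 8) ⊆ ball 0 R := ball_subset_ball (by linarith)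
  have hζ' : ζ ∈ ball (0 : ℂ) (7 * R / 8) := mem_ball_zero_iff.2 (by linarith)
  have h2 := theta_le (m := 2 * κ / (3 * R)) (hf.mono hb) (fun w hw => h0 w (hb hw))
    (by positivity) (fun w hw => by
      have h3 : R / 8 ≤ R - ‖w‖ := by
        have := mem_ball_zero_iff.1 hw
        linarith
      have h4 := (mul_le_mul_of_nonneg_right (pow_le_pow_left₀ (by positivity) h3 2)
        (en_nonneg (f w) (deriv f w))).trans (h1 w (hb hw))
      refine le_of_mul_le_mul_left (h4.trans_eq ?_) (show 0 < (R / 8) ^ 2 by positivity)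
      field_simp
      norm_num) hζ'
  have h3 : 2 * (2 * κ / (3 * R)) * ‖ζ - 0‖ ≤ κ := by
    rw [sub_zero]
    refine (mul_le_mul_of_nonneg_left hζ (by positivity)).trans_eq ?_
    field_simp
    norm_num
  have h4 := h2.trans (mul_le_mul_of_nonneg_right h3 (sq_nonneg _))
  have h5 := mul_le_mul_of_nonneg_right hκ1 (sq_nonneg ‖f ζ‖)
  have h6 := mul_le_mul_of_nonneg_right hκ2 (sq_nonneg ‖f ζ‖)
  exact ⟨cl_of_theta (h0 ζ (hb hζ')) (h0 0 (mem_ball_self hR)) hη.le (h4.trans h5), by linarith⟩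

end Pool.Agent.Lib.MP_a47f92_an.Dc
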