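import Pool.Agent.Lib.MP_a47f92_an.Dc.Def

set_option autoImplicit false
set_option linter.unusedSectionVars false

namespace Pool.Agent.Lib.MP_a47f92_an.Dc

open MeasureTheory Filter Topology Set Complex Metric Function
open scoped ContDiff ComplexConjugate ENNReal NNReal

variable {N : ℕ}

theorem En_pyth {a w : E N} (h : inner ℂ a w = 0) (μ : ℂ) :
    ‖μ • a + w‖ ^ 2 = ‖μ‖ ^ 2 * ‖a‖ ^ 2 + ‖w‖ ^ 2 := by
  have h1 : inner ℂ (μ • a) w = 0 := by rw [inner_smul_left, h, mul_zero]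
  have h2 := norm_add_sq_eq_norm_sq_add_norm_sq_of_inner_eq_zero _ _ h1
  rw [sq, h2, norm_smul]
  ring

theorem En_inner {a w : E N} (h : inner ℂ a w = 0) (μ : ℂ) :
    inner ℂ a (μ • a + w) = μ * (‖a‖ : ℂ) ^ 2 := by
  rw [inner_add_right, h, add_zero, inner_smul_right, inner_self_eq_norm_sq_to_K]
  rfl

theorem En_val {a w : E N} (ha : a ≠ 0) (h : inner ℂ a w = 0) (μ : ℂ) :
    en a (μ • a + w) = ‖w‖ ^ 2 / ‖a‖ ^ 2 := by
  have h0 : ‖a‖ ≠ 0 := norm_ne_zero_iff.2 ha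
  rw [en, En_pyth h, En_inner h, norm_mul, norm_pow, norm_real, norm_norm]
  field_simp
  ring

theorem En_dec {a : E N} (ha : a ≠ 0) (v : E N) :
    ∃ (μ : ℂ) (w : E N), v = μ • a + w ∧ inner ℂ a w = 0 := by
  have h0 : (‖a‖ : ℂ) ≠ 0 := ofReal_ne_zero.2 (norm_ne_zero_iff.2 ha)
  refine ⟨inner ℂ a v / (‖a‖ : ℂ) ^ 2, v - (inner ℂ a v / (‖a‖ : ℂ) ^ 2) • a, by abel, ?_⟩
  rw [inner_sub_right, inner_smul_right, inner_self_eq_norm_sq_to_K]
  exact sub_eq_zero.2 (div_mul_cancel₀ _ (pow_ne_zero 2 h0)).symm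

theorem En_cs (a v : E N) : ‖inner ℂ a v‖ ^ 2 ≤ ‖a‖ ^ 2 * ‖v‖ ^ 2 := by
  rw [← mul_pow]
  exact pow_le_pow_left₀ (norm_nonneg _) (norm_inner_le_norm a v) 2

theorem en_nonneg (a v : E N) : 0 ≤ en a v :=
  div_nonneg (sub_nonneg.2 (En_cs a v)) (by positivity)

theorem en_inv {c : ℂ} (hc : c ≠ 0) (d : ℂ) (a v : E N) : en (c • a) (c • v + d • a) = en a v := by
  by_cases ha : a = 0
  · simp [en, ha]
  obtain ⟨μ, w, rfl, h⟩ := En_dec ha v
  have h1 : c • (μ • a + w) + d • a = (μ + d / c) • c • a + c • w := by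
    rw [smul_smul, add_mul, div_mul_cancel₀ _ hc, smul_add, smul_smul, add_smul, mul_comm c μ]
    abel
  have h2 : inner ℂ (c • a) (c • w) = 0 := by
    rw [inner_smul_left, inner_smul_right, h, mul_zero, mul_zero]
  have h3 : ‖c‖ ≠ 0 := norm_ne_zero_iff.2 hc
  rw [h1, En_val (smul_ne_zero hc ha) h2, En_val ha h, norm_smul, norm_smul, mul_pow, mul_pow,
    mul_div_mul_left _ _ (pow_ne_zero 2 h3)]

theorem en_smul (c : ℂ) (a v : E N) : en a (c • v) = ‖c‖ ^ 2 * en a v := by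
  rw [en, en, norm_smul, inner_smul_right, norm_mul]
  ring

theorem en_eq_prj {a : E N} (ha : a ≠ 0) (v : E N) :
    en a v = ‖prj (un a) v‖ ^ 2 / ‖a‖ ^ 2 := by
  obtain ⟨μ, w, rfl, h⟩ := En_dec ha v
  have h0 : (‖a‖ : ℂ) ≠ 0 := ofReal_ne_zero.2 (norm_ne_zero_iff.2 ha)
  have h1 : un a = ((‖a‖ : ℂ)⁻¹) • a := by rw [un, ← ofReal_inv, Complex.coe_smul]
  have h2 : prj (un a) (μ • a + w) = w := by
    change μ • a + w - inner ℂ (un a) (μ • a + w) • un a = w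
    rw [h1, inner_smul_left, En_inner h, smul_smul, map_inv₀, conj_ofReal]
    have h3 : (‖a‖ : ℂ)⁻¹ * (μ * (‖a‖ : ℂ) ^ 2) * (‖a‖ : ℂ)⁻¹ = μ := by field_simp
    rw [h3]
    abel
  rw [En_val ha h, h2]

theorem norm_un {a : E N} (ha : a ≠ 0) : ‖un a‖ = 1 := by
  rw [un, norm_smul, norm_inv, norm_norm, inv_mul_cancel₀ (norm_ne_zero_iff.2 ha)]

/-- The component of `v` orthogonal to `a`. -/
theorem exists_orth {a : E N} (ha : a ≠ 0) (v : E N) : ∃ (μ : ℂ) (w : E N), v = μ • a + w ∧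
    inner ℂ a w = 0 ∧ ‖w‖ ^ 2 = en a v * ‖a‖ ^ 2 := by
  obtain ⟨μ, w, rfl, h⟩ := En_dec ha v
  refine ⟨μ, w, rfl, h, ?_⟩
  rw [En_val ha h, div_mul_cancel₀ _ (pow_ne_zero 2 (norm_ne_zero_iff.2 ha))]

/-- The affine chart: `g = a + w`, `w` and `v` orthogonal to the unit vector `a`. -/
theorem en_chart {a g v : E N} (ha : ‖a‖ = 1) (hg : inner ℂ a g = 1) (hv : inner ℂ a v = 0) :
    ‖v‖ ^ 2 ≤ en g v * ‖g‖ ^ 4 := by
  have ha0 : a ≠ 0 := norm_ne_zero_iff.1 (ha ▸ one_ne_zero)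
  obtain ⟨μ, w, rfl, h⟩ := En_dec ha0 g
  rw [En_inner h, ha] at hg
  have hμ : μ = 1 := by simpa using hg
  subst hμ
  have h1 := En_pyth h 1
  rw [ha, norm_one] at h1
  have h2 : ‖(1 : ℂ) • a + w‖ ^ 4 ≠ 0 := by
    rw [show 4 = 2 * 2 from rfl, pow_mul, h1]
    positivity
  rw [en, div_mul_cancel₀ _ h2, h1, inner_add_left, inner_smul_left, hv, mul_zero, zero_add]
  nlinarith [En_cs w v]

/-- `DifferentiableOn.deriv`. -/
theorem continuousOn_en {f : ℂ → E N} {O : Set ℂ} (hO : IsOpen O) (hf : DifferentiableOn ℂ f O)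
    (h0 : ∀ z ∈ O, f z ≠ 0) : ContinuousOn (fun z => en (f z) (deriv f z)) O := by
  have h1 := hf.continuousOn
  have h2 := (hf.deriv hO).continuousOn
  exact (((h1.norm.pow 2).mul (h2.norm.pow 2)).sub ((h1.inner (𝕜 := ℂ) h2).norm.pow 2)).div (h1.norm.pow 4)
    fun z hz => pow_ne_zero 4 (norm_ne_zero_iff.2 (h0 z hz))

/-- Multiplication by a holomorphic function without zeros. -/
theorem en_deriv_smul {f : ℂ → E N} {l : ℂ → ℂ} {z : ℂ} (hf : DifferentiableAt ℂ f z)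
    (hl : DifferentiableAt ℂ l z) (h0 : l z ≠ 0) :
    en (l z • f z) (deriv (fun w => l w • f w) z) = en (f z) (deriv f z) := by
  rw [(hl.hasDerivAt.fun_smul hf.hasDerivAt).deriv, en_inv h0]

/-- The identity of Lagrange. -/
theorem lagrange (a v : E N) : ∑ i, ∑ j, ‖a i * v j - a j * v i‖ ^ 2 =
    2 * (‖a‖ ^ 2 * ‖v‖ ^ 2 - ‖inner ℂ a v‖ ^ 2) := by
  have h1 : ∀ z : ℂ, ((‖z‖ ^ 2 : ℝ) : ℂ) = z * conj z := fun z => by
    rw [mul_conj']
    push_cast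
    rfl
  apply ofReal_injective
  rw [EuclideanSpace.norm_sq_eq, EuclideanSpace.norm_sq_eq, ofReal_mul, ofReal_sub, ofReal_mul, h1,
    PiLp.inner_apply]
  simp only [ofReal_sum, h1, map_sum, RCLike.inner_apply, map_mul, map_sub, conj_conj,
    Finset.sum_mul_sum, ofReal_ofNat]
  have h2 : ∑ i, ∑ j, a i * conj (a i) * (v j * conj (v j)) =
      ∑ i, ∑ j, a j * conj (a j) * (v i * conj (v i)) := Finset.sum_comm
  have h3 : ∑ i, ∑ j, v i * conj (a i) * (conj (v j) * a j) =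
      ∑ i, ∑ j, v j * conj (a j) * (conj (v i) * a i) := Finset.sum_comm
  rw [two_mul]
  nth_rw 1 [h2, h3]
  simp only [← Finset.sum_sub_distrib, ← Finset.sum_add_distrib]
  exact Finset.sum_congr rfl fun i _ => Finset.sum_congr rfl fun j _ => by ring

/-- Take `c = inner a (un b) / ‖a‖ ^ 2`. -/
theorem cl_of_theta {a b : E N} (ha : a ≠ 0) (hb : b ≠ 0) {ε : ℝ} (hε : 0 ≤ ε)
    (h : ‖a‖ ^ 2 - ‖inner ℂ (un b) a‖ ^ 2 ≤ ε ^ 2 * ‖a‖ ^ 2) : Cl ε a b := by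
  obtain ⟨μ, w, h1, -, h2⟩ := exists_orth ha (un b)
  have h0 : 0 < ‖a‖ := norm_pos_iff.2 ha
  refine ⟨μ, ?_⟩
  have h3 : μ • a - un b = -w := by
    rw [h1]
    abel
  rw [h3, norm_neg]
  refine (pow_le_pow_iff_left₀ (norm_nonneg _) hε two_ne_zero).1 ?_
  rw [h2, en, norm_un hb, norm_inner_symm, one_pow, mul_one, div_mul_eq_mul_div,
    div_le_iff₀ (by positivity)]
  calc _ ≤ ε ^ 2 * ‖a‖ ^ 2 * ‖a‖ ^ 2 := mul_le_mul_of_nonneg_right h (by positivity)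
    _ = _ := by ring

end Pool.Agent.Lib.MP_a47f92_an.Dc
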