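import Pool.Agent.Lib.MP_a47f92_an.Dc.En
import Pool.Agent.Lib.MP_a47f92_an.Dc.Mean

set_option autoImplicit false
set_option linter.unusedSectionVars false

namespace Pool.Agent.Lib.MP_a47f92_an.Dc

open MeasureTheory Filter Topology Set Complex Metric Function
open scoped ContDiff ComplexConjugate ENNReal NNReal

/-- The wedge of two vectors, multiplied by a constant. -/
noncomputable def Spd_w {N : ℕ} (k : ℝ) (a v : E N) : EuclideanSpace ℂ (Fin N × Fin N) :=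
  WithLp.toLp 2 fun p => (k : ℂ) * (a p.1 * v p.2 - a p.2 * v p.1)

theorem Spd_norm {N : ℕ} (k : ℝ) {a : E N} (ha : a ≠ 0) (v : E N) :
    ‖Spd_w k a v‖ ^ 2 = 2 * k ^ 2 * ‖a‖ ^ 4 * en a v := by
  have h1 : ‖a‖ ≠ 0 := norm_ne_zero_iff.2 ha
  rw [EuclideanSpace.norm_sq_eq, Fintype.sum_prod_type]
  simp only [Spd_w, norm_mul, mul_pow, ← Finset.mul_sum, Complex.norm_real, Real.norm_eq_abs,
    sq_abs]
  rw [lagrange, en]
  field_simp

theorem Spd_core {N : ℕ} {g : ℂ → E N} {ρ C₀ : ℝ} (hρ : 0 < ρ)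
    (hg : DifferentiableOn ℂ g (ball 0 ρ))
    (h1 : ∀ z ∈ ball (0 : ℂ) ρ, Real.exp (-C₀) ≤ ‖g z‖)
    (h2 : ∀ z ∈ ball (0 : ℂ) ρ, ‖g z‖ ≤ Real.exp C₀) :
    ENNReal.ofReal (Real.pi * ρ ^ 2 * Real.exp (-8 * C₀) * en (g 0) (deriv g 0)) ≤
      ∫⁻ z in ball (0 : ℂ) ρ, ENNReal.ofReal (en (g z) (deriv g z)) := by
  obtain ⟨k, hk⟩ : ∃ k : ℝ, 2 * k ^ 2 = Real.exp (-C₀) ^ 4 :=
    ⟨√(Real.exp (-C₀) ^ 4 / 2), by rw [Real.sq_sqrt (by positivity)]; ring⟩
  have h0 : ∀ z ∈ ball (0 : ℂ) ρ, g z ≠ 0 := fun z hz =>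
    norm_pos_iff.1 ((Real.exp_pos _).trans_le (h1 z hz))
  have hg' : DifferentiableOn ℂ (deriv g) (ball 0 ρ) := hg.deriv isOpen_ball
  have hW : DifferentiableOn ℂ (fun z => Spd_w k (g z) (deriv g z)) (ball 0 ρ) := by
    rw [differentiableOn_euclidean]
    intro p
    have a := differentiableOn_euclidean.1 hg
    have b := differentiableOn_euclidean.1 hg'
    exact (((a p.1).mul (b p.2)).sub ((a p.2).mul (b p.1))).const_mul (k : ℂ)
  refine le_trans (ENNReal.ofReal_le_ofReal ?_) ((area_normSq hρ hW).trans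
    (setLIntegral_mono' measurableSet_ball fun z hz => ENNReal.ofReal_le_ofReal ?_))
  · have hz := mem_ball_self (x := (0 : ℂ)) hρ
    rw [Spd_norm k (h0 0 hz), hk, mul_assoc (Real.pi * ρ ^ 2)]
    refine mul_le_mul_of_nonneg_left (mul_le_mul_of_nonneg_right ?_ (en_nonneg _ _))
      (by positivity)
    have e1 : Real.exp (-8 * C₀) = Real.exp (-C₀) ^ 4 * Real.exp (-C₀) ^ 4 := by
      rw [← pow_add, ← Real.exp_nat_mul]
      congr 1
      push_cast
      ring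
    rw [e1]
    exact mul_le_mul_of_nonneg_left (pow_le_pow_left₀ (Real.exp_pos _).le (h1 0 hz) 4)
      (by positivity)
  · rw [Spd_norm k (h0 z hz), hk]
    refine mul_le_of_le_one_left (en_nonneg _ _) ?_
    rw [← mul_pow]
    refine pow_le_one₀ (by positivity) ?_
    calc Real.exp (-C₀) * ‖g z‖ ≤ Real.exp (-C₀) * Real.exp C₀ :=
          mul_le_mul_of_nonneg_left (h2 z hz) (Real.exp_pos _).le
      _ = 1 := by rw [← Real.exp_add, neg_add_cancel, Real.exp_zero]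

/-- `log ‖G‖ = re L` with `L` analytic on the disc (`AnalyticAt.harmonicAt_log_norm`,
`HarmonicOnNhd.exists_analyticOnNhd_ball_re_eq`). For `g = exp (-a L) • f` we have
`exp (-C₀) ≤ ‖g‖ ≤ exp C₀`, `en f f' = en g g'` (`en_deriv_smul`) and
`2 * en g g' * ‖g‖ ^ 4 = ‖W‖ ^ 2` with `W i j = g i * g' j - g j * g' i` (`lagrange`); apply
`area_normSq` to `W` with values in `EuclideanSpace ℂ (Fin N × Fin N)`. -/
theorem spd {N : ℕ} {f : ℂ → E N} {G : ℂ → ℂ} {ρ a C₀ : ℝ} (hρ : 0 < ρ)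
    (hf : DifferentiableOn ℂ f (ball 0 ρ)) (h0 : ∀ z ∈ ball (0 : ℂ) ρ, f z ≠ 0)
    (hG : DifferentiableOn ℂ G (ball 0 ρ)) (hG0 : ∀ z ∈ ball (0 : ℂ) ρ, G z ≠ 0)
    (hb : ∀ z ∈ ball (0 : ℂ) ρ, |Real.log ‖f z‖ - a * Real.log ‖G z‖| ≤ C₀) :
    ENNReal.ofReal (Real.pi * ρ ^ 2 * Real.exp (-8 * C₀) * en (f 0) (deriv f 0)) ≤
      ∫⁻ z in ball (0 : ℂ) ρ, ENNReal.ofReal (en (f z) (deriv f z)) := by
  obtain ⟨L, hL, hL'⟩ := InnerProductSpace.HarmonicOnNhd.exists_analyticOnNhd_ball_re_eq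
    (f := fun z => Real.log ‖G z‖) (z := 0) (R := ρ) fun z hz =>
      (hG.analyticOnNhd isOpen_ball z hz).harmonicAt_log_norm (hG0 z hz)
  have hl : DifferentiableOn ℂ (fun z => Complex.exp (-a * L z)) (ball 0 ρ) :=
    (hL.differentiableOn.const_mul _).cexp
  have hn : ∀ z ∈ ball (0 : ℂ) ρ, ‖Complex.exp (-a * L z) • f z‖ =
      Real.exp (Real.log ‖f z‖ - a * Real.log ‖G z‖) := fun z hz => by
    have h1 : (L z).re = Real.log ‖G z‖ := hL' hz
    rw [norm_smul, Complex.norm_exp, Real.exp_sub, Real.exp_log (norm_pos_iff.2 (h0 z hz)), ← h1,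
      div_eq_inv_mul, ← Real.exp_neg]
    simp
  have he : ∀ z ∈ ball (0 : ℂ) ρ, en (Complex.exp (-a * L z) • f z)
      (deriv (fun w => Complex.exp (-a * L w) • f w) z) = en (f z) (deriv f z) := fun z hz =>
    en_deriv_smul (l := fun z => Complex.exp (-a * L z))
      (hf.differentiableAt (isOpen_ball.mem_nhds hz))
      (hl.differentiableAt (isOpen_ball.mem_nhds hz)) (Complex.exp_ne_zero _)
  have h := Spd_core (g := fun w => Complex.exp (-a * L w) • f w) (C₀ := C₀) hρ (hl.smul hf)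
    (fun z hz => by rw [hn z hz]; exact Real.exp_le_exp.2 (abs_le.1 (hb z hz)).1)
    (fun z hz => by rw [hn z hz]; exact Real.exp_le_exp.2 (abs_le.1 (hb z hz)).2)
  rw [he 0 (mem_ball_self hρ)] at h
  refine h.trans (le_of_eq (setLIntegral_congr_fun measurableSet_ball fun z hz => ?_))
  exact congrArg ENNReal.ofReal (he z hz)

end Pool.Agent.Lib.MP_a47f92_an.Dc
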