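import Pool.Agent.Lib.MP_a47f92_an.Dc.Lap
import Pool.Agent.Lib.MP_a47f92_an.Dc.ERb
import Pool.Agent.Lib.MP_a47f92_an.Dc.Spd

set_option autoImplicit false
set_option linter.unusedSectionVars false

namespace Pool.Agent.Lib.MP_a47f92_an.Dc

open MeasureTheory Filter Topology Set Complex Metric Function
open scoped ContDiff ComplexConjugate ENNReal NNReal

theorem Good_energy {s N : ℕ} {Ξ : E (s + 1) → E (s + 1)} {Ω : Set (E (s + 1))} {r : ℝ}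
    {f : E (s + 1) → E N} (h : Fo Ξ Ω) (hr : 0 < r) (hf : NV f Ω) (y : E (s + 1)) :
    ∫⁻ z in ball (0 : ℂ) (rho Ξ Ω r y), ENNReal.ofReal (en (f (tau Ξ Ω r y z))
      (deriv (fun w => f (tau Ξ Ω r y w)) z)) = 2 * de Ξ Ω r (lf f) y := by
  rw [de, ← lintegral_const_mul' _ _ (by simp)]
  refine setLIntegral_congr_fun measurableSet_ball fun z hz => ?_
  beta_reduce
  rw [ll_lf_tau h hr hf (mem_ball_zero_iff.mp hz)]
  generalize en _ _ = x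
  rw [← ENNReal.ofReal_ofNat 2, ← ENNReal.ofReal_mul (by norm_num)]
  congr 1
  ring

theorem Good_ne {s N : ℕ} {Ξ : E (s + 1) → E (s + 1)} {Ω : Set (E (s + 1))} {r : ℝ}
    {f : E (s + 1) → E N} (h : Fo Ξ Ω) (hr : 0 < r) (hf : NV f Ω) (y : E (s + 1)) :
    ∀ z ∈ ball (0 : ℂ) (rho Ξ Ω r y), f (tau Ξ Ω r y z) ≠ 0 :=
  fun _ hz => hf.ne _ (tau_mem h hr (mem_ball_zero_iff.mp hz)).1

/-- `er_main`, `flat_disp` for the maps `f ∘ tau y`, `tl ∘ tau y` (`ll_lf_tau`, `ll_tq_tau`,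
`differentiableOn_comp_tau`, `rho_pos`, `tau_zero`); take half of the smaller constant. -/
theorem good_disc {ε : ℝ} (hε : 0 < ε) : ∃ ε₀ : ℝ, 0 < ε₀ ∧ ∀ (s : ℕ) (Ξ : E (s + 1) → E (s + 1))
    (Ω : Set (E (s + 1))) (r : ℝ) (y : E (s + 1)) (w : ℂ), Fo Ξ Ω → 0 < r → y ∈ Ur Ξ Ω →
    ‖w‖ ≤ 3 * rho Ξ Ω r y / 4 →
    (de Ξ Ω r tq y ≤ ENNReal.ofReal ε₀ → ‖tl (tau Ξ Ω r y w) - tl y‖ ≤ ε) ∧
    ∀ (N : ℕ) (f : E (s + 1) → E N), NV f Ω → de Ξ Ω r (lf f) y ≤ ENNReal.ofReal ε₀ →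
      Cl ε (f (tau Ξ Ω r y w)) (f y) ∧
        ‖f (tau Ξ Ω r y w)‖ ^ 2 ≤ 2 * ‖inner ℂ (un (f y)) (f (tau Ξ Ω r y w))‖ ^ 2 := by
  obtain ⟨ε₁, h1, H1⟩ := er_main hε
  obtain ⟨ε₂, h2, H2⟩ := flat_disp hε
  have hm : 0 < min ε₁ ε₂ := lt_min h1 h2
  refine ⟨min ε₁ ε₂ / 2, by positivity, fun s Ξ Ω r y w h hr hy hw => ⟨fun hd => ?_,
    fun N f hf hd => ?_⟩⟩
  · have := H2 s _ (fun w => tl (tau Ξ Ω r y w)) (rho_pos h hr hy)
      (differentiableOn_comp_tau h hr contDiff_tl.contDiffOn y) ?_ w hw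
    · rwa [tau_zero] at this
    refine le_trans (le_of_eq ?_) (hd.trans (ENNReal.ofReal_le_ofReal ?_))
    · refine setLIntegral_congr_fun measurableSet_ball fun z hz => ?_
      beta_reduce
      rw [ll_tq_tau h hr (mem_ball_zero_iff.mp hz)]
    · linarith [min_le_right ε₁ ε₂]
  · have := H1 N _ (fun w => f (tau Ξ Ω r y w)) (rho_pos h hr hy)
      (differentiableOn_comp_tau h hr hf.cd y) (Good_ne h hr hf y) ?_ w hw
    · rwa [tau_zero] at this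
    rw [Good_energy h hr hf]
    refine (mul_le_mul_right hd 2).trans ?_
    rw [← ENNReal.ofReal_ofNat 2, ← ENNReal.ofReal_mul (by norm_num)]
    exact ENNReal.ofReal_le_ofReal (by linarith [min_le_left ε₁ ε₂])

/-- `spd` on the disc of radius `rho y` (`ll_lf_tau` at `0` and at all points of the disc). -/
theorem big_de {s N : ℕ} {Ξ : E (s + 1) → E (s + 1)} {Ω : Set (E (s + 1))} {r ρ a C₀ : ℝ}
    {y : E (s + 1)} {f : E (s + 1) → E N} {G : E (s + 1) → ℂ} (h : Fo Ξ Ω) (hr : 0 < r)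
    (hf : NV f Ω) (hG : ContDiffOn ℂ ∞ G Ω) (hG0 : ∀ z ∈ Ω, G z ≠ 0)
    (hb : ∀ z ∈ Ω, |lf f z - a * Real.log ‖G z‖| ≤ C₀) (h0 : 0 < ρ) (hρ : ρ ≤ rho Ξ Ω r y) :
    0 ≤ ll Ξ (lf f) y ∧
      ENNReal.ofReal (ρ ^ 2 * Real.exp (-8 * C₀) * ll Ξ (lf f) y) ≤ de Ξ Ω r (lf f) y := by
  have hR : 0 < rho Ξ Ω r y := h0.trans_le hρ
  have e := ll_lf_tau (ζ := 0) h hr hf (by simpa using hR)
  have hm : ∀ z ∈ ball (0 : ℂ) (rho Ξ Ω r y), tau Ξ Ω r y z ∈ Ω :=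
    fun _ hz => (tau_mem h hr (mem_ball_zero_iff.mp hz)).1
  have k := spd (a := a) (C₀ := C₀) hR (differentiableOn_comp_tau h hr hf.cd y)
    (Good_ne h hr hf y) (differentiableOn_comp_tau h hr hG y) (fun z hz => hG0 _ (hm z hz))
    fun z hz => hb _ (hm z hz)
  rw [Good_energy h hr hf] at k
  have n := en_nonneg (f (tau Ξ Ω r y 0)) (deriv (fun w => f (tau Ξ Ω r y w)) 0)
  generalize en (f (tau Ξ Ω r y 0)) (deriv (fun w => f (tau Ξ Ω r y w)) 0) = x at e k n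
  rw [tau_zero] at e
  rw [e]
  refine ⟨by positivity, ?_⟩
  rw [← ENNReal.mul_le_mul_iff_right (a := 2) (by simp) (by simp)]
  refine le_trans ?_ k
  rw [← ENNReal.ofReal_ofNat 2, ← ENNReal.ofReal_mul (by norm_num)]
  refine ENNReal.ofReal_le_ofReal ?_
  have h3 : ρ ^ 2 ≤ Real.pi * rho Ξ Ω r y ^ 2 := by
    have : ρ ^ 2 ≤ rho Ξ Ω r y ^ 2 := by gcongr
    nlinarith [Real.pi_gt_three, sq_nonneg (rho Ξ Ω r y)]
  have h4 : 0 ≤ Real.exp (-8 * C₀) * x := by positivity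
  nlinarith [mul_le_mul_of_nonneg_right h3 h4]

end Pool.Agent.Lib.MP_a47f92_an.Dc
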