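import Pool.Agent.Lib.MP_a47f92_an.Dc.Def

set_option autoImplicit false
set_option linter.unusedSectionVars false

namespace Pool.Agent.Lib.MP_a47f92_an.Dc

open MeasureTheory Filter Topology Set Complex Metric Function
open scoped ContDiff ComplexConjugate ENNReal NNReal

variable {n : ℕ} {g : E n → E n} {x : E n}

/-- As `quant_ift` in `IFTA.lean`, with `OpenPartialHomeomorph.hasFDerivAt_symm`. -/
theorem ift_ball {σ β : ℝ} (hσ : 0 < σ) (hβ : 0 < β) (hg : DifferentiableOn ℂ g (ball x σ))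
    (A : E n ≃L[ℂ] E n) (hA : ‖(A.symm : E n →L[ℂ] E n)‖ ≤ β)
    (hD : ∀ z ∈ ball x σ, ‖fderiv ℂ g z - (A : E n →L[ℂ] E n)‖ ≤ 1 / (2 * β)) :
    (∀ z ∈ ball x σ, (fderiv ℂ g z).det ≠ 0) ∧ ∃ a : E n → E n,
      DifferentiableOn ℂ a (ball (g x) (σ / (4 * β))) ∧ a (g x) = x ∧
      ∀ q ∈ ball (g x) (σ / (4 * β)), a q ∈ ball x σ ∧ g (a q) = q := by
  have hd : ∀ z ∈ ball x σ, DifferentiableAt ℂ g z := fun z hz =>
    hg.differentiableAt (isOpen_ball.mem_nhds hz)
  have hlow : ∀ v : E n, ‖v‖ ≤ β * ‖A v‖ := fun v => by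
    have h1 := (A.symm : E n →L[ℂ] E n).le_opNorm (A v)
    simp only [ContinuousLinearEquiv.coe_coe, ContinuousLinearEquiv.symm_apply_apply] at h1
    exact h1.trans (mul_le_mul_of_nonneg_right hA (norm_nonneg _))
  have hκ : β * (1 / (2 * β)) = 1 / 2 := by field_simp
  have hinj : ∀ z ∈ ball x σ, (fderiv ℂ g z).ker = ⊥ := fun z hz => by
    refine LinearMap.ker_eq_bot'.2 fun v hv => ?_
    have h1 := (fderiv ℂ g z - (A : E n →L[ℂ] E n)).le_of_opNorm_le (hD _ hz) v
    have h2 : fderiv ℂ g z v = 0 := hv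
    rw [sub_apply, h2, zero_sub, norm_neg] at h1
    have h3 := (hlow v).trans (mul_le_mul_of_nonneg_left h1 hβ.le)
    rw [← mul_assoc, hκ] at h3
    exact norm_le_zero_iff.1 (by linarith)
  refine ⟨fun z hz h => LinearMap.det_eq_zero_iff_ker_ne_bot.1 h (hinj z hz), ?_⟩
  have hap : ApproximatesLinearOn g (A : E n →L[ℂ] E n) (ball x σ)
      ⟨1 / (2 * β), by positivity⟩ := fun y hy z hz =>
    (convex_ball x _).norm_image_sub_le_of_norm_fderiv_le' hd hD hz hy
  have hc : Subsingleton (E n) ∨ (⟨1 / (2 * β), by positivity⟩ : ℝ≥0) <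
      ‖(A.symm : E n →L[ℂ] E n)‖₊⁻¹ := by
    rcases A.subsingleton_or_nnnorm_symm_pos with h | h
    · exact Or.inl h
    · refine Or.inr ?_
      have h1 : 0 < ‖(A.symm : E n →L[ℂ] E n)‖ := h
      change 1 / (2 * β) < ‖(A.symm : E n →L[ℂ] E n)‖⁻¹
      rw [← one_div]
      exact one_div_lt_one_div_of_lt h1 (by linarith)
  let B : (A : E n →L[ℂ] E n).NonlinearRightInverse :=
    { toFun := A.symm
      nnnorm := ⟨β, hβ.le⟩
      bound' := fun y => (hlow (A.symm y)).trans_eq (by rw [A.apply_symm_apply]; rfl)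
      right_inv' := fun y => A.apply_symm_apply y }
  have hsurj := hap.surjOn_closedBall_of_nonlinearRightInverse B (ε := σ / 2) (b := x)
    (by positivity) (closedBall_subset_ball (half_lt_self hσ))
  let P := hap.toOpenPartialHomeomorph g _ hc isOpen_ball
  have htar : ∀ q ∈ ball (g x) (σ / (4 * β)), q ∈ P.target := fun q hq => by
    have h1 : q ∈ closedBall (g x) ((β⁻¹ - 1 / (2 * β)) * (σ / 2)) := by
      rw [show (β⁻¹ - 1 / (2 * β)) * (σ / 2) = σ / (4 * β) by field_simp; ring]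
      exact ball_subset_closedBall hq
    exact image_mono (closedBall_subset_ball (half_lt_self hσ)) (hsurj h1)
  have hx : x ∈ ball x σ := mem_ball_self hσ
  refine ⟨P.symm, fun q hq => ?_, P.left_inv hx,
    fun q hq => ⟨P.map_target (htar q hq), P.right_inv (htar q hq)⟩⟩
  have hy : P.symm q ∈ ball x σ := P.map_target (htar q hq)
  refine (P.hasFDerivAt_symm (f' := ContinuousLinearEquiv.ofBijective _ (hinj _ hy)
    (LinearMap.ker_eq_bot_iff_range_eq_top.1 (hinj _ hy))) (htar q hq)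
      ?_).differentiableAt.differentiableWithinAt
  rw [ContinuousLinearEquiv.coe_ofBijective]
  exact (hd _ hy).hasFDerivAt

/-- Schwarz lemma twice: `Complex.norm_fderiv_le_div_of_mapsTo_ball` on `ball z (η / 2)`, then
`Complex.dist_le_div_mul_dist_of_mapsTo_ball` for `fderiv ℂ g` on `ball x (η / 2)`. -/
theorem cauchy_bounds {η M : ℝ} (hη : 0 < η) (hg : ContDiffOn ℂ ∞ g (ball x η))
    (hM : ∀ z ∈ ball x η, ‖g z‖ ≤ M) : ∀ z ∈ ball x (η / 2), ‖fderiv ℂ g z‖ ≤ 4 * M / η ∧
      ‖fderiv ℂ g z - fderiv ℂ g x‖ ≤ 16 * M / η ^ 2 * ‖z - x‖ := by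
  obtain ⟨hd, hf⟩ := (contDiffOn_infty_iff_fderiv_of_isOpen isOpen_ball).1 hg
  have hη2 : 0 < η / 2 := half_pos hη
  have h1 : ∀ z ∈ ball x (η / 2), ‖fderiv ℂ g z‖ ≤ 4 * M / η := fun z hz => by
    have hs : ball z (η / 2) ⊆ ball x η := ball_subset_ball' (by
      have := mem_ball.1 hz
      linarith)
    have h := Complex.norm_fderiv_le_div_of_mapsTo_ball (R₂ := 2 * M) (hd.mono hs)
      (fun w hw => by
        rw [mem_closedBall, dist_eq_norm]
        have h2 := hM w (hs hw)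
        have h3 := hM z (hs (mem_ball_self hη2))
        have h4 := norm_sub_le (g w) (g z)
        linarith) hη2
    exact h.trans_eq (by field_simp; ring)
  intro z hz
  refine ⟨h1 z hz, ?_⟩
  have h := Complex.dist_le_div_mul_dist_of_mapsTo_ball (f := fderiv ℂ g) (c := x)
    (R₂ := 8 * M / η)
    ((hf.differentiableOn (by simp)).mono (ball_subset_ball (half_le_self hη.le)))
    (fun w hw => by
      rw [mem_closedBall, dist_eq_norm]
      have h2 := h1 w hw
      have h3 := h1 x (mem_ball_self hη2)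
      have h4 := norm_sub_le (fderiv ℂ g w) (fderiv ℂ g x)
      have h5 : 8 * M / η = 4 * M / η + 4 * M / η := by ring
      linarith) hz
  rw [dist_eq_norm, dist_eq_norm] at h
  exact h.trans_eq (by field_simp; ring)

end Pool.Agent.Lib.MP_a47f92_an.Dc
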