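import Pool.Agent.Lib.MP_a47f92_an.Dc.Inv

set_option autoImplicit false
set_option linter.unusedSectionVars false

namespace Pool.Agent.Lib.MP_a47f92_an.Dc

open MeasureTheory Filter Topology Set Complex Metric Function
open scoped ContDiff ComplexConjugate ENNReal NNReal

variable {s N : ℕ} {Ξ : E (s + 1) → E (s + 1)} {Ω : Set (E (s + 1))} {r : ℝ} {y : E (s + 1)}
  {ζ : ℂ}

/-- The set where `a = b` is closed and open in `O` (`Fo.loc_inj`,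
`IsPreconnected.subset_of_closure_inter_subset` or `IsPreconnected.induction₂`). -/
theorem lift_eq (h : Fo Ξ Ω) {O : Set ℂ} (hO : IsPreconnected O) {a b : ℂ → E (s + 1)}
    (ha : ContinuousOn a O) (hb : ContinuousOn b O) (hm : ∀ w ∈ O, a w ∈ Ur Ξ Ω)
    (he : ∀ w ∈ O, Ξ (a w) = Ξ (b w)) {z : ℂ} (hz : z ∈ O) (h0 : a z = b z) : EqOn a b O := by
  have := Subtype.preconnectedSpace hO
  have ha' := ha.domRestrict
  have hb' := hb.domRestrict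
  have hc : IsClopen {w : O | a w = b w} := ⟨isClosed_eq ha' hb', isOpen_iff_mem_nhds.2 fun w hw => by
    obtain ⟨U, hU, hi⟩ := h.loc_inj (hm w w.2)
    have hU' : U ∈ 𝓝 (b w) := (hw : a w = b w) ▸ hU
    filter_upwards [ha'.continuousAt (x := w) hU, hb'.continuousAt (x := w) hU'] with w' h1 h2
    exact hi h1 h2 (he w' w'.2)⟩
  exact fun w hw => (hc.eq_univ ⟨⟨z, hz⟩, h0⟩).ge (mem_univ (⟨w, hw⟩ : O))

theorem rho_nonneg (Ξ : E (s + 1) → E (s + 1)) (Ω : Set (E (s + 1))) (r : ℝ) (y : E (s + 1)) :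
    0 ≤ rho Ξ Ω r y :=
  Real.sSup_nonneg fun _ hx => hx.1

theorem rho_le (hr : 0 < r) (Ξ : E (s + 1) → E (s + 1)) (Ω : Set (E (s + 1))) (y : E (s + 1)) :
    rho Ξ Ω r y ≤ r :=
  Real.sSup_le (fun _ hx => hx.2.1) hr.le

theorem le_rho {ρ : ℝ} {a : ℂ → E (s + 1)} (hl : Lf Ξ Ω y (ball 0 ρ) a) (hρ : ρ ≤ r) :
    ρ ≤ rho Ξ Ω r y :=
  (le_total ρ 0).elim (fun h => h.trans (rho_nonneg Ξ Ω r y)) fun h =>
    le_csSup ⟨r, fun _ hx => hx.2.1⟩ ⟨h, hρ, a, hl⟩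

theorem tau_zero (Ξ : E (s + 1) → E (s + 1)) (Ω : Set (E (s + 1))) (r : ℝ) (y : E (s + 1)) :
    tau Ξ Ω r y 0 = y := by
  unfold tau
  split_ifs with h
  exacts [h.choose_spec.ctr, rfl]

theorem Lf_uniq (h : Fo Ξ Ω) {ρ ρ' : ℝ} {a a' : ℂ → E (s + 1)} (hl : Lf Ξ Ω y (ball 0 ρ) a)
    (hl' : Lf Ξ Ω y (ball 0 ρ') a') {w : ℂ} (hw : w ∈ ball (0 : ℂ) ρ) (hw' : w ∈ ball (0 : ℂ) ρ') :
    a w = a' w :=
  lift_eq h ((convex_ball 0 ρ).inter (convex_ball 0 ρ')).isPreconnected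
    (hl.diff.continuousOn.mono inter_subset_left) (hl'.diff.continuousOn.mono inter_subset_right)
    (fun v hv => hl.mem v hv.1) (fun v hv => (hl.eq v hv.1).trans (hl'.eq v hv.2).symm)
    ⟨mem_ball_self (pos_of_mem_ball hw), mem_ball_self (pos_of_mem_ball hw')⟩
    (hl.ctr.trans hl'.ctr.symm) ⟨hw, hw'⟩

theorem Lf_zero (Ξ : E (s + 1) → E (s + 1)) (Ω : Set (E (s + 1))) (y : E (s + 1)) :
    Lf Ξ Ω y (ball 0 0) fun _ => y :=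
  ⟨differentiableOn_const y, rfl, by simp, by simp⟩

/-- Glue the lifts over the smaller discs: for `‖w‖ < rho` choose an admissible radius `ρ w > ‖w‖` with
lift `a w`, put `b w = a w w` (and `b w = y` otherwise); by `lift_eq`, `b = a w` near `w`. -/
theorem tau_spec (h : Fo Ξ Ω) (hr : 0 < r) (y : E (s + 1)) :
    Lf Ξ Ω y (ball 0 (rho Ξ Ω r y)) (tau Ξ Ω r y) := by
  have h1 : ∀ w : ℂ, ∃ (ρ : ℝ) (a : ℂ → E (s + 1)), Lf Ξ Ω y (ball 0 ρ) a ∧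
      (w ∈ ball (0 : ℂ) (rho Ξ Ω r y) → w ∈ ball (0 : ℂ) ρ) := fun w => by
    by_cases hw : w ∈ ball (0 : ℂ) (rho Ξ Ω r y)
    · obtain ⟨ρ, ⟨-, -, a, ha⟩, hρ⟩ := exists_lt_of_lt_csSup
        (s := {ρ | 0 ≤ ρ ∧ ρ ≤ r ∧ ∃ h, Lf Ξ Ω y (ball 0 ρ) h})
        ⟨0, le_rfl, hr.le, _, Lf_zero Ξ Ω y⟩ (mem_ball.1 hw)
      exact ⟨ρ, a, ha, fun _ => hρ⟩
    · exact ⟨0, _, Lf_zero Ξ Ω y, fun h => (hw h).elim⟩
  choose ρ a ha hρ using h1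
  have h2 : ∃ b, Lf Ξ Ω y (ball 0 (rho Ξ Ω r y)) b := by
    refine ⟨fun w => a w w, fun w hw => DifferentiableAt.differentiableWithinAt ?_, (ha 0).ctr,
      fun w hw => (ha w).mem w (hρ w hw), fun w hw => (ha w).eq w (hρ w hw)⟩
    refine ((ha w).diff.differentiableAt (isOpen_ball.mem_nhds (hρ w hw))).congr_of_eventuallyEq ?_
    filter_upwards [isOpen_ball.mem_nhds (hρ w hw), isOpen_ball.mem_nhds hw] with v h1 h2
    exact Lf_uniq h (ha v) (ha w) (hρ v h2) h1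
  rw [tau, dif_pos h2]
  exact h2.choose_spec

theorem tau_eq (h : Fo Ξ Ω) (hr : 0 < r) {ρ : ℝ} {a : ℂ → E (s + 1)} (hl : Lf Ξ Ω y (ball 0 ρ) a)
    (hρ : ρ ≤ r) : EqOn (tau Ξ Ω r y) a (ball 0 ρ) :=
  fun _ hw => Lf_uniq h (tau_spec h hr y) hl (ball_subset_ball (le_rho hl hρ) hw) hw

/-- `Fo.loc_inj`, `Fo.inv_on`. -/
theorem rho_pos (h : Fo Ξ Ω) (hr : 0 < r) (hy : y ∈ Ur Ξ Ω) : 0 < rho Ξ Ω r y := by
  obtain ⟨U, hU, hi⟩ := h.loc_inj hy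
  have hyW : y ∈ interior U ∩ Ur Ξ Ω := ⟨mem_interior_iff_mem_nhds.2 hU, hy⟩
  obtain ⟨ho, g, hg, hgi⟩ := h.inv_on (isOpen_interior.inter h.isOpen_ur) inter_subset_right
    (hi.mono (inter_subset_left.trans interior_subset))
  have hd : Differentiable ℂ fun w : ℂ => Ξ y + w • (ev 0 : E (s + 1)) := by fun_prop
  obtain ⟨ε, hε, hb⟩ := Metric.isOpen_iff.1 (ho.preimage hd.continuous) 0 ⟨y, hyW, by simp⟩
  have hb' := (ball_subset_ball (min_le_left ε r)).trans hb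
  refine (lt_min hε hr).trans_le (le_rho (a := fun w => g (Ξ y + w • ev 0))
    ⟨hg.comp hd.differentiableOn hb', by simp [hgi y hyW], fun w hw => ?_, fun w hw => ?_⟩
    (min_le_right _ _))
  · obtain ⟨v, hv, e⟩ := hb' hw
    rw [← show Ξ v = Ξ y + w • ev 0 from e, hgi v hv]
    exact hv.2
  · obtain ⟨v, hv, e⟩ := hb' hw
    rw [← show Ξ v = Ξ y + w • ev 0 from e, hgi v hv]

theorem tau_mem (h : Fo Ξ Ω) (hr : 0 < r) (hζ : ‖ζ‖ < rho Ξ Ω r y) :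
    tau Ξ Ω r y ζ ∈ Ur Ξ Ω :=
  (tau_spec h hr y).mem ζ (mem_ball_zero_iff.2 hζ)

theorem mem_ur (h : Fo Ξ Ω) (hr : 0 < r) (hy : 0 < rho Ξ Ω r y) : y ∈ Ur Ξ Ω :=
  tau_zero Ξ Ω r y ▸ tau_mem h hr (ζ := 0) (norm_zero.trans_lt hy)

theorem tau_img (h : Fo Ξ Ω) (hr : 0 < r) (hζ : ‖ζ‖ < rho Ξ Ω r y) :
    Ξ (tau Ξ Ω r y ζ) = Ξ y + ζ • ev 0 :=
  (tau_spec h hr y).eq ζ (mem_ball_zero_iff.2 hζ)

theorem tau_fst (h : Fo Ξ Ω) (hr : 0 < r) (hζ : ‖ζ‖ < rho Ξ Ω r y) :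
    tau Ξ Ω r y ζ 0 = y 0 + ζ := by
  rw [← h.fst _ (tau_mem h hr hζ).1, tau_img h hr hζ,
    ← h.fst _ (mem_ur h hr ((norm_nonneg ζ).trans_lt hζ)).1]
  simp [ev]

theorem rho_tau_ge (h : Fo Ξ Ω) (hr : 0 < r) (hζ : ‖ζ‖ < rho Ξ Ω r y) :
    rho Ξ Ω r y - ‖ζ‖ ≤ rho Ξ Ω r (tau Ξ Ω r y ζ) := by
  have h1 : ∀ w ∈ ball (0 : ℂ) (rho Ξ Ω r y - ‖ζ‖), ‖ζ + w‖ < rho Ξ Ω r y := fun w hw => by
    linarith [norm_add_le ζ w, mem_ball_zero_iff.1 hw]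
  refine le_rho (a := fun w => tau Ξ Ω r y (ζ + w)) ⟨(tau_spec h hr y).diff.comp (by fun_prop)
    fun w hw => mem_ball_zero_iff.2 (h1 w hw), by simp, fun w hw => tau_mem h hr (h1 w hw),
    fun w hw => ?_⟩ (by linarith [rho_le hr Ξ Ω y, norm_nonneg ζ])
  rw [tau_img h hr (h1 w hw), tau_img h hr hζ, add_smul, add_assoc]

/-- `lift_eq` on the convex set `ball 0 (rho (tau y ζ)) ∩ ball (-ζ) (rho y)`. -/
theorem tau_tau (h : Fo Ξ Ω) (hr : 0 < r) {ξ : ℂ} (hζ : ‖ζ‖ < rho Ξ Ω r y)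
    (hξ : ‖ξ‖ < rho Ξ Ω r (tau Ξ Ω r y ζ)) (hs : ‖ζ + ξ‖ < rho Ξ Ω r y) :
    tau Ξ Ω r (tau Ξ Ω r y ζ) ξ = tau Ξ Ω r y (ζ + ξ) := by
  have h1 : ∀ w : ℂ, w ∈ ball (-ζ) (rho Ξ Ω r y) ↔ ‖ζ + w‖ < rho Ξ Ω r y := fun w => by
    rw [mem_ball_iff_norm, sub_neg_eq_add, add_comm]
  refine lift_eq (b := fun w => tau Ξ Ω r y (ζ + w)) h
    ((convex_ball 0 (rho Ξ Ω r (tau Ξ Ω r y ζ))).inter
      (convex_ball (-ζ) (rho Ξ Ω r y))).isPreconnected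
    ((tau_spec h hr _).diff.continuousOn.mono inter_subset_left)
    ((tau_spec h hr y).diff.continuousOn.comp (by fun_prop)
      fun w hw => mem_ball_zero_iff.2 ((h1 w).1 hw.2))
    (fun w hw => (tau_spec h hr _).mem w hw.1) (fun w hw => ?_) (z := 0)
    ⟨mem_ball_self ((norm_nonneg ξ).trans_lt hξ), (h1 0).2 (by simpa using hζ)⟩
    (by simp [tau_zero]) ⟨mem_ball_zero_iff.2 hξ, (h1 ξ).2 hs⟩
  rw [(tau_spec h hr _).eq w hw.1, tau_img h hr ((h1 w).1 hw.2), tau_img h hr hζ, add_smul,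
    add_assoc]

theorem tau_neg (h : Fo Ξ Ω) (hr : 0 < r) (hy : y ∈ Dz Ξ Ω r ζ) :
    tau Ξ Ω r (tau Ξ Ω r y ζ) (-ζ) = y ∧ tau Ξ Ω r y ζ ∈ Dz Ξ Ω r (-ζ) := by
  have h1 : ‖-ζ‖ < rho Ξ Ω r (tau Ξ Ω r y ζ) := (norm_neg ζ).trans_lt hy.2
  have h2 : tau Ξ Ω r (tau Ξ Ω r y ζ) (-ζ) = y := by
    rw [tau_tau h hr hy.1 h1 (by simpa using (norm_nonneg ζ).trans_lt hy.1), add_neg_cancel,
      tau_zero]
  exact ⟨h2, h1, by rw [h2, norm_neg]; exact hy.1⟩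

theorem rho_tau_le (h : Fo Ξ Ω) (hr : 0 < r) (hζ : ‖ζ‖ < rho Ξ Ω r y) :
    rho Ξ Ω r (tau Ξ Ω r y ζ) ≤ rho Ξ Ω r y + ‖ζ‖ := by
  rcases le_or_gt (rho Ξ Ω r (tau Ξ Ω r y ζ)) ‖ζ‖ with h1 | h1
  · linarith [rho_nonneg Ξ Ω r y]
  · have h2 := tau_neg h hr (⟨hζ, h1⟩ : y ∈ Dz Ξ Ω r ζ)
    have h3 := rho_tau_ge h hr h2.2.1
    rw [h2.1, norm_neg] at h3
    linarith

/-- Near `z` we have `tau y w = tau (tau y z) (w - z)`, so the difference is at most `‖w - z‖`. -/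
theorem continuousOn_rho_tau (h : Fo Ξ Ω) (hr : 0 < r) (y : E (s + 1)) :
    ContinuousOn (fun w => rho Ξ Ω r (tau Ξ Ω r y w)) (ball 0 (rho Ξ Ω r y)) := by
  intro z hz
  have h0 := rho_pos h hr (tau_mem h hr (mem_ball_zero_iff.1 hz))
  refine Metric.continuousWithinAt_iff.2 fun ε hε => ⟨_, lt_min hε h0, fun w hw hd => ?_⟩
  rw [dist_eq_norm, lt_min_iff] at hd
  have h1 := tau_tau h hr (mem_ball_zero_iff.1 hz) hd.2 (by simpa using hw)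
  have h2 := rho_tau_ge h hr hd.2
  have h3 := rho_tau_le h hr hd.2
  rw [h1, add_sub_cancel] at h2 h3
  rw [Real.dist_eq, abs_lt]
  constructor <;> linarith [hd.1]

/-- `DifferentiableOn.analyticAt`. -/
theorem tau_contDiffAt (h : Fo Ξ Ω) (hr : 0 < r) (hζ : ‖ζ‖ < rho Ξ Ω r y) :
    ContDiffAt ℂ 2 (tau Ξ Ω r y) ζ :=
  ((tau_spec h hr y).diff.analyticAt (isOpen_ball.mem_nhds (mem_ball_zero_iff.2 hζ))).contDiffAt

/-- Differentiate `tau_img`; `fderiv_wv`, `exists_equiv`. -/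
theorem tau_hasDerivAt (h : Fo Ξ Ω) (hr : 0 < r) (hζ : ‖ζ‖ < rho Ξ Ω r y) :
    HasDerivAt (tau Ξ Ω r y) ((dl Ξ (tau Ξ Ω r y ζ))⁻¹ • wv Ξ (tau Ξ Ω r y ζ)) ζ := by
  have hm := tau_mem h hr hζ
  have h1 := ((tau_contDiffAt h hr hζ).differentiableAt two_ne_zero).hasDerivAt
  have h2 := (h.an _ hm.1).differentiableAt.hasFDerivAt.comp_hasDerivAt ζ h1
  have h3 : HasDerivAt (Ξ ∘ tau Ξ Ω r y) (ev 0) ζ := by
    have h4 := ((hasDerivAt_id ζ).smul_const (ev 0 : E (s + 1))).const_add (Ξ y)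
    rw [one_smul] at h4
    refine h4.congr_of_eventuallyEq ?_
    filter_upwards [isOpen_ball.mem_nhds (mem_ball_zero_iff.2 hζ)] with w hw
    exact (tau_spec h hr y).eq w hw
  obtain ⟨A, hA⟩ := exists_equiv hm.2
  refine h1.congr_deriv (A.injective ?_)
  change (A : E (s + 1) →L[ℂ] E (s + 1)) _ = (A : E (s + 1) →L[ℂ] E (s + 1)) _
  rw [hA, h2.unique h3, map_smul, fderiv_wv, inv_smul_smul₀ hm.2]

end Pool.Agent.Lib.MP_a47f92_an.Dc
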