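import Pool.Agent.Lib.MP_a47f92_an.Dc.IFa
import Pool.Agent.Lib.MP_a47f92_an.Dc.Lf
import Pool.Agent.Lib.MP_a47f92_an.Coc2

set_option autoImplicit false
set_option linter.unusedSectionVars false

namespace Pool.Agent.Lib.MP_a47f92_an.Dc

open MeasureTheory Filter Topology Set Complex Metric Function
open scoped ContDiff ComplexConjugate ENNReal NNReal

theorem IFb_inv (n : ℕ) : ∃ C : ℝ, 1 ≤ C ∧ ∀ (T : E n ≃L[ℂ] E n) (A : ℝ), 1 ≤ A →
    ‖(T : E n →L[ℂ] E n)‖ ≤ A →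
    ‖(T.symm : E n →L[ℂ] E n)‖ * ‖(T : E n →L[ℂ] E n).det‖ ≤ C * A ^ n := by
  obtain ⟨C, hC, h⟩ := norm_inverse_det n 1
  refine ⟨C, hC, fun T A hA hT => ?_⟩
  have hA0 : 0 < A := by linarith
  have hc : (A : ℂ) ≠ 0 := by exact_mod_cast hA0.ne'
  have hn : ‖(A : ℂ)‖ = A := by rw [Complex.norm_real, Real.norm_of_nonneg hA0.le]
  have h1 := h ((A : ℂ)⁻¹ • (T : E n →L[ℂ] E n)) (by
    rw [norm_smul, norm_inv, hn, inv_mul_le_iff₀ hA0, mul_one]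
    exact hT)
  have h2 : ((A : ℂ)⁻¹ • (T : E n →L[ℂ] E n)).inverse = (A : ℂ) • (T.symm : E n →L[ℂ] E n) := by
    apply ContinuousLinearMap.inverse_eq <;> ext1 v <;> simp [smul_smul, hc]
  have h3 : ((A : ℂ)⁻¹ • (T : E n →L[ℂ] E n)).det = (A : ℂ)⁻¹ ^ n * (T : E n →L[ℂ] E n).det := by
    rw [ContinuousLinearMap.det, ContinuousLinearMap.toLinearMap_smul, LinearMap.det_smul,
      finrank_euclideanSpace_fin]
  rw [h2, h3, norm_smul, norm_mul, norm_pow, norm_inv, hn, inv_pow] at h1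
  have h4 : 0 < A ^ n := by positivity
  set p := ‖(T.symm : E n →L[ℂ] E n)‖ * ‖(T : E n →L[ℂ] E n).det‖ with hp
  have hp0 : 0 ≤ p := by positivity
  have h5 : A * p / A ^ n ≤ C := by
    refine le_of_eq_of_le ?_ h1
    rw [hp]
    field_simp
  rw [div_le_iff₀ h4] at h5
  nlinarith

/-- Let `n = s + 1`, `T = fderiv ℂ Ξ y`, `A = 4 M / η ≥ ‖T‖`, `dl Ξ y ≠ 0` (else `rho_nonneg`).
`norm_inverse_det n 1` for `A⁻¹ • T` gives `‖T⁻¹‖ ≤ β = C A ^ n / ‖det T‖`, and `1 ≤ β A`. With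
`L = 16 M / η ^ 2`, `σ = 1 / (2 β L) ≤ η / 2` apply `ift_ball`; `w ↦ a (Ξ y + w • ev 0)` is a lift over
the disc of radius `min r (σ / (4 β))`, and
`σ / (4 β) = jac * (η / M) ^ (2 n) * η ^ 2 / (128 C ^ 2 16 ^ n M)`; `le_rho`. -/
theorem rho_lower (s : ℕ) : ∃ c : ℝ, 0 < c ∧ c ≤ 1 ∧ ∀ (Ξ : E (s + 1) → E (s + 1))
    (Ω : Set (E (s + 1))) (r η M : ℝ) (y : E (s + 1)), Fo Ξ Ω → 0 < r → 0 < η → η ≤ 1 → 1 ≤ M →
    ball y η ⊆ Ω → (∀ z ∈ Ω, ‖Ξ z‖ ≤ M) →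
    min r (c * jac Ξ y * (η / M) ^ (2 * s + 4)) ≤ rho Ξ Ω r y := by
  obtain ⟨C, hC, hI⟩ := IFb_inv (s + 1)
  have h16 : (1 : ℝ) ≤ 16 ^ (s + 1) := one_le_pow₀ (by norm_num)
  have hC2 : 1 ≤ C ^ 2 := one_le_pow₀ hC
  refine ⟨1 / (128 * C ^ 2 * 16 ^ (s + 1)), by positivity, ?_,
    fun Ξ Ω r η M y h hr hη hη1 hM hb hB => ?_⟩
  · rw [div_le_one (by positivity)]
    nlinarith
  by_cases hd : dl Ξ y = 0
  · refine (min_le_right _ _).trans ?_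
    rw [jac_eq, hd]
    simpa using rho_nonneg Ξ Ω r y
  obtain ⟨T, hT⟩ := exists_equiv hd
  have hcb := cauchy_bounds hη (h.cd.mono hb) fun z hz => hB z (hb hz)
  have hM0 : 0 < M := by linarith
  have hA : 1 ≤ 4 * M / η := by
    rw [le_div_iff₀ hη]
    linarith
  have hTA : ‖(T : E (s + 1) →L[ℂ] E (s + 1))‖ ≤ 4 * M / η := by
    rw [hT]
    exact (hcb y (mem_ball_self (by positivity))).1
  have h1 := hI T _ hA hTA
  have hd0 : 0 < ‖dl Ξ y‖ := norm_pos_iff.2 hd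
  rw [hT] at h1
  change _ * ‖dl Ξ y‖ ≤ _ at h1
  obtain ⟨β, hβ⟩ : ∃ β, β = C * (4 * M / η) ^ (s + 1) / ‖dl Ξ y‖ := ⟨_, rfl⟩
  have hβ0 : 0 < β := by rw [hβ]; positivity
  have h2 : ‖(T.symm : E (s + 1) →L[ℂ] E (s + 1))‖ ≤ β := by rwa [hβ, le_div_iff₀ hd0]
  have hev : ‖(ev 0 : E (s + 1))‖ = 1 := by simp [ev]
  have h3 : 1 ≤ β * (4 * M / η) := by
    have e1 := (T.symm : E (s + 1) →L[ℂ] E (s + 1)).le_of_opNorm_le h2 (T (ev 0))
    have e2 := (T : E (s + 1) →L[ℂ] E (s + 1)).le_of_opNorm_le hTA (ev 0)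
    rw [ContinuousLinearEquiv.coe_coe, T.symm_apply_apply, hev] at e1
    rw [ContinuousLinearEquiv.coe_coe, hev, mul_one] at e2
    exact e1.trans (mul_le_mul_of_nonneg_left e2 hβ0.le)
  obtain ⟨σ, hσ⟩ : ∃ σ, σ = 1 / (2 * β * (16 * M / η ^ 2)) := ⟨_, rfl⟩
  have hσ0 : 0 < σ := by rw [hσ]; positivity
  have hση : σ ≤ η / 2 := by
    rw [hσ, div_le_iff₀ (by positivity)]
    have : η / 2 * (2 * β * (16 * M / η ^ 2)) = 4 * (β * (4 * M / η)) := by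
      field_simp
      ring
    linarith
  have hsub : ball y σ ⊆ Ω := (ball_subset_ball (by linarith)).trans hb
  obtain ⟨h4, a, ha, ha0, ha1⟩ := ift_ball hσ0 hβ0
    ((h.cd.differentiableOn (by simp)).mono hsub) T h2 fun z hz => by
      rw [hT]
      refine (hcb z (ball_subset_ball hση hz)).2.trans ?_
      have e : 1 / (2 * β) = 16 * M / η ^ 2 * σ := by
        rw [hσ]
        field_simp
      rw [e]
      exact mul_le_mul_of_nonneg_left (mem_ball_iff_norm.1 hz).le (by positivity)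
  have hm : ∀ w ∈ ball (0 : ℂ) (min r (σ / (4 * β))),
      Ξ y + w • ev 0 ∈ ball (Ξ y) (σ / (4 * β)) := fun w hw => by
    rw [mem_ball_iff_norm, add_sub_cancel_left, norm_smul, hev, mul_one]
    exact (mem_ball_zero_iff.1 hw).trans_le (min_le_right _ _)
  have hl : Lf Ξ Ω y (ball 0 (min r (σ / (4 * β)))) fun w => a (Ξ y + w • ev 0) :=
    ⟨ha.comp (f := fun w : ℂ => Ξ y + w • ev 0) (by fun_prop) hm, by simpa using ha0,
      fun w hw => ⟨hsub (ha1 _ (hm w hw)).1, h4 _ (ha1 _ (hm w hw)).1⟩,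
      fun w hw => (ha1 _ (hm w hw)).2⟩
  refine (min_le_min_left r ?_).trans (le_rho hl (min_le_left _ _))
  have e : σ / (4 * β) =
      1 / (128 * C ^ 2 * 16 ^ (s + 1)) * jac Ξ y * (η / M) ^ (2 * s + 4) * M := by
    have e4 : (16 : ℝ) ^ (s + 1) = (4 ^ (s + 1)) ^ 2 := by
      rw [← pow_mul, mul_comm, pow_mul]
      norm_num
    rw [hσ, hβ, jac_eq, e4, div_pow, div_pow, mul_pow]
    field_simp
    ring
  rw [e]
  exact le_mul_of_one_le_right (by have := jac_nonneg Ξ y; positivity) hM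

end Pool.Agent.Lib.MP_a47f92_an.Dc
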