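import Pool.Agent.Lib.MP_a47f92_an.Dc.Def
import Pool.Agent.Lib.MP_a47f92_an.G.GW2
import Pool.Agent.Lib.MP_a47f92_an.MDisc

set_option autoImplicit false
set_option linter.unusedSectionVars false

namespace Pool.Agent.Lib.MP_a47f92_an.Dc

open MeasureTheory Filter Topology Set Complex Metric Function
open scoped ContDiff ComplexConjugate ENNReal NNReal

variable {s N : ℕ} {Ξ : E (s + 1) → E (s + 1)} {Ω : Set (E (s + 1))} {r : ℝ} {y : E (s + 1)}
  {ζ : ℂ}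

theorem jac_eq (Ξ : E (s + 1) → E (s + 1)) (y : E (s + 1)) : jac Ξ y = ‖dl Ξ y‖ ^ 2 := rfl

theorem jac_nonneg (Ξ : E (s + 1) → E (s + 1)) (y : E (s + 1)) : 0 ≤ jac Ξ y := sq_nonneg _

theorem jac_pos (hy : y ∈ Ur Ξ Ω) : 0 < jac Ξ y := pow_pos (norm_pos_iff.2 hy.2) 2

theorem Inv_detM {n : ℕ} {U : Type} [NormedAddCommGroup U] [NormedSpace ℂ U] {M : U → Mat n}
    (h : ∀ i j, ContDiff ℂ ∞ fun u => M u i j) : ContDiff ℂ ∞ fun u => (M u).det := by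
  simp only [Matrix.det_apply']
  exact ContDiff.sum fun σ _ => contDiff_const.mul (contDiff_prod fun i _ => h _ _)

theorem Inv_cmat {n : ℕ} (i j : Fin n) : ContDiff ℂ ∞ fun T : E n →L[ℂ] E n => cmat T i j :=
  (EuclideanSpace.proj (𝕜 := ℂ) i).contDiff.comp (contDiff_id.clm_apply contDiff_const)

theorem Inv_det {n : ℕ} : ContDiff ℂ ∞ fun T : E n →L[ℂ] E n => T.det := by
  simp only [← cmat_det]
  exact Inv_detM Inv_cmat

theorem Inv_adj : ContDiff ℂ ∞ fun T : E (s + 1) →L[ℂ] E (s + 1) =>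
    (WithLp.toLp 2 ((cmat T).adjugate.mulVec (Pi.single 0 1)) : E (s + 1)) := by
  refine contDiff_euclidean.2 fun i => ?_
  simp only [Matrix.mulVec_single_one, Matrix.col_apply, Matrix.adjugate_apply]
  refine Inv_detM fun a b => ?_
  simp only [Matrix.updateRow_apply]
  split_ifs
  · exact contDiff_const
  · exact Inv_cmat a b

/-- `cmat_det`, `Matrix.det_apply`; the entries of `fderiv ℂ Ξ` are smooth
(`ContDiffOn.fderiv_of_isOpen`). -/
theorem Fo.contDiffOn_dl (h : Fo Ξ Ω) : ContDiffOn ℂ ∞ (dl Ξ) Ω :=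
  Inv_det.comp_contDiffOn (h.cd.fderiv_of_isOpen h.op le_rfl)

/-- `Matrix.adjugate_apply`, `Matrix.det_apply`. -/
theorem Fo.contDiffOn_wv (h : Fo Ξ Ω) : ContDiffOn ℂ ∞ (wv Ξ) Ω :=
  Inv_adj.comp_contDiffOn (h.cd.fderiv_of_isOpen h.op le_rfl)

theorem Fo.contDiffOn_jac (h : Fo Ξ Ω) : ContDiffOn ℝ ∞ (jac Ξ) Ω :=
  (h.contDiffOn_dl.restrict_scalars ℝ).norm_sq ℂ

theorem Fo.isOpen_ur (h : Fo Ξ Ω) : IsOpen (Ur Ξ Ω) :=
  h.contDiffOn_dl.continuousOn.isOpen_inter_preimage h.op isOpen_compl_singleton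

/-- `Matrix.mul_adjugate`. -/
theorem fderiv_wv (Ξ : E (s + 1) → E (s + 1)) (y : E (s + 1)) :
    fderiv ℂ Ξ y (wv Ξ y) = dl Ξ y • ev 0 := by
  have h2 := LinearMap.toMatrix_mulVec_repr (EuclideanSpace.basisFun (Fin (s + 1)) ℂ).toBasis
    (EuclideanSpace.basisFun (Fin (s + 1)) ℂ).toBasis
    (fderiv ℂ Ξ y : E (s + 1) →ₗ[ℂ] E (s + 1)) (wv Ξ y)
  rw [← MDisc_cmat] at h2
  have h1 : (fun i => fderiv ℂ Ξ y (wv Ξ y) i) = (cmat (fderiv ℂ Ξ y)).mulVec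
      ((cmat (fderiv ℂ Ξ y)).adjugate.mulVec (Pi.single 0 1)) := h2.symm
  rw [Matrix.mulVec_mulVec, Matrix.mul_adjugate, Matrix.smul_mulVec, Matrix.one_mulVec,
    cmat_det] at h1
  ext i
  exact congrFun h1 i

theorem exists_equiv (hy : dl Ξ y ≠ 0) :
    ∃ A : E (s + 1) ≃L[ℂ] E (s + 1), (A : E (s + 1) →L[ℂ] E (s + 1)) = fderiv ℂ Ξ y :=
  ⟨_, ContinuousLinearMap.coe_toContinuousLinearEquivOfDetNeZero _ hy⟩

theorem Inv_strict (h : Fo Ξ Ω) (hy : y ∈ Ur Ξ Ω) : ∃ A : E (s + 1) ≃L[ℂ] E (s + 1),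
    HasStrictFDerivAt Ξ (A : E (s + 1) →L[ℂ] E (s + 1)) y := by
  obtain ⟨A, hA⟩ := exists_equiv hy.2
  refine ⟨A, ?_⟩
  rw [hA]
  exact (h.an y hy.1).hasStrictFDerivAt

/-- Inverse function theorem (`ContDiffAt.toOpenPartialHomeomorph`). -/
theorem Fo.loc_inj (h : Fo Ξ Ω) (hy : y ∈ Ur Ξ Ω) : ∃ U ∈ 𝓝 y, InjOn Ξ U := by
  obtain ⟨A, hA⟩ := Inv_strict h hy
  exact ⟨_, (hA.toOpenPartialHomeomorph Ξ).open_source.mem_nhds
    hA.mem_toOpenPartialHomeomorph_source, (hA.toOpenPartialHomeomorph Ξ).injOn⟩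

/-- `HasStrictFDerivAt.map_nhds_eq_of_equiv`; `g = Function.invFunOn Ξ W` agrees near `Ξ y` with the
local inverse. -/
theorem Fo.inv_on (h : Fo Ξ Ω) {W : Set (E (s + 1))} (hW : IsOpen W) (hU : W ⊆ Ur Ξ Ω)
    (hi : InjOn Ξ W) : IsOpen (Ξ '' W) ∧ ∃ g : E (s + 1) → E (s + 1),
      DifferentiableOn ℂ g (Ξ '' W) ∧ ∀ y ∈ W, g (Ξ y) = y := by
  refine ⟨isOpen_iff_mem_nhds.2 ?_, invFunOn Ξ W, ?_, fun y hy => hi.leftInvOn_invFunOn hy⟩
  · rintro _ ⟨y, hy, rfl⟩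
    obtain ⟨A, hA⟩ := Inv_strict h (hU hy)
    rw [← hA.map_nhds_eq_of_equiv]
    exact image_mem_map (hW.mem_nhds hy)
  · rintro _ ⟨y, hy, rfl⟩
    obtain ⟨A, hA⟩ := Inv_strict h (hU hy)
    exact (hA.to_local_left_inverse (g := invFunOn Ξ W) (Eventually.mono (hW.mem_nhds hy)
      fun z hz => hi.leftInvOn_invFunOn hz)).hasFDerivAt.differentiableAt.differentiableWithinAt

/-- `measurable_fderiv ℂ`, `ContinuousLinearMap.continuous_det`. -/
theorem measurable_jac (Ξ : E (s + 1) → E (s + 1)) : Measurable (jac Ξ) :=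
  (Inv_det.continuous.measurable.comp (measurable_fderiv ℂ Ξ)).norm.pow_const 2

/-- `measurable_gd` for the entries of `hess`, `measurable_fderiv ℂ` for `wv`. -/
theorem measurable_LL (Ξ : E (s + 1) → E (s + 1)) (q : E (s + 1) → ℝ) : Measurable (LL Ξ q) := by
  have h1 : Measurable (wv Ξ) := Inv_adj.continuous.measurable.comp (measurable_fderiv ℂ Ξ)
  have h2 : ∀ i, Measurable fun y => wv Ξ y i := fun i =>
    (EuclideanSpace.proj (𝕜 := ℂ) i).continuous.measurable.comp h1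
  have h3 : ∀ i j, Measurable fun y => hess q y i j := fun i j =>
    (measurable_gd (gb (ev j) (rc q))).comp (measurable_id.prodMk (measurable_const (a := ev i)))
  exact measurable_re.comp (Finset.measurable_sum _ fun i _ => Finset.measurable_sum _ fun j _ =>
    ((h2 i).mul (continuous_conj.measurable.comp (h2 j))).mul (h3 i j))

theorem measurable_ll (Ξ : E (s + 1) → E (s + 1)) (q : E (s + 1) → ℝ) : Measurable (ll Ξ q) :=
  (measurable_LL Ξ q).div (measurable_jac Ξ)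

theorem Ms.of_continuousOn (hΩ : IsOpen Ω) {g : E (s + 1) → ℝ} (hg : ContinuousOn g Ω) :
    Ms Ω g := by
  classical
  rw [Ms, ← piecewise_eq_indicator]
  exact hg.measurable_piecewise continuousOn_const hΩ.measurableSet

theorem Ms.of_measurable (hΩ : IsOpen Ω) {g : E (s + 1) → ℝ} (hg : Measurable g) : Ms Ω g :=
  hg.indicator hΩ.measurableSet

end Pool.Agent.Lib.MP_a47f92_an.Dc
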