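import Pool.Agent.Lib.MP_a47f92_an.Dc.Def
import Pool.Agent.Lib.MP_a47f92_an.G.SOS

set_option autoImplicit false
set_option linter.unusedSectionVars false

namespace Pool.Agent.Lib.MP_a47f92_an.Dc

open MeasureTheory Filter Topology Set Complex Metric Function
open scoped ContDiff ComplexConjugate ENNReal NNReal

/-! Calculus for the plane Laplacian `pl f z = 4 * lap f z 1`. Everything follows from the lemmas
`lap_*` of `G/GL`, `G/GW2`, `G/SOS` with `V = ℂ`, `v = 1`. -/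

variable {N : ℕ} {f g : ℂ → ℝ} {z : ℂ}

theorem pl_congr (h : f =ᶠ[𝓝 z] g) : pl f z = pl g z := by
  rw [pl, pl, lap_congr h]

theorem pl_add (hf : ContDiffAt ℝ 2 f z) (hg : ContDiffAt ℝ 2 g z) :
    pl (fun w => f w + g w) z = pl f z + pl g z := by
  rw [pl, pl, pl, lap_add hf hg, mul_add]

theorem pl_sub (hf : ContDiffAt ℝ 2 f z) (hg : ContDiffAt ℝ 2 g z) :
    pl (fun w => f w - g w) z = pl f z - pl g z := by
  have h : (fun w => f w - g w) = fun w => f w + -1 * g w := funext fun w => by ring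
  rw [h, pl, pl, pl, lap_add hf (contDiffAt_const.mul hg), lap_const_mul]
  ring

theorem pl_const_mul (c : ℝ) (f : ℂ → ℝ) (z : ℂ) : pl (fun w => c * f w) z = c * pl f z := by
  rw [pl, pl, lap_const_mul]
  ring

theorem pl_const (c : ℝ) (z : ℂ) : pl (fun _ => c) z = 0 := by
  rw [pl, lap_const, mul_zero]

/-- `lap_nonpos_of_isLocalMax`. -/
theorem pl_max (hf : ContDiffAt ℝ 2 f z) (hm : IsLocalMax f z) : pl f z ≤ 0 :=
  mul_nonpos_of_nonneg_of_nonpos (by norm_num) (lap_nonpos_of_isLocalMax hf hm 1)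

theorem Rad_cd (c z : ℂ) : ContDiffAt ℂ 2 (fun w : ℂ => w - c) z :=
  contDiffAt_id.sub contDiffAt_const

theorem Rad_fd (c z : ℂ) : fderiv ℂ (fun w : ℂ => w - c) z 1 = 1 := by
  rw [fderiv_sub_const, fderiv_fun_id, ContinuousLinearMap.id_apply]

/-- `lap_comp` with the translation. -/
theorem pl_shift (c : ℂ) (hf : ContDiffAt ℝ 2 f (z - c)) :
    pl (fun w => f (w - c)) z = pl f (z - c) := by
  rw [pl, pl, lap_comp (Φ := fun w : ℂ => w - c) (Rad_cd c z) hf, Rad_fd]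

/-- `lap_log_normC`. -/
theorem pl_log_norm {a : ℂ → ℂ} (ha : ContDiffAt ℂ 2 a z) (h0 : a z ≠ 0) :
    ContDiffAt ℝ 2 (fun w => Real.log ‖a w‖) z ∧ pl (fun w => Real.log ‖a w‖) z = 0 :=
  ⟨((ha.restrict_scalars ℝ).norm ℝ h0).log (norm_ne_zero_iff.2 h0),
    by rw [pl, lap_log_normC ha h0, mul_zero]⟩

/-- `re (a w) = log ‖exp (a w)‖`. -/
theorem pl_re {a : ℂ → ℂ} (ha : ContDiffAt ℂ 2 a z) :
    ContDiffAt ℝ 2 (fun w => (a w).re) z ∧ pl (fun w => (a w).re) z = 0 := by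
  have h := pl_log_norm ha.cexp (exp_ne_zero _)
  simpa only [norm_exp, Real.log_exp] using h

/-- `lap_normSqC`. -/
theorem pl_normSq (c z : ℂ) :
    ContDiffAt ℝ 2 (fun w => ‖w - c‖ ^ 2) z ∧ pl (fun w => ‖w - c‖ ^ 2) z = 4 :=
  ⟨((Rad_cd c z).restrict_scalars ℝ).norm_sq ℝ,
    by rw [pl, lap_normSqC (Rad_cd c z), Rad_fd, norm_one, one_pow, mul_one]⟩

theorem Rad_gd (c z : ℂ) : ‖gd 1 (rc fun w : ℂ => ‖w - c‖ ^ 2) z‖ = ‖z - c‖ := by
  have h : DifferentiableAt ℂ (fun w : ℂ => w - c) z := (Rad_cd c z).differentiableAt two_ne_zero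
  have h1 : DifferentiableAt ℝ (fun w : ℂ => conj (w - c)) z :=
    conjCLE.differentiableAt.comp z (h.restrictScalars ℝ)
  have e : (rc fun w : ℂ => ‖w - c‖ ^ 2) = fun w => (w - c) * conj (w - c) := funext fun w => by
    rw [mul_conj', rc, ofReal_pow]
  rw [e, gd_mul (h.restrictScalars ℝ) h1, gd_holo h, Rad_fd, gd_conj, gb_holo h, map_zero,
    mul_zero, add_zero, one_mul, RCLike.norm_conj]

theorem Rad_log (hf : ContDiffAt ℝ 2 f z) (h0 : f z ≠ 0) :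
    pl (fun w => Real.log (f w)) z = pl f z / f z - 4 * ‖gd 1 (rc f) z‖ ^ 2 / f z ^ 2 := by
  rw [pl, pl, lap_rcomp hf (Real.contDiffAt_log.2 h0), Real.deriv_log', deriv_inv']
  ring

theorem Rad_gd_aff (hf : ContDiffAt ℝ 2 f z) (A B : ℝ) :
    ‖gd 1 (rc fun w => A + B * f w) z‖ ^ 2 = B ^ 2 * ‖gd 1 (rc f) z‖ ^ 2 := by
  have h : HasDerivAt (fun s : ℝ => A + B * s) B (f z) := by
    simpa using ((hasDerivAt_id (f z)).const_mul B).const_add A
  rw [gd_rcomp (φ := fun s : ℝ => A + B * s) (hf.differentiableAt two_ne_zero) h, norm_mul,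
    mul_pow, norm_real, Real.norm_eq_abs, sq_abs]

theorem Rad_aff (hf : ContDiffAt ℝ 2 f z) (A B : ℝ) (h0 : A + B * f z ≠ 0) :
    ContDiffAt ℝ 2 (fun w => Real.log (A + B * f w)) z ∧ pl (fun w => Real.log (A + B * f w)) z =
      B * pl f z / (A + B * f z) - 4 * (B ^ 2 * ‖gd 1 (rc f) z‖ ^ 2) / (A + B * f z) ^ 2 := by
  have h1 : ContDiffAt ℝ 2 (fun w => B * f w) z := contDiffAt_const.mul hf
  have h2 : ContDiffAt ℝ 2 (fun w => A + B * f w) z := contDiffAt_const.add h1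
  refine ⟨h2.log h0, ?_⟩
  rw [Rad_log h2 h0, Rad_gd_aff hf, pl_add contDiffAt_const h1, pl_const, pl_const_mul, zero_add]

/-- `lap_rcomp`; `gd 1 (rc fun w => ‖w - c‖ ^ 2) z = conj (z - c)`. -/
theorem pl_rad {φ : ℝ → ℝ} (c z : ℂ) (hφ : ContDiffAt ℝ 2 φ (‖z - c‖ ^ 2)) :
    ContDiffAt ℝ 2 (fun w => φ (‖w - c‖ ^ 2)) z ∧ pl (fun w => φ (‖w - c‖ ^ 2)) z =
      4 * (deriv φ (‖z - c‖ ^ 2) + ‖z - c‖ ^ 2 * deriv (deriv φ) (‖z - c‖ ^ 2)) := by
  refine ⟨hφ.comp z (pl_normSq c z).1, ?_⟩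
  rw [pl, lap_rcomp (pl_normSq c z).1 hφ, Rad_gd, lap_normSqC (Rad_cd c z), Rad_fd]
  simp only [norm_one, one_pow]
  ring

theorem pl_log_add {R : ℝ} (hR : 0 < R) (z : ℂ) :
    ContDiffAt ℝ 2 (fun w : ℂ => Real.log (‖w‖ ^ 2 + R ^ 2)) z ∧
      pl (fun w => Real.log (‖w‖ ^ 2 + R ^ 2)) z = 4 * R ^ 2 / (‖z‖ ^ 2 + R ^ 2) ^ 2 := by
  have h := Rad_aff (pl_normSq 0 z).1 (R ^ 2) 1 (by positivity)
  rw [Rad_gd, (pl_normSq 0 z).2] at h
  simp only [sub_zero, one_mul, add_comm (R ^ 2)] at h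
  refine ⟨h.1, h.2.trans ?_⟩
  field_simp
  ring

/-- The Poincaré metric of the disc has curvature `-1`. -/
theorem pl_log_sub {r : ℝ} {t : ℂ} (h : ‖t + z‖ < r) :
    ContDiffAt ℝ 2 (fun w : ℂ => Real.log ((r ^ 2 - ‖t + w‖ ^ 2) / (2 * r))) z ∧
      pl (fun w => Real.log ((r ^ 2 - ‖t + w‖ ^ 2) / (2 * r))) z =
        -(2 * r / (r ^ 2 - ‖t + z‖ ^ 2)) ^ 2 := by
  have h0 := norm_nonneg (t + z)
  have hr : 0 < r := h0.trans_lt h
  have h1 : 0 < r ^ 2 - ‖t + z‖ ^ 2 := by nlinarith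
  have e : ∀ w : ℂ, r / 2 + -(2 * r)⁻¹ * ‖w - -t‖ ^ 2 = (r ^ 2 - ‖t + w‖ ^ 2) / (2 * r) :=
    fun w => by
      rw [sub_neg_eq_add, add_comm w t]
      field_simp
      ring
  have h2 := Rad_aff (pl_normSq (-t) z).1 (r / 2) (-(2 * r)⁻¹) (by rw [e]; positivity)
  rw [Rad_gd, (pl_normSq (-t) z).2] at h2
  simp only [e] at h2
  refine ⟨h2.1, h2.2.trans ?_⟩
  rw [sub_neg_eq_add, add_comm z t]
  field_simp
  ring

/-- The hyperbolic metric of the punctured disc has curvature `-1`. Near `z`,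
`log (hy r x) = - log x - log u` with `u = 1 + log r - log x`, `x = ‖w - c‖`; `u` is harmonic,
`‖gd 1 (rc u) z‖ = 1 / (2 x)` (`gd_log_normC`), use `lap_rcomp` with `φ = log`. -/
theorem pl_log_hy {r : ℝ} {c : ℂ} (h0 : z ≠ c) (h : ‖z - c‖ ≤ r) :
    ContDiffAt ℝ 2 (fun w : ℂ => Real.log (hy r ‖w - c‖)) z ∧
      pl (fun w => Real.log (hy r ‖w - c‖)) z = hy r ‖z - c‖ ^ 2 := by
  have h1 : z - c ≠ 0 := sub_ne_zero.2 h0
  have h2 : 0 < ‖z - c‖ := norm_pos_iff.2 h1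
  have hr : 0 < r := h2.trans_le h
  obtain ⟨a1, a2⟩ := pl_log_norm (Rad_cd c z) h1
  have h3 : 0 < 1 + Real.log r + -1 * Real.log ‖z - c‖ := by
    linarith [Real.log_le_log h2 h]
  obtain ⟨b1, b2⟩ := Rad_aff a1 (1 + Real.log r) (-1) h3.ne'
  have h4 : ContinuousAt (fun w : ℂ => 1 + Real.log r + -1 * Real.log ‖w - c‖) z :=
    continuousAt_const.add (continuousAt_const.mul a1.continuousAt)
  have e : (fun w : ℂ => Real.log (hy r ‖w - c‖)) =ᶠ[𝓝 z] fun w =>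
      -1 * Real.log ‖w - c‖ - Real.log (1 + Real.log r + -1 * Real.log ‖w - c‖) := by
    filter_upwards [h4.eventually (lt_mem_nhds h3), isOpen_ne.mem_nhds h0] with w h5 h6
    have h7 : ‖w - c‖ ≠ 0 := norm_ne_zero_iff.2 (sub_ne_zero.2 h6)
    have h8 : 1 + (Real.log r - Real.log ‖w - c‖) = 1 + Real.log r + -1 * Real.log ‖w - c‖ := by
      ring
    rw [hy, Real.log_inv, Real.log_div hr.ne' h7, h8, Real.log_mul h7 h5.ne']
    ring
  have a3 : ContDiffAt ℝ 2 (fun w : ℂ => -1 * Real.log ‖w - c‖) z := contDiffAt_const.mul a1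
  refine ⟨(a3.sub b1).congr_of_eventuallyEq e, ?_⟩
  rw [pl_congr e, pl_sub a3 b1, pl_const_mul, b2, a2,
    gd_log_normC ((Rad_cd c z).differentiableAt two_ne_zero) h1, Rad_fd, norm_div, norm_mul,
    norm_one, Complex.norm_two, hy, Real.log_div hr.ne' h2.ne',
    show 1 + (Real.log r - Real.log ‖z - c‖) = 1 + Real.log r + -1 * Real.log ‖z - c‖ by ring]
  generalize 1 + Real.log r + -1 * Real.log ‖z - c‖ = u at h3
  field_simp
  ring

end Pool.Agent.Lib.MP_a47f92_an.Dc
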