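import Pool.Agent.Lib.MP_a47f92_an.Dc.Lf
import Pool.Agent.Lib.MP_a47f92_an.Dc.Rad
import Pool.Agent.Lib.MP_a47f92_an.Dc.En
import Pool.Agent.Lib.MP_a47f92_an.Dc.Fub

set_option autoImplicit false
set_option linter.unusedSectionVars false

namespace Pool.Agent.Lib.MP_a47f92_an.Dc

open MeasureTheory Filter Topology Set Complex Metric Function
open scoped ContDiff ComplexConjugate ENNReal NNReal

variable {s N : ℕ} {Ξ : E (s + 1) → E (s + 1)} {Ω : Set (E (s + 1))} {r η M P γ : ℝ}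
  {H : E (s + 1) → E N} {G : E (s + 1) → ℂ} {χ p : E (s + 1) → ℝ} {y : E (s + 1)} {ζ : ℂ}

theorem Lap_lf {f : E (s + 1) → E N} (hf : NV f Ω) (hy : y ∈ Ω) : ContDiffAt ℝ 2 (lf f) y :=
  (SOS_lg (hf.ne y hy)).comp y ((hf.an y hy).contDiffAt.restrict_scalars ℝ)

theorem Lap_log (T : Tube Ξ Ω r η M P H G γ χ) (hy : y ∈ Ω) :
    ContDiffAt ℝ 2 (fun w => Real.log ‖G w‖) y :=
  (((T.gan y hy).contDiffAt.restrict_scalars ℝ).norm ℂ (T.gne y hy)).log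
    (norm_ne_zero_iff.2 (T.gne y hy))

theorem Lap_ll (Ξ : E (s + 1) → E (s + 1)) (p : E (s + 1) → ℝ) (y : E (s + 1)) :
    ll Ξ p y = ‖(dl Ξ y)⁻¹‖ ^ 2 * LL Ξ p y := by
  rw [ll, jac_eq, norm_inv, inv_pow, div_eq_inv_mul]

theorem Lap_deriv (h : Fo Ξ Ω) (hr : 0 < r) (hζ : ‖ζ‖ < rho Ξ Ω r y) {f : E (s + 1) → E N}
    (hf : DifferentiableAt ℂ f (tau Ξ Ω r y ζ)) : deriv (fun w => f (tau Ξ Ω r y w)) ζ =
      (dl Ξ (tau Ξ Ω r y ζ))⁻¹ • fderiv ℂ f (tau Ξ Ω r y ζ) (wv Ξ (tau Ξ Ω r y ζ)) := by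
  rw [← map_smul]
  exact (hf.hasFDerivAt.comp_hasDerivAt ζ (tau_hasDerivAt h hr hζ)).deriv

theorem LL_congr {a b : E (s + 1) → ℝ} (h : a =ᶠ[𝓝 y] b) : LL Ξ a y = LL Ξ b y := by
  rw [LL, LL, levi, levi, (hess_congr h).self_of_nhds]

theorem LL_const (Ξ : E (s + 1) → E (s + 1)) (c : ℝ) (y : E (s + 1)) :
    LL Ξ (fun _ => c) y = 0 :=
  levi_of_hess_eq_zero (hess_const c y) _

theorem NV.contDiffOn_lf {f : E (s + 1) → E N} (hf : NV f Ω) : ContDiffOn ℝ 2 (lf f) Ω :=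
  fun _ hy => (Lap_lf hf hy).contDiffWithinAt

/-- `lap_eq_levi`, `lap_log_norm`, `en_eq_prj`. -/
theorem LL_lf (hΩ : IsOpen Ω) {f : E (s + 1) → E N} (hf : NV f Ω) (hy : y ∈ Ω) :
    LL Ξ (lf f) y = en (f y) (fderiv ℂ f y (wv Ξ y)) / 2 := by
  rw [LL, ← lap_eq_levi (Lap_lf hf hy), en_eq_prj (hf.ne y hy), div_div, mul_comm]
  exact lap_log_norm (hf.an y hy).contDiffAt (hf.ne y hy) _

/-- `lap_add`, `lap_const_mul`, `lap_log_normC`. -/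
theorem Tube.LL_pot (T : Tube Ξ Ω r η M P H G γ χ) (hy : y ∈ Ω) :
    LL Ξ (pot H G γ) y = LL Ξ (lf H) y := by
  have e : pot H G γ = fun w => lf H w + -γ * Real.log ‖G w‖ := by
    funext w
    rw [pot, neg_mul, sub_eq_add_neg]
  have h1 : ContDiffAt ℝ 2 (fun w => -γ * Real.log ‖G w‖) y := contDiffAt_const.mul (Lap_log T hy)
  rw [e, LL, LL, levi_add (Lap_lf T.nv hy) h1, levi_const_mul, ← lap_eq_levi (Lap_log T hy),
    lap_log_normC (T.gan y hy).contDiffAt (T.gne y hy), mul_zero, add_zero]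

theorem Tube.pt (T : Tube Ξ Ω r η M P H G γ χ) : Pt Ξ Ω (pot H G γ) := by
  refine ⟨fun y hy => ?_, fun y hy => ?_, T.up⟩
  · exact ((Lap_lf T.nv hy).sub (contDiffAt_const.mul (Lap_log T hy))).contDiffWithinAt
  · rw [T.LL_pot hy, LL_lf T.fo.op T.nv hy]
    exact div_nonneg (en_nonneg _ _) two_pos.le

/-- The entries of `hess q` are continuous (`contDiffAt_gd`, `contDiffAt_gb`). -/
theorem continuousOn_LL (h : Fo Ξ Ω) (hp : ContDiffOn ℝ 2 p Ω) : ContinuousOn (LL Ξ p) Ω := by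
  have h1 : ∀ i, ContinuousOn (fun y => wv Ξ y i) Ω := fun i =>
    (EuclideanSpace.proj i).continuous.comp_continuousOn h.contDiffOn_wv.continuousOn
  have h2 : ∀ i j, ContinuousOn (fun y => hess p y i j) Ω := fun i j y hy =>
    (contDiffAt_hess (m := 0) (hp.contDiffAt (h.op.mem_nhds hy)) (zero_add _).le i
      j).continuousAt.continuousWithinAt
  exact continuous_re.comp_continuousOn (continuousOn_finsetSum _ fun i _ =>
    continuousOn_finsetSum _ fun j _ =>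
      ((h1 i).mul (continuous_conj.comp_continuousOn (h1 j))).mul (h2 i j))

theorem continuousOn_ll (h : Fo Ξ Ω) (hp : ContDiffOn ℝ 2 p Ω) :
    ContinuousOn (ll Ξ p) (Ur Ξ Ω) :=
  ((continuousOn_LL h hp).mono fun _ hy => hy.1).div
    (h.contDiffOn_jac.continuousOn.mono fun _ hy => hy.1) fun _ hy => (jac_pos hy).ne'

/-- `lap_comp`, `tau_contDiffAt`, `tau_hasDerivAt`, `lap_smul`, `lap_eq_levi`. -/
theorem pl_tau (h : Fo Ξ Ω) (hr : 0 < r) (hp : ContDiffOn ℝ 2 p Ω) (hζ : ‖ζ‖ < rho Ξ Ω r y) :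
    ContDiffAt ℝ 2 (fun w => p (tau Ξ Ω r y w)) ζ ∧
      pl (fun w => p (tau Ξ Ω r y w)) ζ = 4 * ll Ξ p (tau Ξ Ω r y ζ) := by
  have h1 := hp.contDiffAt (h.op.mem_nhds (tau_mem h hr hζ).1)
  have h2 := tau_contDiffAt h hr hζ
  refine ⟨h1.comp ζ (h2.restrict_scalars ℝ), ?_⟩
  rw [pl, lap_comp h2 h1, fderiv_apply_one_eq_deriv, (tau_hasDerivAt h hr hζ).deriv, lap_smul h1,
    lap_eq_levi h1, Lap_ll]
  rfl

theorem differentiableOn_comp_tau {F : Type} [NormedAddCommGroup F] [NormedSpace ℂ F]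
    (h : Fo Ξ Ω) (hr : 0 < r) {f : E (s + 1) → F} (hf : ContDiffOn ℂ ∞ f Ω) (y : E (s + 1)) :
    DifferentiableOn ℂ (fun w => f (tau Ξ Ω r y w)) (ball 0 (rho Ξ Ω r y)) :=
  (hf.differentiableOn (by simp)).comp (tau_spec h hr y).diff
    fun w hw => ((tau_spec h hr y).mem w hw).1

/-- `LL_lf`, `tau_hasDerivAt`, `en_smul`. -/
theorem ll_lf_tau (h : Fo Ξ Ω) (hr : 0 < r) {f : E (s + 1) → E N} (hf : NV f Ω)
    (hζ : ‖ζ‖ < rho Ξ Ω r y) : ll Ξ (lf f) (tau Ξ Ω r y ζ) =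
      en (f (tau Ξ Ω r y ζ)) (deriv (fun w => f (tau Ξ Ω r y w)) ζ) / 2 := by
  have hm := (tau_mem h hr hζ).1
  rw [Lap_deriv h hr hζ (hf.an _ hm).differentiableAt, en_smul, Lap_ll, LL_lf h.op hf hm,
    mul_div_assoc]

/-- `lap_normSq`, `tau_hasDerivAt`. -/
theorem ll_tq_tau (h : Fo Ξ Ω) (hr : 0 < r) (hζ : ‖ζ‖ < rho Ξ Ω r y) :
    ll Ξ tq (tau Ξ Ω r y ζ) = ‖deriv (fun w => tl (tau Ξ Ω r y w)) ζ‖ ^ 2 := by
  have h1 : ContDiff ℂ 2 (tl : E (s + 1) → E s) := contDiff_tl.of_le GW2_two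
  have h2 : ContDiff ℝ 2 (tq : E (s + 1) → ℝ) := (h1.restrict_scalars ℝ).norm_sq ℂ
  rw [Lap_deriv h hr hζ (h1.differentiable two_ne_zero _), norm_smul, mul_pow, Lap_ll, LL,
    ← lap_eq_levi h2.contDiffAt, ← lap_normSq h1.contDiffAt]
  rfl

end Pool.Agent.Lib.MP_a47f92_an.Dc
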