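import Pool.Agent.Lib.MP_a47f92_an.Dc.Small
import Pool.Agent.Lib.MP_a47f92_an.Dc.Good

set_option autoImplicit false
set_option linter.unusedSectionVars false

namespace Pool.Agent.Lib.MP_a47f92_an.Dc

open MeasureTheory Filter Topology Set Complex Metric Function
open scoped ContDiff ComplexConjugate ENNReal NNReal

theorem Main_div {a : ℝ} (ha : 0 < a) {x y : ℝ≥0∞} (h : ENNReal.ofReal a * x ≤ y) :
    x ≤ ENNReal.ofReal a⁻¹ * y := by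
  refine le_trans ?_ (mul_le_mul_right h _)
  rw [← mul_assoc, ← ENNReal.ofReal_mul (inv_pos.2 ha).le, inv_mul_cancel₀ ha.ne', ENNReal.ofReal_one,
    one_mul]

/-- The disc count. With `ε₀` from `good_disc`, `C₁` from `small`, `r' = r exp (-100 (K + 1))`,
`M' = M₂ exp (8 C₀) / r' ^ 2`, `C = C₁ + ε₀⁻¹`. Cover `B` by the sets where `de (lf H)`,
`de (lf X)`, `de tq` is at least `ε₀` (`markov_de`), where `r' ≤ rho` (`big_de`, `markov_sum` with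
`a = ofReal M₂`), and the rest (`good_disc`, `small`); `lintegral_union_le`. -/
theorem dc_main (s : ℕ) {ε : ℝ} (hε : 0 < ε) : ∃ C : ℝ, 1 ≤ C ∧
    ∀ K r M₂ C₀ : ℝ, 0 ≤ K → 0 < r → 1 ≤ M₂ → ∃ M' : ℝ, 0 ≤ M' ∧
    ∀ (N n : ℕ) (Ξ : E (s + 1) → E (s + 1)) (Ω : Set (E (s + 1))) (η M P : ℝ)
      (H : E (s + 1) → E N) (G : E (s + 1) → ℂ) (γ : ℝ) (χ : E (s + 1) → ℝ)
      (X : E (s + 1) → E n) (f : ℕ → E (s + 1) → E n) (J : ℕ) (B : Set (E s)),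
      Tube Ξ Ω r η M P H G γ χ → NV X Ω →
      (∀ j < J, NV (f j) Ω ∧ ∃ a : ℝ, ∀ y ∈ Ω, |lf (f j) y - a * Real.log ‖G y‖| ≤ C₀) →
      (∀ x ∈ B, cs 0 x ∈ Ω) →
      (∀ x ∈ B, ∀ y ∈ Ω, ‖y 0‖ ≤ r / 2 → ‖tl y - x‖ ≤ ε → Cl ε (X y) (X (cs 0 x)) → 1 / 2 ≤ χ y) →
      (∀ x ∈ B, Real.exp (pot H G γ (cs 0 x) - K) ≤ ‖dl Ξ (cs 0 x)‖) →
      (∀ x ∈ B, M' * jac Ξ (cs 0 x) < ∑ j ∈ Finset.range J, LL Ξ (lf (f j)) (cs 0 x)) →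
      cen Ξ B ≤ ENNReal.ofReal C * (tot Ξ Ω (lf H) + tot Ξ Ω (lf X) + tot Ξ Ω tq +
        ENNReal.ofReal M₂⁻¹ * ∑ j ∈ Finset.range J, tot Ξ Ω (lf (f j)) + err Ξ Ω r η M P χ) := by
  obtain ⟨ε₀, hε₀, hg⟩ := good_disc hε
  obtain ⟨C₁, hC₁, hs⟩ := small s
  have hi : 0 < ε₀⁻¹ := inv_pos.2 hε₀
  refine ⟨C₁ + ε₀⁻¹, by linarith, fun K r M₂ C₀ hK hr hM => ?_⟩
  set ρ := r * Real.exp (-100 * (K + 1)) with hρ
  have hρ0 : 0 < ρ := by positivity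
  have hρ1 : ρ ≤ r / 2 := by
    have h1 : Real.exp (-100 * (K + 1)) ≤ Real.exp (-1) := Real.exp_le_exp.2 (by linarith)
    have h2 := Real.exp_neg_one_lt_half
    rw [hρ]
    nlinarith
  have hκ : 0 < ρ ^ 2 * Real.exp (-8 * C₀) := by positivity
  refine ⟨M₂ / (ρ ^ 2 * Real.exp (-8 * C₀)), by positivity,
    fun N n Ξ Ω η M P H G γ χ X f J B T hX hf hΩ hχ hd hM' => ?_⟩
  have h := T.fo
  have hU : ∀ x ∈ B, cs 0 x ∈ Ur Ξ Ω := fun x hx =>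
    ⟨hΩ x hx, norm_pos_iff.1 ((Real.exp_pos _).trans_le (hd x hx))⟩
  let A : (E (s + 1) → ℝ) → Set (E s) := fun q => {x | ENNReal.ofReal ε₀ ≤ de Ξ Ω r q (cs 0 x)}
  have hA : ∀ q, cen Ξ (A q) ≤ ENNReal.ofReal ε₀⁻¹ * tot Ξ Ω q := fun q =>
    Main_div hε₀ (markov_de h hr q fun _ hx => hx)
  let B₄ : Set (E s) := {x | x ∈ B ∧ ρ ≤ rho Ξ Ω r (cs 0 x)}
  have h4 : cen Ξ B₄ ≤ ENNReal.ofReal M₂⁻¹ * ∑ j ∈ Finset.range J, tot Ξ Ω (lf (f j)) := by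
    refine Main_div (one_pos.trans_le hM) (markov_sum h hr (fun j => lf (f j)) J fun x hx => ?_)
    have key : ∀ j ∈ Finset.range J, 0 ≤ ll Ξ (lf (f j)) (cs 0 x) ∧ ENNReal.ofReal (ρ ^ 2 *
        Real.exp (-8 * C₀) * ll Ξ (lf (f j)) (cs 0 x)) ≤ de Ξ Ω r (lf (f j)) (cs 0 x) := by
      intro j hj
      obtain ⟨h1, a, h2⟩ := hf j (Finset.mem_range.1 hj)
      exact big_de h hr h1 T.gcd T.gne h2 hρ0 hx.2
    refine le_trans ?_ (Finset.sum_le_sum fun j hj => (key j hj).2)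
    rw [← ENNReal.ofReal_sum_of_nonneg fun j hj => mul_nonneg hκ.le (key j hj).1, ← Finset.mul_sum]
    refine ENNReal.ofReal_le_ofReal ?_
    have h1 := hM' x hx.1
    rw [← lt_div_iff₀ (jac_pos (hU x hx.1)), div_lt_iff₀' hκ, Finset.sum_div] at h1
    exact h1.le
  let B₅ : Set (E s) := {x | x ∈ B ∧ rho Ξ Ω r (cs 0 x) ≤ ρ ∧ x ∉ A (lf H) ∧ x ∉ A (lf X) ∧ x ∉ A tq}
  have h5 : cen Ξ B₅ ≤ ENNReal.ofReal C₁ * (tot Ξ Ω (lf H) + err Ξ Ω r η M P χ) := by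
    refine hs N Ξ Ω r η M P H G γ χ K B₅ T hK fun x hx => ⟨hΩ x hx.1, hd x hx.1, hx.2.1, ?_⟩
    intro w hw
    obtain ⟨hx, h1, h2, h3, h4⟩ := hx
    obtain ⟨g1, g2⟩ := hg s Ξ Ω r (cs 0 x) w h hr (hU x hx) hw
    have h0 := rho_pos h hr (hU x hx)
    have hw' : ‖w‖ < rho Ξ Ω r (cs 0 x) := by linarith
    refine ⟨hχ x hx _ (tau_mem h hr hw').1 ?_ (g1 (not_le.1 h4).le)
      (g2 n X hX (not_le.1 h3).le).1, (g2 N H T.nv (not_le.1 h2).le).2⟩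
    rw [tau_fst h hr hw', cs_zero, zero_add]
    linarith
  have hB : B ⊆ A (lf H) ∪ A (lf X) ∪ A tq ∪ B₄ ∪ B₅ := fun x hx => by
    by_contra hc
    simp only [mem_union, not_or] at hc
    obtain ⟨⟨⟨⟨h1, h2⟩, h3⟩, h4⟩, h5⟩ := hc
    exact h5 ⟨hx, le_of_not_ge fun h6 => h4 ⟨hx, h6⟩, h1, h2, h3⟩
  have hu : ∀ S S' : Set (E s), cen Ξ (S ∪ S') ≤ cen Ξ S + cen Ξ S' := fun S S' =>
    lintegral_union_le _ S S'
  have h6 : cen Ξ B ≤ cen Ξ (A (lf H)) + cen Ξ (A (lf X)) + cen Ξ (A tq) + cen Ξ B₄ + cen Ξ B₅ :=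
    (lintegral_mono_set hB).trans <| (hu _ _).trans <| add_le_add_left ((hu _ _).trans <|
      add_le_add_left ((hu _ _).trans <| add_le_add_left (hu _ _) _) _) _
  have h7 : (1 : ℝ≥0∞) ≤ ENNReal.ofReal C₁ := ENNReal.one_le_ofReal.2 hC₁
  refine (h6.trans (add_le_add (add_le_add (add_le_add (add_le_add (hA _) (hA _)) (hA _))
    (h4.trans (le_mul_of_one_le_left' h7))) h5)).trans ?_
  rw [ENNReal.ofReal_add (by linarith) hi.le]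
  generalize ENNReal.ofReal M₂⁻¹ * ∑ j ∈ Finset.range J, tot Ξ Ω (lf (f j)) = d
  refine le_iff_exists_add.2 ⟨ENNReal.ofReal C₁ * (tot Ξ Ω (lf X) + tot Ξ Ω tq) +
    ENNReal.ofReal ε₀⁻¹ * (d + err Ξ Ω r η M P χ), by ring⟩

end Pool.Agent.Lib.MP_a47f92_an.Dc
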