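import Pool.Agent.Lib.MP_a47f92_an.Dc.Up1

set_option autoImplicit false
set_option linter.unusedSectionVars false

namespace Pool.Agent.Lib.MP_a47f92_an.Dc

open MeasureTheory Filter Topology Set Complex Metric Function
open scoped ContDiff ComplexConjugate ENNReal NNReal

theorem Up2_le {α : Type} [MeasurableSpace α] (μ : Measure α) (f : α → ℝ) :
    ENNReal.ofReal (∫ x, f x ∂μ) ≤ ∫⁻ x, ENNReal.ofReal (f x) ∂μ := by
  by_cases hf : Integrable f μ
  · rw [integral_eq_lintegral_pos_part_sub_lintegral_neg_part hf]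
    exact (ENNReal.ofReal_le_ofReal (sub_le_self _ ENNReal.toReal_nonneg)).trans
      ENNReal.ofReal_toReal_le
  · rw [integral_undef hf, ENNReal.ofReal_zero]
    exact zero_le

/-- Take `C₁`, `e₀` from `nn_upper`, `C = C₁ + 2`, the limit from `Tube.up_lim`. Pointwise on `Ω`:
`nn * LL cut ≤ C₁ (1 + log (M / η) + P) |LL χ|` if `‖y 0‖ < r` and `= 0` otherwise (`nn_of_le`; off
`tsupport χ` the function `cut` vanishes near `y`; if `nn > 0` then `cut = χ` near `y`; `LL_congr`),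
and `cut * LL pot ≤ LL (lf H)` (`Tube.LL_pot`). Use
`ofReal (∫ f) ≤ ∫⁻ ofReal f` (true for every `f`: `ofReal_integral_eq_lintegral_ofReal` for the
positive part, or `integral_undef`). -/
theorem up_main (s : ℕ) : ∃ C : ℝ, 1 ≤ C ∧ ∀ (N : ℕ) (Ξ : E (s + 1) → E (s + 1))
    (Ω : Set (E (s + 1))) (r η M P : ℝ) (H : E (s + 1) → E N) (G : E (s + 1) → ℂ) (γ : ℝ)
    (χ : E (s + 1) → ℝ), Tube Ξ Ω r η M P H G γ χ → ∃ e₀ : ℝ, 0 < e₀ ∧ ∀ e, 0 < e → e ≤ e₀ →
      ∃ L : ℝ≥0∞, L ≤ ENNReal.ofReal C * (tot Ξ Ω (lf H) + err Ξ Ω r η M P χ) ∧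
        Tendsto (fun δ => ∫⁻ y in Ω, ENNReal.ofReal (jac Ξ y) * ENNReal.ofReal
          (cut Ξ e χ y * (av Ξ Ω r δ (sb Ξ Ω r (pot H G γ)) y / δ ^ 2))) (𝓝[>] 0) (𝓝 L) := by
  obtain ⟨C₁, hC, h⟩ := nn_upper s
  refine ⟨C₁ + 2, by linarith, fun N Ξ Ω r η M P H G γ χ T => ?_⟩
  obtain ⟨e₀, he₀, h1⟩ := h N Ξ Ω r η M P H G γ χ T
  refine ⟨e₀, he₀, fun e he hee => ?_⟩
  obtain ⟨S', -, hS, hl⟩ := T.up_lim he
  refine ⟨_, ?_, hl⟩
  have hSΩ : S' ⊆ Ω := fun y hy => (hS hy).1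
  have hΩ : MeasurableSet Ω := T.fo.op.measurableSet
  have hm : MeasurableSet {y : E (s + 1) | ‖y 0‖ < r} :=
    (isOpen_lt (by fun_prop) continuous_const).measurableSet
  have hA : ENNReal.ofReal (∫ y in S', nn Ξ Ω r (pot H G γ) y * LL Ξ (cut Ξ e χ) y) ≤
      ENNReal.ofReal C₁ * err Ξ Ω r η M P χ := by
    refine (Up2_le _ _).trans ((lintegral_mono_set hSΩ).trans ?_)
    rw [err, ← mul_assoc, ← ENNReal.ofReal_mul (by linarith),
      ← lintegral_const_mul' _ _ ENNReal.ofReal_ne_top, inter_comm, ← Measure.restrict_restrict hm,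
      ← lintegral_indicator hm]
    refine setLIntegral_mono' hΩ fun y hy => ?_
    rcases (nn_nonneg Ξ Ω r (pot H G γ) y).eq_or_lt with h0 | h0
    · rw [← h0, zero_mul, ENNReal.ofReal_zero]
      exact zero_le
    have h2 : ‖y 0‖ < r := not_le.1 fun h2 => h0.ne' (nn_of_le T.r_pos h2)
    rw [indicator_of_mem (show y ∈ {y : E (s + 1) | ‖y 0‖ < r} from h2)]
    by_cases h3 : y ∈ tsupport χ
    · obtain ⟨h4, h5⟩ := h1 y h3
      have h6 : ∀ᶠ z in 𝓝 y, e < jac Ξ z :=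
        (T.fo.contDiffOn_jac.continuousOn.continuousAt (T.fo.op.mem_nhds hy)).eventually
          (lt_mem_nhds (hee.trans_lt (h5 h0)))
      rw [LL_congr (show cut Ξ e χ =ᶠ[𝓝 y] χ from h6.mono fun z hz => cut_eq he hz.le),
        ← ENNReal.ofReal_mul (h0.le.trans h4)]
      exact ENNReal.ofReal_le_ofReal ((mul_le_mul_of_nonneg_left (le_abs_self _) h0.le).trans
        (mul_le_mul_of_nonneg_right h4 (abs_nonneg _)))
    · have h4 : cut Ξ e χ =ᶠ[𝓝 y] fun _ => 0 :=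
        notMem_tsupport_iff_eventuallyEq.1 fun h4 => h3 (tsupport_cut Ξ e χ h4)
      rw [LL_congr h4, LL_const, mul_zero, ENNReal.ofReal_zero]
      exact zero_le
  have hB : ENNReal.ofReal (∫ y in S', cut Ξ e χ y * LL Ξ (pot H G γ) y) ≤ tot Ξ Ω (lf H) := by
    refine (Up2_le _ _).trans ((lintegral_mono_set hSΩ).trans
      (setLIntegral_mono' hΩ fun y hy => ENNReal.ofReal_le_ofReal ?_))
    rw [← T.LL_pot hy]
    exact mul_le_of_le_one_left (T.pt.psh y hy) (T.cut_mem e y).2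
  refine ENNReal.ofReal_add_le.trans ?_
  rw [ENNReal.ofReal_mul zero_le_two, mul_add, add_comm]
  exact add_le_add (mul_le_mul' (ENNReal.ofReal_le_ofReal (by linarith)) hB)
    (hA.trans (mul_le_mul' (ENNReal.ofReal_le_ofReal (by linarith)) le_rfl))

end Pool.Agent.Lib.MP_a47f92_an.Dc
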