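import Pool.Agent.Lib.MP_a47f92_an.Dc.Disc
import Pool.Agent.Lib.MP_a47f92_an.Dc.Up2
import Pool.Agent.Lib.MP_a47f92_an.Dc.DD

set_option autoImplicit false
set_option linter.unusedSectionVars false

namespace Pool.Agent.Lib.MP_a47f92_an.Dc

open MeasureTheory Filter Topology Set Complex Metric Function
open scoped ContDiff ComplexConjugate ENNReal NNReal

/-- `C = 96 C₁` with `C₁`, `e₀` from `up_main`; `e = min e₀ (exp (-4 (1 + K) - 2 P))`. By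
`Tube.disc_u` and `Tube.low`, `jac ≥ e` and so `cut = χ ≥ 1 / 2` on the quarter discs; the centres lie
in `S = tsupport cut`, where `rho > δ₀` (`exists_nbhd`). For `0 < δ ≤ min δ₀ (δ₀ ^ 2 / (2 r))` apply
`dd_markov` to the measurable function `g = ofReal (cut * (av δ sb / δ ^ 2))` (`ms_av`, `ms_sb`; `cut`
vanishes where `rho ≤ δ`) with `a = ofReal (1 / 96)` (`disc_low`); `ge_of_tendsto`. -/
theorem small (s : ℕ) : ∃ C : ℝ, 1 ≤ C ∧ ∀ (N : ℕ) (Ξ : E (s + 1) → E (s + 1))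
    (Ω : Set (E (s + 1))) (r η M P : ℝ) (H : E (s + 1) → E N) (G : E (s + 1) → ℂ) (γ : ℝ)
    (χ : E (s + 1) → ℝ) (K : ℝ) (B : Set (E s)), Tube Ξ Ω r η M P H G γ χ → 0 ≤ K →
    (∀ x ∈ B, cs 0 x ∈ Ω ∧ Real.exp (pot H G γ (cs 0 x) - K) ≤ ‖dl Ξ (cs 0 x)‖ ∧
      rho Ξ Ω r (cs 0 x) ≤ r * Real.exp (-100 * (K + 1)) ∧
      ∀ w : ℂ, ‖w‖ ≤ 3 * rho Ξ Ω r (cs 0 x) / 4 → 1 / 2 ≤ χ (tau Ξ Ω r (cs 0 x) w) ∧
        ‖H (tau Ξ Ω r (cs 0 x) w)‖ ^ 2 ≤
          2 * ‖inner ℂ (un (H (cs 0 x))) (H (tau Ξ Ω r (cs 0 x) w))‖ ^ 2) →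
    cen Ξ B ≤ ENNReal.ofReal C * (tot Ξ Ω (lf H) + err Ξ Ω r η M P χ) := by
  obtain ⟨C₁, hC₁, hup⟩ := up_main s
  refine ⟨96 * C₁, by linarith, fun N Ξ Ω r η M P H G γ χ K B T hK hB => ?_⟩
  obtain ⟨e₀, he₀, hup⟩ := hup N Ξ Ω r η M P H G γ χ T
  have h := T.fo
  have hr := T.r_pos
  set e := min e₀ (Real.exp (-4 * (1 + K) - 2 * P))
  have he : 0 < e := lt_min he₀ (Real.exp_pos _)
  obtain ⟨L, hL, hlim⟩ := hup e he (min_le_left _ _)
  obtain ⟨hS, hSU, -, hm⟩ := T.cut_spec he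
  obtain ⟨δ₀, hδ₀, S', -, hSS, hρ, -⟩ := exists_nbhd h hr hS hSU
  have hU : ∀ x ∈ B, cs 0 x ∈ Ur Ξ Ω := fun x hx =>
    ⟨(hB x hx).1, norm_pos_iff.1 ((Real.exp_pos _).trans_le (hB x hx).2.1)⟩
  have hu : ∀ x ∈ B, ∀ w : ℂ, ‖w‖ ≤ rho Ξ Ω r (cs 0 x) / 4 → Real.exp (-4 * (1 + K)) ≤
      jac Ξ (tau Ξ Ω r (cs 0 x) w) * Real.exp (-2 * pot H G γ (tau Ξ Ω r (cs 0 x) w)) :=
    fun x hx w hw => T.disc_u (hB x hx).1 (hB x hx).2.1 (fun w hw => ((hB x hx).2.2.2 w hw).2) hw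
  have hc : ∀ x ∈ B, ∀ w : ℂ, ‖w‖ ≤ rho Ξ Ω r (cs 0 x) / 4 →
      1 / 2 ≤ cut Ξ e χ (tau Ξ Ω r (cs 0 x) w) := fun x hx w hw => by
    have h0 := rho_pos h hr (hU x hx)
    rw [cut_eq he]
    · exact ((hB x hx).2.2.2 w (by linarith)).1
    · refine (min_le_right _ _).trans ?_
      have h1 := T.low _ (tau_mem h hr (show ‖w‖ < rho Ξ Ω r (cs 0 x) by linarith)).1
      rw [Real.exp_sub, div_le_iff₀ (Real.exp_pos _)]
      exact (hu x hx w hw).trans (mul_le_mul_of_nonneg_left (Real.exp_le_exp.2 (by linarith))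
        (jac_nonneg _ _))
  have hev : ∀ᶠ δ in 𝓝[>] (0 : ℝ), ENNReal.ofReal 96⁻¹ * cen Ξ B ≤
      ∫⁻ y in Ω, ENNReal.ofReal (jac Ξ y) * ENNReal.ofReal
        (cut Ξ e χ y * (av Ξ Ω r δ (sb Ξ Ω r (pot H G γ)) y / δ ^ 2)) := by
    filter_upwards [Ioo_mem_nhdsGT (lt_min hδ₀ (show 0 < δ₀ ^ 2 / (2 * r) by positivity))]
      with δ hδ
    obtain ⟨h1, h2⟩ := lt_min_iff.1 hδ.2
    refine dd_markov h hr (ENNReal.measurable_ofReal.comp ?_) fun x hx => ?_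
    · have e1 : (fun y => cut Ξ e χ y * (av Ξ Ω r δ (sb Ξ Ω r (pot H G γ)) y / δ ^ 2)) = fun y =>
          cut Ξ e χ y * ({y | δ < rho Ξ Ω r y}.indicator (av Ξ Ω r δ (sb Ξ Ω r (pot H G γ))) y /
            δ ^ 2) := funext fun y => by
        by_cases hy : cut Ξ e χ y = 0
        · rw [hy, zero_mul, zero_mul]
        · rw [indicator_of_mem (s := {y | δ < rho Ξ Ω r y})
            (h1.trans (hρ y (hSS (subset_tsupport _ hy))))]
      rw [e1]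
      exact hm.mul ((ms_av h hr hδ.1 (ms_sb h hr T.pt)).div_const _)
    · have h0 := rho_pos h hr (hU x hx)
      have h3 : δ₀ < rho Ξ Ω r (cs 0 x) := by
        refine hρ _ (hSS (subset_tsupport _ ?_))
        have h4 := hc x hx 0 (by rw [norm_zero]; linarith)
        rw [tau_zero] at h4
        exact (one_half_pos.trans_le h4).ne'
      have h4 := disc_low h hr T.pt hK (hU x hx) (cs_zero 0 x) (hB x hx).2.2.1 (hu x hx) hδ.1
        (h2.le.trans (by gcongr))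
      refine le_trans ?_ (lintegral_mono_set (ball_subset_ball
        (show rho Ξ Ω r (cs 0 x) / 4 ≤ rho Ξ Ω r (cs 0 x) by linarith)))
      rw [show (96 : ℝ)⁻¹ = 1 / 2 * (1 / 48) by norm_num, ENNReal.ofReal_mul one_half_pos.le]
      refine (mul_le_mul_right h4 _).trans ?_
      rw [← lintegral_const_mul' _ _ ENNReal.ofReal_ne_top]
      refine setLIntegral_mono' measurableSet_ball fun w hw => ?_
      have h5 := hc x hx w (mem_ball_zero_iff.1 hw).le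
      rw [Function.comp_apply, ENNReal.ofReal_mul (one_half_pos.le.trans h5)]
      exact mul_le_mul_left (ENNReal.ofReal_le_ofReal h5) _
  have h1 := (ge_of_tendsto hlim hev).trans hL
  rw [ENNReal.ofReal_mul (by norm_num), mul_assoc]
  refine le_trans ?_ (mul_le_mul_right h1 _)
  rw [← mul_assoc, ← ENNReal.ofReal_mul (by norm_num), mul_inv_cancel₀ (by norm_num),
    ENNReal.ofReal_one, one_mul]

end Pool.Agent.Lib.MP_a47f92_an.Dc
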