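import Pool.Agent.Lib.MP_a47f92_an.Dc.Lf

set_option autoImplicit false
set_option linter.unusedSectionVars false

namespace Pool.Agent.Lib.MP_a47f92_an.Dc

open MeasureTheory Filter Topology Set Complex Metric Function
open scoped ContDiff ComplexConjugate ENNReal NNReal

variable {s N : ℕ} {Ξ : E (s + 1) → E (s + 1)} {Ω : Set (E (s + 1))} {r : ℝ} {y : E (s + 1)}
  {ζ : ℂ}

theorem Sup_img (h : Fo Ξ Ω) (hr : 0 < r) {w : ℂ} (h1 : ‖ζ‖ < rho Ξ Ω r y)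
    (h2 : ‖w - ζ‖ < rho Ξ Ω r (tau Ξ Ω r y ζ)) :
    Ξ (tau Ξ Ω r (tau Ξ Ω r y ζ) (w - ζ)) = Ξ y + w • ev 0 := by
  rw [tau_img h hr h2, tau_img h hr h1, add_assoc, ← add_smul, add_sub_cancel]

theorem Sup_diff (h : Fo Ξ Ω) (hr : 0 < r) (x : E (s + 1)) {w : ℂ} (h2 : ‖w - ζ‖ < rho Ξ Ω r x) :
    DifferentiableAt ℂ (fun w => tau Ξ Ω r x (w - ζ)) w :=
  ((tau_spec h hr x).diff.differentiableAt (isOpen_ball.mem_nhds (mem_ball_zero_iff.2 h2))).comp w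
    (differentiableAt_id.sub_const ζ)

theorem Sup_seg {a b : ℂ} {ρ α β : ℝ} (ha : ‖a‖ < ρ) (hb : ‖b‖ < ρ) (hα : 0 < α) (hβ : 0 < β)
    (h : ‖b - a‖ < α + β) : ∃ z : ℂ, ‖z‖ < ρ ∧ ‖z - a‖ < α ∧ ‖z - b‖ < β := by
  have h0 : 0 < α + β := add_pos hα hβ
  have h1 : 0 < α / (α + β) := div_pos hα h0
  have h2 : 0 < β / (α + β) := div_pos hβ h0
  have h3 : β / (α + β) + α / (α + β) = 1 := by
    rw [← add_div, add_comm, div_self h0.ne']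
  have h4 : α / (α + β) = 1 - β / (α + β) := by linarith
  refine ⟨(β / (α + β)) • a + (α / (α + β)) • b, mem_ball_zero_iff.1 (convex_ball (0 : ℂ) ρ
    (mem_ball_zero_iff.2 ha) (mem_ball_zero_iff.2 hb) h2.le h1.le h3), ?_, ?_⟩
  · have e : (β / (α + β)) • a + (α / (α + β)) • b - a = (α / (α + β)) • (b - a) := by
      rw [h4]
      module
    rw [e, norm_smul, Real.norm_of_nonneg h1.le, div_mul_eq_mul_div, div_lt_iff₀ h0]
    exact mul_lt_mul_of_pos_left h hα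
  · have e : (β / (α + β)) • a + (α / (α + β)) • b - b = (β / (α + β)) • (a - b) := by
      rw [h4]
      module
    rw [e, norm_smul, Real.norm_of_nonneg h2.le, div_mul_eq_mul_div, div_lt_iff₀ h0, norm_sub_rev]
    exact mul_lt_mul_of_pos_left h hβ

/-- The discs `D ζ = ball ζ (rho (tau y ζ))`, `‖ζ‖ < rho y`, carry compatible lifts: the convex set
`D ζ₁ ∩ D ζ₂` is nonempty, so it contains a point of the segment from `ζ₁` to `ζ₂`, where both lifts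
are equal to `tau y` (`tau_tau`); conclude by `lift_eq`. -/
theorem tau_compat (h : Fo Ξ Ω) (hr : 0 < r) {ζ₁ ζ₂ w : ℂ} (h1 : ‖ζ₁‖ < rho Ξ Ω r y)
    (h2 : ‖ζ₂‖ < rho Ξ Ω r y) (h3 : ‖w - ζ₁‖ < rho Ξ Ω r (tau Ξ Ω r y ζ₁))
    (h4 : ‖w - ζ₂‖ < rho Ξ Ω r (tau Ξ Ω r y ζ₂)) :
    tau Ξ Ω r (tau Ξ Ω r y ζ₁) (w - ζ₁) = tau Ξ Ω r (tau Ξ Ω r y ζ₂) (w - ζ₂) := by
  have h5 : ‖ζ₂ - ζ₁‖ < rho Ξ Ω r (tau Ξ Ω r y ζ₁) + rho Ξ Ω r (tau Ξ Ω r y ζ₂) := by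
    have h6 := norm_sub_le (w - ζ₁) (w - ζ₂)
    rw [sub_sub_sub_cancel_left] at h6
    linarith
  obtain ⟨z, z0, z1, z2⟩ := Sup_seg h1 h2 ((norm_nonneg _).trans_lt h3)
    ((norm_nonneg _).trans_lt h4) h5
  refine lift_eq h (O := ball ζ₁ (rho Ξ Ω r (tau Ξ Ω r y ζ₁)) ∩ ball ζ₂ (rho Ξ Ω r (tau Ξ Ω r y ζ₂)))
    (a := fun w => tau Ξ Ω r (tau Ξ Ω r y ζ₁) (w - ζ₁))
    (b := fun w => tau Ξ Ω r (tau Ξ Ω r y ζ₂) (w - ζ₂))
    ((convex_ball _ _).inter (convex_ball _ _)).isPreconnected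
    (fun u hu => (Sup_diff h hr _ (mem_ball_iff_norm.1 hu.1)).continuousAt.continuousWithinAt)
    (fun u hu => (Sup_diff h hr _ (mem_ball_iff_norm.1 hu.2)).continuousAt.continuousWithinAt)
    (fun u hu => tau_mem h hr (mem_ball_iff_norm.1 hu.1)) (fun u hu => ?_) (z := z)
    ⟨mem_ball_iff_norm.2 z1, mem_ball_iff_norm.2 z2⟩ ?_
    ⟨mem_ball_iff_norm.2 h3, mem_ball_iff_norm.2 h4⟩
  · rw [Sup_img h hr h1 (mem_ball_iff_norm.1 hu.1), Sup_img h hr h2 (mem_ball_iff_norm.1 hu.2)]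
  · rw [tau_tau h hr h1 z1 (by rwa [add_sub_cancel]), tau_tau h hr h2 z2 (by rwa [add_sub_cancel]),
      add_sub_cancel, add_sub_cancel]

/-- Otherwise the open union `O` of the discs `D ζ` contains `closedBall 0 (rho y)`, hence a larger
disc of radius at most `r` (`IsCompact.exists_thickening_subset_open`, `thickening_closedBall`), and
the lifts glue to a lift over `O` (`tau_compat`), against `le_rho`. -/
theorem exists_sup (h : Fo Ξ Ω) (hr : 0 < r) (hy : y ∈ Ur Ξ Ω) (hρ : rho Ξ Ω r y < r) :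
    ∃ c : ℂ, ‖c‖ = rho Ξ Ω r y ∧
      ∀ w : ℂ, ‖w‖ < rho Ξ Ω r y → rho Ξ Ω r (tau Ξ Ω r y w) ≤ ‖w - c‖ := by
  classical
  by_contra hc
  push Not at hc
  have h0 := rho_pos h hr hy
  let O : Set ℂ := {w | ∃ ζ, ‖ζ‖ < rho Ξ Ω r y ∧ ‖w - ζ‖ < rho Ξ Ω r (tau Ξ Ω r y ζ)}
  have hb : ∀ {w ζ : ℂ}, ‖w - ζ‖ < rho Ξ Ω r (tau Ξ Ω r y ζ) →
      ∀ᶠ u in 𝓝 w, ‖u - ζ‖ < rho Ξ Ω r (tau Ξ Ω r y ζ) := fun hw =>
    ((continuous_id.sub continuous_const).norm.continuousAt).eventually_lt continuousAt_const hw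
  have hO : IsOpen O := isOpen_iff_mem_nhds.2 fun w ⟨ζ, h1, h2⟩ =>
    (hb h2).mono fun u hu => ⟨ζ, h1, hu⟩
  have hK : closedBall (0 : ℂ) (rho Ξ Ω r y) ⊆ O := fun w hw => by
    rcases (mem_closedBall_zero_iff.1 hw).eq_or_lt with e | e
    · obtain ⟨ζ, h1, h2⟩ := hc w e
      exact ⟨ζ, h1, by rwa [norm_sub_rev]⟩
    · exact ⟨w, e, by rw [sub_self, norm_zero]; exact rho_pos h hr (tau_mem h hr e)⟩
  obtain ⟨δ, hδ, hT⟩ := (isCompact_closedBall _ _).exists_thickening_subset_open hO hK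
  rw [thickening_closedBall hδ h0.le] at hT
  let a : ℂ → E (s + 1) := fun w =>
    if hw : w ∈ O then tau Ξ Ω r (tau Ξ Ω r y hw.choose) (w - hw.choose) else y
  have ha : ∀ {w ζ : ℂ}, ‖ζ‖ < rho Ξ Ω r y → ‖w - ζ‖ < rho Ξ Ω r (tau Ξ Ω r y ζ) →
      a w = tau Ξ Ω r (tau Ξ Ω r y ζ) (w - ζ) := fun {w ζ} h1 h2 => by
    have hw : w ∈ O := ⟨ζ, h1, h2⟩
    simp only [a, dif_pos hw]
    exact tau_compat h hr hw.choose_spec.1 h1 hw.choose_spec.2 h2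
  have hs : ball (0 : ℂ) (min (δ + rho Ξ Ω r y) r) ⊆ O :=
    (ball_subset_ball (min_le_left _ _)).trans hT
  have hl : Lf Ξ Ω y (ball 0 (min (δ + rho Ξ Ω r y) r)) a := by
    refine ⟨fun w hw => ?_, ?_, fun w hw => ?_, fun w hw => ?_⟩
    · obtain ⟨ζ, h1, h2⟩ := hs hw
      exact ((Sup_diff h hr _ h2).congr_of_eventuallyEq
        ((hb h2).mono fun u hu => ha h1 hu)).differentiableWithinAt
    · rw [ha (ζ := 0) (by rwa [norm_zero]) (by rwa [sub_self, norm_zero, tau_zero]), sub_self,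
        tau_zero, tau_zero]
    · obtain ⟨ζ, h1, h2⟩ := hs hw
      rw [ha h1 h2]
      exact tau_mem h hr h2
    · obtain ⟨ζ, h1, h2⟩ := hs hw
      rw [ha h1 h2]
      exact Sup_img h hr h1 h2
  exact absurd (le_rho hl (min_le_right _ _)) (not_le.2 (lt_min (by linarith) hρ))

end Pool.Agent.Lib.MP_a47f92_an.Dc
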