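import Pool.Agent.Lib.MP_a47f92_an.Dc.Visc

set_option autoImplicit false
set_option linter.unusedSectionVars false

namespace Pool.Agent.Lib.MP_a47f92_an.Dc

open MeasureTheory Filter Topology Set Complex Metric Function
open scoped ContDiff ComplexConjugate ENNReal NNReal

variable {R b δ : ℝ} {z : ℂ}

theorem Tf_cont (δ : ℝ) {u : ℂ → ℝ} (hu : Continuous u) :
    Continuous fun z => Real.circleAverage u z δ := by
  have h : Continuous (uncurry fun (z : ℂ) (θ : ℝ) => u (circleMap z δ θ)) :=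
    hu.comp (by unfold circleMap; fun_prop)
  exact continuous_const.mul
    (intervalIntegral.continuous_parametric_intervalIntegral_of_continuous' h _ _)

theorem Tf_swap {F : ℝ → ℂ → ℝ} {K : Set ℂ} (hK : IsCompact K) (hF : Continuous (uncurry F))
    (h0 : ∀ θ, ∀ z ∉ K, F θ z = 0) (a b : ℝ) :
    ∫ θ in a..b, ∫ z, F θ z = ∫ z, ∫ θ in a..b, F θ z := by
  apply intervalIntegral_integral_swap
  rw [Measure.restrict_prod_eq_prod_univ]
  have h1 : IntegrableOn (uncurry F) (uIcc a b ×ˢ K) ((volume : Measure ℝ).prod volume) :=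
    hF.continuousOn.integrableOn_compact (isCompact_uIcc.prod hK)
  refine h1.of_forall_sdiff_eq_zero (measurableSet_uIoc.prod MeasurableSet.univ) fun p hp => ?_
  exact h0 p.1 p.2 fun h => hp.2 ⟨uIoc_subset_uIcc hp.1.1, h⟩

theorem Tf_map (z : ℂ) (δ θ : ℝ) : circleMap z (-δ) θ = z - circleMap 0 δ θ := by
  simp only [circleMap, ofReal_neg]
  ring

/-- the supporting function -/
noncomputable def Tf_psi (R : ℝ) (w : ℂ) : ℝ :=
  Real.log (‖w‖ ^ 2 + R ^ 2) - (Real.log 2 + 2 * Real.log ‖w‖)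

theorem Tf_eq (hb : 0 < b) (hz : b < ‖z‖) : tf R b z = max 0 (Tf_psi R z) := by
  have h0 : ‖z‖ ≠ 0 := (hb.trans hz).ne'
  rw [tf, Tf_psi, max_eq_left hz.le, Real.log_mul two_ne_zero (pow_ne_zero 2 h0), Real.log_pow]
  norm_num

theorem Tf_pl (hR : 0 < R) (hz : z ≠ 0) : ContDiffAt ℝ 2 (Tf_psi R) z ∧
    pl (Tf_psi R) z = 4 * R ^ 2 / (‖z‖ ^ 2 + R ^ 2) ^ 2 := by
  obtain ⟨a1, a2⟩ := pl_log_add hR z
  obtain ⟨b1, b2⟩ := pl_log_norm (a := fun w => w) (z := z) contDiffAt_id hz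
  have c1 : ContDiffAt ℝ 2 (fun w : ℂ => 2 * Real.log ‖w‖) z := contDiffAt_const.mul b1
  have c2 : ContDiffAt ℝ 2 (fun w : ℂ => Real.log 2 + 2 * Real.log ‖w‖) z :=
    contDiffAt_const.add c1
  refine ⟨a1.sub c2, ?_⟩
  unfold Tf_psi
  rw [pl_sub a1 c2, pl_add contDiffAt_const c1, pl_const, pl_const_mul, a2, b2]
  ring

theorem Tf_norm {w : ℂ} (hw : w ∈ closedBall z δ) : ‖z‖ - δ ≤ ‖w‖ ∧ ‖w‖ ≤ ‖z‖ + δ := by
  rw [mem_closedBall, dist_eq_norm] at hw
  have := abs_le.1 ((abs_norm_sub_norm_le w z).trans hw)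
  constructor <;> linarith [this.1, this.2]

theorem continuous_ad (δ : ℝ) {u : ℂ → ℝ} (hu : Continuous u) : Continuous (ad δ u) :=
  (Tf_cont δ hu).sub hu

/-- Fubini (`integral_integral_swap`), translation invariance, and the symmetry `θ ↦ θ + π` of the
circle (`Real.circleAverage_eq_integral_add`). -/
theorem ad_symm (δ : ℝ) {φ u : ℂ → ℝ} (hφ : Continuous φ) (hc : HasCompactSupport φ)
    (hu : Continuous u) : ∫ z, φ z * ad δ u z = ∫ z, u z * ad δ φ z := by
  obtain ⟨ρ, hρ⟩ := hc.isCompact.isBounded.subset_closedBall 0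
  have hK : IsCompact (closedBall (0 : ℂ) (ρ + |δ|)) := isCompact_closedBall _ _
  have h0 : ∀ z, ρ < ‖z‖ → φ z = 0 := fun z hz => image_eq_zero_of_notMem_tsupport fun h =>
    absurd (mem_closedBall_zero_iff.1 (hρ h)) (not_le.2 hz)
  have h1 : ∀ z ∉ closedBall (0 : ℂ) (ρ + |δ|), φ z = 0 := fun z hz => h0 z (by
    rw [mem_closedBall_zero_iff, not_le] at hz
    linarith [abs_nonneg δ])
  have h2 : ∀ θ, ∀ z ∉ closedBall (0 : ℂ) (ρ + |δ|), φ (circleMap z (-δ) θ) = 0 :=
    fun θ z hz => h0 _ (by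
      rw [mem_closedBall_zero_iff, not_le] at hz
      have h3 := norm_sub_norm_le z (circleMap 0 δ θ)
      rw [norm_circleMap_zero] at h3
      rw [Tf_map]
      linarith)
  have hi : ∀ {g : ℂ → ℝ}, Continuous g → (∀ z ∉ closedBall (0 : ℂ) (ρ + |δ|), g z = 0) →
      Integrable g := fun hg h => hg.integrable_of_hasCompactSupport (.intro hK h)
  have i1 : Integrable fun z => φ z * Real.circleAverage u z δ :=
    hi (hφ.mul (Tf_cont δ hu)) fun z hz => by rw [h1 z hz, zero_mul]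
  have i2 : Integrable fun z => u z * Real.circleAverage φ z δ :=
    hi (hu.mul (Tf_cont δ hφ)) fun z hz => by
      rw [← Real.circleAverage_neg_radius, Real.circleAverage_def]
      simp [h2 _ z hz]
  have i3 : Integrable fun z => φ z * u z := hi (hφ.mul hu) fun z hz => by rw [h1 z hz, zero_mul]
  have i4 : Integrable fun z => u z * φ z := by simpa only [mul_comm] using i3
  have e1 := Tf_swap (F := fun θ z => φ z * u (circleMap z δ θ)) hK
    ((hφ.comp continuous_snd).mul (hu.comp (by unfold circleMap; fun_prop)))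
    (fun θ z hz => by rw [h1 z hz, zero_mul]) 0 (2 * Real.pi)
  have e2 := Tf_swap (F := fun θ z => u z * φ (circleMap z (-δ) θ)) hK
    ((hu.comp continuous_snd).mul (hφ.comp (by unfold circleMap; fun_prop)))
    (fun θ z hz => by rw [h2 θ z hz, mul_zero]) 0 (2 * Real.pi)
  have e3 : ∀ θ, ∫ z, φ z * u (circleMap z δ θ) = ∫ z, u z * φ (circleMap z (-δ) θ) := fun θ => by
    rw [← integral_add_right_eq_self (fun z => u z * φ (circleMap z (-δ) θ)) (circleMap 0 δ θ)]
    refine integral_congr_ae (Eventually.of_forall fun z => ?_)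
    simp only [Tf_map, add_sub_cancel_right]
    rw [mul_comm]
    simp only [circleMap, zero_add]
  have e4 : ∫ z, φ z * Real.circleAverage u z δ = ∫ z, u z * Real.circleAverage φ z δ := by
    simp only [e3] at e1
    rw [e1] at e2
    simp only [intervalIntegral.integral_const_mul] at e2
    simp only [← Real.circleAverage_neg_radius (f := φ) (R := δ)]
    simp only [Real.circleAverage_def, smul_eq_mul, mul_left_comm _ (2 * Real.pi)⁻¹,
      integral_const_mul, e2]
  simp only [ad, mul_sub]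
  rw [integral_sub i1 i3, integral_sub i2 i4, e4]
  simp only [mul_comm]

theorem tf_continuous (hb : 0 < b) : Continuous (tf R b) := by
  have h1 : Continuous fun z : ℂ => max ‖z‖ b ^ 2 := by fun_prop
  have h2 : ∀ z : ℂ, 0 < max ‖z‖ b ^ 2 := fun z => pow_pos (lt_max_of_lt_right hb) 2
  exact continuous_const.max (((h1.add continuous_const).log fun z =>
    (add_pos_of_pos_of_nonneg (h2 z) (sq_nonneg R)).ne').sub
    ((continuous_const.mul h1).log fun z => (mul_pos two_pos (h2 z)).ne'))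

theorem tf_nonneg (R b : ℝ) (z : ℂ) : 0 ≤ tf R b z := le_max_left _ _

theorem tf_zero (hb : 0 < b) (hR : b ≤ R) (hz : R ≤ ‖z‖) : tf R b z = 0 := by
  have h0 : 0 < R := hb.trans_le hR
  rw [tf, max_eq_left (hR.trans hz), max_eq_left]
  exact sub_nonpos.2 (Real.log_le_log (by positivity) (by nlinarith))

theorem tf_le (hb : 0 < b) (hR : b ≤ R) (z : ℂ) : tf R b z ≤ 2 * Real.log (R / b) := by
  have ht : 1 ≤ R / b := (one_le_div hb).2 hR
  have hm : b ≤ max ‖z‖ b := le_max_right _ _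
  refine max_le (mul_nonneg two_pos.le (Real.log_nonneg ht)) ?_
  set m := max ‖z‖ b
  set t := R / b with ht'
  have hm0 : 0 < m := hb.trans_le hm
  have ht0 : 0 < t := one_pos.trans_le ht
  have e : R = t * b := by rw [ht', div_mul_cancel₀ _ hb.ne']
  have h1 : m ^ 2 + R ^ 2 ≤ t ^ 2 * (2 * m ^ 2) := by
    have a1 : 1 ≤ t ^ 2 := one_le_pow₀ ht
    have a2 : b ^ 2 ≤ m ^ 2 := pow_le_pow_left₀ hb.le hm 2
    rw [e, mul_pow]
    nlinarith [mul_le_mul_of_nonneg_left a2 (sq_nonneg t),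
      mul_le_mul_of_nonneg_right a1 (sq_nonneg m)]
  have h2 := Real.log_le_log (by positivity) h1
  rw [Real.log_mul (by positivity) (by positivity), Real.log_pow] at h2
  push_cast at h2
  linarith

/-- `visc`; the supporting function is `0` or
`ψ w = log (‖w‖ ^ 2 + R ^ 2) - (log 2 + 2 * log ‖w‖)` (`pl_log_add`, `pl_log_norm`). -/
theorem ad_tf_nonneg (hb : 0 < b) (hR : b ≤ R) (hδ : 0 < δ) (hz : b + δ < ‖z‖) :
    0 ≤ ad δ (tf R b) z := by
  refine visc hδ (tf_continuous hb).continuousOn fun w hw => ?_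
  have h1 : b < ‖w‖ := by linarith [(Tf_norm (ball_subset_closedBall hw)).1]
  rcases le_total (Tf_psi R w) 0 with h | h
  · exact ⟨fun _ => 0, contDiffAt_const, (pl_const 0 w).ge, by rw [Tf_eq hb h1, max_eq_left h],
      Eventually.of_forall fun v => tf_nonneg R b v⟩
  · obtain ⟨a1, a2⟩ := Tf_pl (hb.trans_le hR) (norm_pos_iff.1 (hb.trans h1))
    refine ⟨Tf_psi R, a1, by rw [a2]; positivity, by rw [Tf_eq hb h1, max_eq_right h], ?_⟩
    filter_upwards [(isOpen_lt continuous_const continuous_norm).mem_nhds h1] with v hv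
    rw [Tf_eq hb hv]
    exact le_max_right _ _

/-- On the closed disc `tf = ψ` and `pl ψ ≥ 1 / R ^ 2`; `ad_congr`, `ad_ge`. -/
theorem ad_tf_ge (hb : 0 < b) (hδ : 0 < δ) (hz : b + δ < ‖z‖) (hz' : ‖z‖ + δ < R) :
    δ ^ 2 / (4 * R ^ 2) ≤ ad δ (tf R b) z := by
  have hR : 0 < R := by linarith [norm_nonneg z]
  have h1 : ∀ w ∈ closedBall z δ, b < ‖w‖ ∧ ‖w‖ < R := fun w hw =>
    ⟨by linarith [(Tf_norm hw).1], by linarith [(Tf_norm hw).2]⟩
  have h2 : EqOn (tf R b) (Tf_psi R) (closedBall z δ) := fun w hw => by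
    obtain ⟨a1, a2⟩ := h1 w hw
    have a0 : 0 < ‖w‖ := hb.trans a1
    rw [Tf_eq hb a1, max_eq_right]
    have h3 : Real.log (2 * ‖w‖ ^ 2) ≤ Real.log (‖w‖ ^ 2 + R ^ 2) :=
      Real.log_le_log (by positivity) (by nlinarith)
    rw [Real.log_mul two_ne_zero (by positivity), Real.log_pow] at h3
    push_cast at h3
    exact sub_nonneg.2 h3
  rw [ad_congr hδ h2]
  refine le_of_eq_of_le (by field_simp) (ad_ge (a := 1 / R ^ 2) hδ
    (fun w hw => (Tf_pl hR (norm_pos_iff.1 (hb.trans (h1 w hw).1))).1) fun w hw => ?_)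
  obtain ⟨a1, a2⟩ := h1 w (ball_subset_closedBall hw)
  rw [(Tf_pl hR (norm_pos_iff.1 (hb.trans a1))).2, div_le_div_iff₀ (by positivity) (by positivity)]
  have a3 : ‖w‖ ^ 2 + R ^ 2 ≤ 2 * R ^ 2 := by nlinarith [norm_nonneg w]
  have a4 := pow_le_pow_left₀ (by positivity) a3 2
  nlinarith

end Pool.Agent.Lib.MP_a47f92_an.Dc
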