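import Pool.Agent.Lib.MP_a47f92_an.Dc.Wt2
import Pool.Agent.Lib.MP_a47f92_an.Dc.Cov

set_option autoImplicit false
set_option linter.unusedSectionVars false

namespace Pool.Agent.Lib.MP_a47f92_an.Dc

open MeasureTheory Filter Topology Set Complex Metric Function
open scoped ContDiff ComplexConjugate ENNReal NNReal

variable {s N : ℕ} {Ξ : E (s + 1) → E (s + 1)} {Ω : Set (E (s + 1))} {r η M P γ : ℝ}
  {H : E (s + 1) → E N} {G : E (s + 1) → ℂ} {χ p : E (s + 1) → ℝ} {y : E (s + 1)} {ζ : ℂ}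
variable {e : ℝ}

theorem Tube.tsupport_subset (T : Tube Ξ Ω r η M P H G γ χ) : tsupport χ ⊆ Ω :=
  fun y hy => T.nb y hy (mem_ball_self T.η_pos)

theorem Tube.continuous (T : Tube Ξ Ω r η M P H G γ χ) : Continuous χ :=
  T.sm.continuousOn.continuous_of_tsupport_subset T.fo.op T.tsupport_subset

theorem Tube.cut_mem (T : Tube Ξ Ω r η M P H G γ χ) (e : ℝ) (y : E (s + 1)) :
    0 ≤ cut Ξ e χ y ∧ cut Ξ e χ y ≤ 1 :=
  ⟨mul_nonneg (T.nonneg y) (Real.smoothTransition.nonneg _),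
    mul_le_one₀ (T.le_one y) (Real.smoothTransition.nonneg _) (Real.smoothTransition.le_one _)⟩

theorem cut_eq (he : 0 < e) (hy : e ≤ jac Ξ y) : cut Ξ e χ y = χ y := by
  have h1 : 1 ≤ 2 * jac Ξ y / e - 1 := by
    rw [le_sub_iff_add_le, le_div_iff₀ he]
    linarith
  unfold cut
  rw [Real.smoothTransition.one_of_one_le h1, mul_one]

theorem tsupport_cut (Ξ : E (s + 1) → E (s + 1)) (e : ℝ) (χ : E (s + 1) → ℝ) :
    tsupport (cut Ξ e χ) ⊆ tsupport χ :=
  tsupport_mul_subset_left (f := χ)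
    (g := fun y => Real.smoothTransition (2 * jac Ξ y / e - 1))

/-- Near a point of `Ω` with `jac = 0` we have `jac < e / 2`, so `cut = 0`. -/
theorem Tube.cut_spec (T : Tube Ξ Ω r η M P H G γ χ) (he : 0 < e) :
    IsCompact (tsupport (cut Ξ e χ)) ∧ tsupport (cut Ξ e χ) ⊆ Ur Ξ Ω ∧
      ContDiffOn ℝ 2 (cut Ξ e χ) Ω ∧ Measurable (cut Ξ e χ) := by
  have hj : ContDiffOn ℝ 2 (jac Ξ) Ω := T.fo.contDiffOn_jac.of_le (WithTop.coe_le_coe.2 (le_top : (2 : ℕ∞) ≤ ⊤))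
  refine ⟨T.cpt.isCompact.of_isClosed_subset (isClosed_tsupport _) (tsupport_cut Ξ e χ), ?_, ?_, ?_⟩
  · intro y hy
    have hΩ : y ∈ Ω := T.tsupport_subset (tsupport_cut Ξ e χ hy)
    refine ⟨hΩ, fun h0 => ?_⟩
    have hc : ContinuousAt (jac Ξ) y := hj.continuousOn.continuousAt (T.fo.op.mem_nhds hΩ)
    have hz : jac Ξ y < e / 2 := by
      rw [jac_eq, h0]
      simp [he]
    have hev : ∀ᶠ z in 𝓝 y, jac Ξ z < e / 2 := hc.eventually (gt_mem_nhds hz)
    refine (notMem_tsupport_iff_eventuallyEq.2 ?_) hy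
    filter_upwards [hev] with z hz
    have h1 : 2 * jac Ξ z / e - 1 ≤ 0 := by
      rw [sub_nonpos, div_le_one he]
      linarith
    unfold cut
    rw [Real.smoothTransition.zero_of_nonpos h1, mul_zero]
    rfl
  · refine T.sm.mul ?_
    have h1 : ContDiff ℝ 2 Real.smoothTransition := Real.smoothTransition.contDiff (n := 2)
    exact h1.comp_contDiffOn (((contDiffOn_const.mul hj).div_const e).sub contDiffOn_const)
  · refine T.continuous.measurable.mul ?_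
    exact Real.smoothTransition.continuous.measurable.comp
      ((((measurable_jac Ξ).const_mul 2).div_const e).sub_const 1)

theorem Up1_int {S : Set (E (s + 1))} (h : Fo Ξ Ω) (hS : IsCompact S) (hU : S ⊆ Ω)
    {b : E (s + 1) → ℝ} (hb : Ms Ω b) {A : ℝ} (hA : ∀ y ∈ S, |b y| ≤ A) :
    IntegrableOn (fun y => jac Ξ y * b y) S := by
  have hj : IntegrableOn (jac Ξ) S :=
    (h.contDiffOn_jac.continuousOn.mono hU).integrableOn_compact hS
  have hm : AEStronglyMeasurable b (volume.restrict S) := by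
    refine (Measurable.aestronglyMeasurable hb).congr ?_
    filter_upwards [ae_restrict_mem hS.measurableSet] with y hy
    exact indicator_of_mem (hU hy) _
  refine Integrable.mul_bdd (c := A) hj hm ?_
  filter_upwards [ae_restrict_mem hS.measurableSet] with y hy
  exact hA y hy

/-- Let `S = tsupport cut`, `δ₀`, `S'` from `exists_nbhd`, `p = pot`. For `0 < δ < δ₀` the integrand
vanishes off `S`, is nonnegative (`av_sb_nonneg`) and integrable on `S` (`av_sb`, `integrableOn_av`,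
`nn_le_log`), so the left side is `ofReal` of
`∫_S jac cut (av nn) / δ ^ 2 + 2 ∫_S jac cut (av p) / δ ^ 2`; the first term is
`∫_S' jac nn (av cut) / δ ^ 2` (`adj`). Apply `integral_av_tendsto` twice; `jac * ll = LL` on `Ur`. -/
theorem Tube.up_lim (T : Tube Ξ Ω r η M P H G γ χ) (he : 0 < e) :
    ∃ S' : Set (E (s + 1)), IsCompact S' ∧ S' ⊆ Ur Ξ Ω ∧
      Tendsto (fun δ => ∫⁻ y in Ω, ENNReal.ofReal (jac Ξ y) * ENNReal.ofReal
        (cut Ξ e χ y * (av Ξ Ω r δ (sb Ξ Ω r (pot H G γ)) y / δ ^ 2))) (𝓝[>] 0)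
        (𝓝 (ENNReal.ofReal ((∫ y in S', nn Ξ Ω r (pot H G γ) y * LL Ξ (cut Ξ e χ) y) +
          2 * ∫ y in S', cut Ξ e χ y * LL Ξ (pot H G γ) y))) := by
  have h := T.fo
  have hr := T.r_pos
  have hp := T.pt
  have hc01 := T.cut_mem e
  obtain ⟨hS, hSU, hc, hcm⟩ := T.cut_spec he
  generalize pot H G γ = p at hp ⊢
  generalize cut Ξ e χ = c at hc01 hS hSU hc hcm ⊢
  have h0 : ∀ y ∉ tsupport c, c y = 0 := fun y hy => image_eq_zero_of_notMem_tsupport hy
  generalize tsupport c = S at hS hSU h0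
  obtain ⟨δ₀, hδ₀, S', hS', hSS, hρ, hm⟩ := exists_nbhd h hr hS hSU
  have hS'U : S' ⊆ Ur Ξ Ω := fun y hy => mem_ur h hr (hδ₀.trans (hρ y hy))
  have hS'Ω : S' ⊆ Ω := fun y hy => (hS'U hy).1
  have hSΩ : S ⊆ Ω := hSS.trans hS'Ω
  refine ⟨S', hS', hS'U, ?_⟩
  have hmc : Ms Ω c := Ms.of_measurable h.op hcm
  have hmn : Ms Ω (nn Ξ Ω r p) := ms_nn h hr hp
  have hmp : Ms Ω p := Ms.of_continuousOn h.op hp.sm.continuousOn
  obtain ⟨A, hA1, hA2⟩ : ∃ A : ℝ, (∀ y, |c y| ≤ A) ∧ ∀ y ∈ S', |nn Ξ Ω r p y| ≤ A := by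
    refine ⟨max 1 (Real.log (max (r / δ₀) 1)), fun y => ?_, fun y hy => ?_⟩
    · rw [abs_of_nonneg (hc01 y).1]
      exact (hc01 y).2.trans (le_max_left _ _)
    · rw [abs_of_nonneg (nn_nonneg _ _ _ _ _)]
      exact (nn_le_log hr hp (hS'Ω hy) hδ₀ (hρ y hy)).trans (le_max_right _ _)
  obtain ⟨B, hB⟩ : ∃ B : ℝ, ∀ y ∈ S', |p y| ≤ B :=
    hS'.exists_bound_of_continuousOn (hp.sm.continuousOn.mono hS'Ω)
  have hu1 : IntegrableOn (fun y => jac Ξ y * nn Ξ Ω r p y) S' := Up1_int h hS' hS'Ω hmn hA2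
  have hu2 : IntegrableOn (fun y => jac Ξ y * c y) S := Up1_int h hS hSΩ hmc fun y _ => hA1 y
  have L1 := integral_av_tendsto h hr hc hS' hS'U hu1
  have L2 := integral_av_tendsto h hr hp.sm hS hSU hu2
  have e1 : ∫ y in S', jac Ξ y * nn Ξ Ω r p y * ll Ξ c y = ∫ y in S', nn Ξ Ω r p y * LL Ξ c y := by
    refine setIntegral_congr_fun hS'.measurableSet fun y hy => ?_
    have hj := (jac_pos (hS'U hy)).ne'
    simp only [ll]
    field_simp
  have e2 : ∫ y in S, jac Ξ y * c y * ll Ξ p y = ∫ y in S', c y * LL Ξ p y := by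
    rw [setIntegral_eq_of_subset_of_forall_sdiff_eq_zero hS'.measurableSet hSS
      (fun y hy => by rw [h0 y hy.2, zero_mul])]
    refine setIntegral_congr_fun hS.measurableSet fun y hy => ?_
    have hj := (jac_pos (hSU hy)).ne'
    simp only [ll]
    field_simp
  rw [e1] at L1
  rw [e2] at L2
  refine ((ENNReal.continuous_ofReal.tendsto _).comp (L1.add (L2.const_mul 2))).congr' ?_
  filter_upwards [Ioo_mem_nhdsGT hδ₀] with δ hδ
  have hρ' : ∀ y ∈ S', δ < rho Ξ Ω r y := fun y hy => hδ.2.trans (hρ y hy)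
  have hρS : ∀ y ∈ S, δ < rho Ξ Ω r y := fun y hy => hρ' y (hSS hy)
  have hm' : ∀ y ∈ S, ∀ w : ℂ, ‖w‖ ≤ δ → tau Ξ Ω r y w ∈ S' :=
    fun y hy w hw => hm y hy w (hw.trans hδ.2.le)
  have i1 := integrableOn_av h hr hδ.1 hS hρS hmn (fun y hy w hw => hA2 _ (hm' y hy w hw)) hu2
  have i2 := integrableOn_av h hr hδ.1 hS hρS hmp (fun y hy w hw => hB _ (hm' y hy w hw)) hu2
  have ha := adj h hr hδ.1 hS hS' hSS hρ' hm' hmc hmn h0 hA1 hA2
  have key : ∀ y ∈ S, jac Ξ y * (c y * (av Ξ Ω r δ (sb Ξ Ω r p) y / δ ^ 2)) =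
      jac Ξ y * c y * av Ξ Ω r δ (nn Ξ Ω r p) y / δ ^ 2 +
        2 * (jac Ξ y * c y * av Ξ Ω r δ p y / δ ^ 2) := by
    intro y hy
    rw [av_sb h hr hp hδ.1 (hρS y hy)]
    ring
  have i3 : IntegrableOn (fun y => jac Ξ y * (c y * (av Ξ Ω r δ (sb Ξ Ω r p) y / δ ^ 2))) S :=
    IntegrableOn.congr_fun ((i1.div_const (δ ^ 2)).add ((i2.div_const (δ ^ 2)).const_mul 2))
      (fun y hy => (key y hy).symm) hS.measurableSet
  have hsup : support (fun y => ENNReal.ofReal (jac Ξ y) *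
      ENNReal.ofReal (c y * (av Ξ Ω r δ (sb Ξ Ω r p) y / δ ^ 2))) ⊆ S := by
    intro y hy
    by_contra hn
    apply hy
    simp [h0 y hn]
  have hnn : 0 ≤ᵐ[volume.restrict S]
      fun y => jac Ξ y * (c y * (av Ξ Ω r δ (sb Ξ Ω r p) y / δ ^ 2)) := by
    filter_upwards [ae_restrict_mem hS.measurableSet] with y hy
    exact mul_nonneg (jac_nonneg _ _) (mul_nonneg (hc01 y).1
      (div_nonneg (av_sb_nonneg h hr hp hδ.1 (hρS y hy)) (sq_nonneg _)))
  rw [setLIntegral_eq_of_support_subset (hsup.trans hSΩ), ← setLIntegral_eq_of_support_subset hsup]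
  simp only [← ENNReal.ofReal_mul (jac_nonneg _ _)]
  rw [← ofReal_integral_eq_lintegral_ofReal i3 hnn, setIntegral_congr_fun hS.measurableSet key,
    integral_add (i1.div_const (δ ^ 2)) ((i2.div_const (δ ^ 2)).const_mul 2), integral_const_mul,
    integral_div]
  simp only [Function.comp_apply, mul_assoc, ha, ← mul_div_assoc]
  rw [integral_div]

end Pool.Agent.Lib.MP_a47f92_an.Dc
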