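import Pool.Agent.Lib.MP_a47f92_an.Dc.Loc
import Pool.Agent.Lib.MP_a47f92_an.Dc.IFb
import Pool.Agent.Lib.MP_a47f92_an.Dc.Lap

set_option autoImplicit false
set_option linter.unusedSectionVars false

namespace Pool.Agent.Lib.MP_a47f92_an.Dc

open MeasureTheory Filter Topology Set Complex Metric Function
open scoped ContDiff ComplexConjugate ENNReal NNReal

variable {s N : ℕ} {Ξ : E (s + 1) → E (s + 1)} {Ω : Set (E (s + 1))} {r η M P γ : ℝ}
  {H : E (s + 1) → E N} {G : E (s + 1) → ℂ} {χ p : E (s + 1) → ℝ} {y : E (s + 1)} {ζ : ℂ}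

theorem hy_pos {x : ℝ} (hx : 0 < x) (h : x ≤ r) : 0 < hy r x := by
  have := Real.log_nonneg ((one_le_div hx).2 h)
  unfold hy
  positivity

theorem hy_le {x : ℝ} (hx : 0 < x) (h : x ≤ r) : hy r x ≤ x⁻¹ := by
  have := Real.log_nonneg ((one_le_div hx).2 h)
  exact inv_anti₀ hx (by nlinarith)

/-- `x' (1 + log (r / x')) - x (1 + log (r / x)) = x' - x + (x' - x) log (r / x') - x log (x' / x)` and
`log (x' / x) ≤ x' / x - 1`. -/
theorem hy_anti {x x' : ℝ} (hx : 0 < x) (h : x ≤ x') (h' : x' ≤ r) : hy r x' ≤ hy r x := by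
  have hx' := hx.trans_le h
  have hr := hx'.trans_le h'
  have h1 := Real.log_nonneg ((one_le_div hx').2 h')
  have h2 := Real.log_nonneg ((one_le_div hx).2 (h.trans h'))
  have h3 : Real.log (r / x) = Real.log (r / x') + Real.log (x' / x) := by
    rw [← Real.log_mul (by positivity) (by positivity)]
    congr 1
    field_simp
  have h4 : x * Real.log (x' / x) ≤ x' - x := by
    have h5 := mul_le_mul_of_nonneg_left (Real.log_le_sub_one_of_pos (div_pos hx' hx)) hx.le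
    rwa [mul_sub, mul_one, mul_div_cancel₀ _ hx.ne'] at h5
  refine inv_anti₀ (by positivity) ?_
  rw [h3]
  nlinarith [mul_le_mul_of_nonneg_right h h1]

theorem nn_nonneg (Ξ : E (s + 1) → E (s + 1)) (Ω : Set (E (s + 1))) (r : ℝ) (p : E (s + 1) → ℝ)
    (y : E (s + 1)) : 0 ≤ nn Ξ Ω r p y := Real.log_nonneg (le_max_right _ _)

theorem Pt.jac_le (hp : Pt Ξ Ω p) (hy : y ∈ Ω) : jac Ξ y * Real.exp (-2 * p y) ≤ 1 := by
  have h1 : jac Ξ y ≤ Real.exp (p y) ^ 2 := pow_le_pow_left₀ (norm_nonneg _) (hp.up y hy) 2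
  refine (mul_le_mul_of_nonneg_right h1 (Real.exp_pos _).le).trans_eq ?_
  rw [sq, ← Real.exp_add, ← Real.exp_add, show p y + p y + -2 * p y = 0 by ring, Real.exp_zero]

theorem wt_of_le (hr : 0 < r) (hy : r ≤ ‖y 0‖) : wt Ξ Ω r p y = 0 := by
  rw [wt, max_eq_right (sub_nonpos.2 (pow_le_pow_left₀ hr.le hy 2)), zero_div, mul_zero, zero_mul]

theorem nn_of_le (hr : 0 < r) (hy : r ≤ ‖y 0‖) : nn Ξ Ω r p y = 0 := by
  rw [nn, wt_of_le hr hy, max_eq_right zero_le_one, Real.log_one]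

theorem Wt1_third (hr : 0 < r) (t : ℝ) : max (r ^ 2 - t ^ 2) 0 / (2 * r) ≤ r / 2 := by
  rw [div_le_iff₀ (by positivity)]
  exact max_le (by nlinarith [sq_nonneg t]) (by positivity)

theorem Wt1_sqrt (hr : 0 < r) {t : ℝ} (h : t ≤ r) : √(t / r) ≤ 1 :=
  Real.sqrt_le_one.2 ((div_le_one hr).2 h)

/-- If `rho = 0` both sides vanish. -/
theorem wt_le (hr : 0 < r) (hp : Pt Ξ Ω p) (hy : y ∈ Ω) :
    wt Ξ Ω r p y ≤ r / (2 * rho Ξ Ω r y) * √(‖y 0‖ / r) := by
  rcases (rho_nonneg Ξ Ω r y).eq_or_lt with h0 | h0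
  · simp [wt, ← h0, Dc.hy]
  · have h1 := hy_le h0 (rho_le hr Ξ Ω y)
    have h2 := hp.jac_le hy
    have h3 := Wt1_third hr ‖y 0‖
    have h4 := jac_nonneg Ξ y
    have e : r / (2 * rho Ξ Ω r y) = (rho Ξ Ω r y)⁻¹ * 1 * (r / 2) := by field_simp
    rw [wt, e]
    gcongr

theorem nn_le_log (hr : 0 < r) (hp : Pt Ξ Ω p) (hy : y ∈ Ω) {δ : ℝ} (hδ : 0 < δ)
    (hρ : δ < rho Ξ Ω r y) : nn Ξ Ω r p y ≤ Real.log (max (r / δ) 1) := by
  rcases le_total r ‖y 0‖ with h | h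
  · rw [nn_of_le hr h]
    exact Real.log_nonneg (le_max_right _ _)
  · refine Real.log_le_log (lt_max_of_lt_right one_pos) (max_le_max_right 1 ?_)
    have h0 := hδ.trans hρ
    calc wt Ξ Ω r p y ≤ r / (2 * rho Ξ Ω r y) * √(‖y 0‖ / r) := wt_le hr hp hy
      _ ≤ r / δ * 1 := mul_le_mul (div_le_div_of_nonneg_left hr.le hδ (by linarith))
          (Wt1_sqrt hr h) (Real.sqrt_nonneg _) (by positivity)
      _ = r / δ := mul_one _

theorem nn_centre (hr : 0 < r) (hp : Pt Ξ Ω p) (hy : y ∈ Ω) {ρ : ℝ} (h0 : 0 < ρ)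
    (hρ : ρ / 2 ≤ rho Ξ Ω r y) (ht : ‖y 0‖ ≤ ρ ^ 2 / r) : nn Ξ Ω r p y = 0 := by
  have h1 : √(‖y 0‖ / r) ≤ ρ / r := by
    refine Real.sqrt_le_iff.2 ⟨by positivity, ?_⟩
    rw [div_pow, sq r, ← div_div]
    exact div_le_div_of_nonneg_right ht hr.le
  have h2 : wt Ξ Ω r p y ≤ 1 :=
    calc wt Ξ Ω r p y ≤ r / (2 * rho Ξ Ω r y) * √(‖y 0‖ / r) := wt_le hr hp hy
      _ ≤ r / ρ * (ρ / r) := mul_le_mul (div_le_div_of_nonneg_left hr.le h0 (by linarith)) h1
          (Real.sqrt_nonneg _) (by positivity)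
      _ = 1 := by field_simp
  rw [nn, max_eq_right h2, Real.log_one]

theorem Wt1_exp {L : ℝ} (h : 100 ≤ L) : 15 * (1 + L) ≤ Real.exp (L / 5) := by
  have h1 := Real.quadratic_le_exp_of_nonneg (x := 5) (by norm_num)
  have h2 : Real.exp 5 ≤ Real.exp (L / 20) := Real.exp_le_exp.2 (by linarith)
  have h3 := Real.add_one_le_exp (L / 10)
  have h4 : (18 : ℝ) ≤ Real.exp (L / 20) := by linarith
  rw [show L / 5 = L / 20 + L / 20 + L / 10 by ring, Real.exp_add, Real.exp_add]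
  calc 15 * (1 + L) ≤ 18 * 18 * (L / 10 + 1) := by linarith
    _ ≤ _ := by gcongr

/-- With `L = log (r / ρ) ≥ 100 (K + 1)`: `hy ≥ 4 / (5 ρ (1 + L))` (`hy_anti`), the third factor is at
least `r / 4`, the root at least `exp (-L / 2) / 3`, so
`wt ≥ exp (L / 2 - 4 (1 + K)) / (15 (1 + L))`; `log 15 ≤ 3`, `log (1 + L) ≤ L / 8 + 2`. -/
theorem nn_lower (hr : 0 < r) {ρ K : ℝ} (hK : 0 ≤ K) (h0 : 0 < ρ)
    (hρ : ρ ≤ r * Real.exp (-100 * (K + 1))) (h1 : 0 < rho Ξ Ω r y) (h2 : rho Ξ Ω r y ≤ 5 * ρ / 4)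
    (h3 : ρ / 8 ≤ ‖y 0‖) (h4 : ‖y 0‖ ≤ ρ / 4)
    (hu : Real.exp (-4 * (1 + K)) ≤ jac Ξ y * Real.exp (-2 * p y)) :
    Real.log (r / ρ) / 4 ≤ nn Ξ Ω r p y := by
  obtain ⟨L, hL⟩ : ∃ L, L = Real.log (r / ρ) := ⟨_, rfl⟩
  have e1 : Real.exp L = r / ρ := by rw [hL, Real.exp_log (by positivity)]
  have e2 : r = ρ * Real.exp L := by rw [e1, mul_div_cancel₀ _ h0.ne']
  have l1 : 100 * (K + 1) ≤ L := by
    rw [hL, Real.le_log_iff_exp_le (by positivity), le_div_iff₀ h0]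
    refine (mul_le_mul_of_nonneg_left hρ (Real.exp_pos _).le).trans_eq ?_
    rw [mul_left_comm, ← Real.exp_add, show 100 * (K + 1) + -100 * (K + 1) = 0 by ring,
      Real.exp_zero, mul_one]
  have l2 : 100 ≤ L := by linarith
  have l3 : 101 * ρ ≤ r := by
    have := Real.add_one_le_exp L
    rw [e2]
    nlinarith
  have b1 : (5 * ρ / 4 * (1 + L))⁻¹ ≤ hy r (rho Ξ Ω r y) := by
    refine le_trans ?_ (hy_anti h1 h2 (by linarith))
    have h5 : 0 < hy r (5 * ρ / 4) := hy_pos (by positivity) (by linarith)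
    refine inv_anti₀ (inv_pos.1 h5) (mul_le_mul_of_nonneg_left ?_ (by positivity))
    rw [hL]
    exact add_le_add_right (Real.log_le_log (by positivity)
      (div_le_div_of_nonneg_left hr.le h0 (by linarith))) 1
  have b2 : r / 4 ≤ max (r ^ 2 - ‖y 0‖ ^ 2) 0 / (2 * r) := by
    rw [le_div_iff₀ (by positivity)]
    have h5 : ‖y 0‖ ^ 2 ≤ (r / 2) ^ 2 := pow_le_pow_left₀ (norm_nonneg _) (by linarith) 2
    exact le_max_of_le_left (by nlinarith)
  have b3 : Real.exp (-(L / 2)) / 3 ≤ √(‖y 0‖ / r) := by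
    refine Real.le_sqrt_of_sq_le ?_
    rw [div_pow, sq, ← Real.exp_add, show -(L / 2) + -(L / 2) = -L by ring, Real.exp_neg, e1,
      inv_div, div_right_comm]
    exact div_le_div_of_nonneg_right (by linarith) hr.le
  have b4 : (5 * ρ / 4 * (1 + L))⁻¹ * Real.exp (-4 * (1 + K)) * (r / 4) *
      (Real.exp (-(L / 2)) / 3) ≤ wt Ξ Ω r p y := by
    have h5 := hy_pos h1 (rho_le hr Ξ Ω y)
    have h6 := jac_nonneg Ξ y
    unfold wt
    gcongr
  rw [← hL, nn, Real.le_log_iff_exp_le (lt_max_of_lt_right one_pos)]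
  refine le_max_of_le_left (le_trans ?_ b4)
  have e3 : (5 * ρ / 4 * (1 + L))⁻¹ * Real.exp (-4 * (1 + K)) * (r / 4) *
      (Real.exp (-(L / 2)) / 3) = Real.exp (-4 * (1 + K) + L + -(L / 2)) / (15 * (1 + L)) := by
    rw [Real.exp_add, Real.exp_add, e1]
    field_simp
    ring
  rw [e3, le_div_iff₀ (by positivity)]
  refine (mul_le_mul_of_nonneg_left (Wt1_exp l2) (Real.exp_pos _).le).trans ?_
  rw [← Real.exp_add]
  exact Real.exp_le_exp.2 (by linarith)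

/-- `continuousOn_rho_tau`, `rho_pos`, `tau_mem`. -/
theorem continuousOn_nn_tau (h : Fo Ξ Ω) (hr : 0 < r) (hp : Pt Ξ Ω p) (y : E (s + 1)) :
    ContinuousOn (fun w => nn Ξ Ω r p (tau Ξ Ω r y w)) (ball 0 (rho Ξ Ω r y)) := by
  have h1 := continuousOn_rho_tau h hr y
  have h2 := (tau_spec h hr y).diff.continuousOn
  have h3 : ∀ w ∈ ball (0 : ℂ) (rho Ξ Ω r y), tau Ξ Ω r y w ∈ Ur Ξ Ω := fun w hw =>
    tau_mem h hr (mem_ball_zero_iff.1 hw)
  have h4 : ∀ w ∈ ball (0 : ℂ) (rho Ξ Ω r y), 0 < rho Ξ Ω r (tau Ξ Ω r y w) := fun w hw =>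
    rho_pos h hr (h3 w hw)
  have h5 : ContinuousOn (fun w => hy r (rho Ξ Ω r (tau Ξ Ω r y w))) (ball 0 (rho Ξ Ω r y)) :=
    (h1.mul (continuousOn_const.add ((continuousOn_const.div h1 fun w hw => (h4 w hw).ne').log
      fun w hw => (div_pos hr (h4 w hw)).ne'))).inv₀ fun w hw =>
        (inv_pos.1 (hy_pos (h4 w hw) (rho_le hr Ξ Ω _))).ne'
  have h6 := h.contDiffOn_jac.continuousOn.comp h2 fun w hw => (h3 w hw).1
  have h7 := hp.sm.continuousOn.comp h2 fun w hw => (h3 w hw).1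
  have h8 : ContinuousOn (fun w => ‖tau Ξ Ω r y w 0‖) (ball 0 (rho Ξ Ω r y)) :=
    ((EuclideanSpace.proj (0 : Fin (s + 1))).continuous.comp_continuousOn h2).norm
  have h9 : ContinuousOn (fun w => wt Ξ Ω r p (tau Ξ Ω r y w)) (ball 0 (rho Ξ Ω r y)) :=
    ((h5.mul (h6.mul (continuousOn_const.mul h7).rexp)).mul
      (((continuousOn_const.sub (h8.pow 2)).sup continuousOn_const).div_const _)).mul
        (h8.div_const r).sqrt
  exact (h9.sup continuousOn_const).log fun w _ => (lt_max_of_lt_right one_pos).ne'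

theorem Wt1_meas (h : Fo Ξ Ω) (hr : 0 < r) (hp : Measurable p) : Measurable (nn Ξ Ω r p) := by
  have h1 := measurable_rho h hr
  have h2 := measurable_jac Ξ
  have h3 : Measurable fun y : E (s + 1) => ‖y 0‖ :=
    (EuclideanSpace.proj (0 : Fin (s + 1))).continuous.norm.measurable
  exact (((((h1.mul (measurable_const.add (measurable_const.div h1).log)).inv.mul
    (h2.mul (measurable_const.mul hp).exp)).mul
      (((measurable_const.sub (h3.pow_const 2)).max measurable_const).div_const _)).mul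
        (h3.div_const r).sqrt).max measurable_const).log

/-- On `Ω` replace `p` by `Ω.indicator p`; `measurable_rho`, `measurable_jac`. -/
theorem ms_nn (h : Fo Ξ Ω) (hr : 0 < r) (hp : Pt Ξ Ω p) : Ms Ω (nn Ξ Ω r p) := by
  have e : Ω.indicator (nn Ξ Ω r p) = Ω.indicator (nn Ξ Ω r (Ω.indicator p)) :=
    indicator_congr fun y hy => by rw [nn, nn, wt, wt, indicator_of_mem hy]
  rw [Ms, e]
  exact Ms.of_measurable h.op (Wt1_meas h hr (Ms.of_continuousOn h.op hp.sm.continuousOn))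

theorem ms_sb (h : Fo Ξ Ω) (hr : 0 < r) (hp : Pt Ξ Ω p) : Ms Ω (sb Ξ Ω r p) := by
  have e : Ω.indicator (sb Ξ Ω r p) =
      fun y => Ω.indicator (nn Ξ Ω r p) y + 2 * Ω.indicator p y := by
    funext y
    by_cases hy : y ∈ Ω
    · simp only [indicator_of_mem hy, sb]
    · simp only [indicator_of_notMem hy, mul_zero, add_zero]
  rw [Ms, e]
  exact Measurable.add (ms_nn h hr hp)
    (measurable_const.mul (Ms.of_continuousOn h.op hp.sm.continuousOn))

theorem Wt1_up (T : Tube Ξ Ω r η M P H G γ χ) (hy : y ∈ Ω) {q : ℝ} (hq : 0 < q)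
    (h : min r (q * jac Ξ y) ≤ rho Ξ Ω r y) (hw : 1 < wt Ξ Ω r (pot H G γ) y) :
    wt Ξ Ω r (pot H G γ) y ≤ Real.exp (2 * P) / q ∧
      r * Real.exp (-(Real.exp (2 * P) / q)) / q < jac Ξ y := by
  have hr := T.r_pos
  have h1 : ‖y 0‖ ≤ r := by
    by_contra h1
    rw [wt_of_le hr (not_le.1 h1).le] at hw
    exact absurd hw (by norm_num)
  have h2 := Wt1_sqrt hr h1
  have h3 : 1 < r / (2 * rho Ξ Ω r y) := (hw.trans_le (wt_le hr T.pt hy)).trans_le
    (mul_le_of_le_one_right (div_nonneg hr.le (by linarith [rho_nonneg Ξ Ω r y])) h2)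
  have h4 : 0 < rho Ξ Ω r y := (rho_nonneg Ξ Ω r y).lt_of_ne fun h0 => by
    rw [← h0, mul_zero, div_zero] at h3
    exact absurd h3 (by norm_num)
  rw [one_lt_div (by positivity)] at h3
  have h5 : q * jac Ξ y ≤ rho Ξ Ω r y := (min_le_iff.1 h).resolve_left (by linarith)
  have h6 := jac_pos (mem_ur T.fo hr h4)
  have h7 := hy_anti (mul_pos hq h6) h5 (rho_le hr Ξ Ω y)
  have h8 := hy_pos (mul_pos hq h6) (h5.trans (rho_le hr Ξ Ω y))
  have h9 : max (r ^ 2 - ‖y 0‖ ^ 2) 0 / (2 * r) ≤ 1 :=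
    (Wt1_third hr _).trans (by linarith [T.r_le])
  have h10 : Real.exp (-2 * pot H G γ y) ≤ Real.exp (2 * P) :=
    Real.exp_le_exp.2 (by linarith [T.low y hy])
  have h11 := Real.log_nonneg ((one_le_div (mul_pos hq h6)).2 (h5.trans (rho_le hr Ξ Ω y)))
  have h12 : wt Ξ Ω r (pot H G γ) y ≤
      Real.exp (2 * P) / q / (1 + Real.log (r / (q * jac Ξ y))) :=
    calc wt Ξ Ω r (pot H G γ) y ≤ Dc.hy r (q * jac Ξ y) * (jac Ξ y * Real.exp (2 * P)) * 1 * 1 := by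
          unfold wt
          gcongr
      _ = _ := by
          unfold Dc.hy
          field_simp
  refine ⟨h12.trans (div_le_self (by positivity) (by linarith)), ?_⟩
  have h13 := hw.trans_le h12
  rw [one_lt_div (by positivity)] at h13
  have h14 : r / (q * jac Ξ y) < Real.exp (Real.exp (2 * P) / q) :=
    (Real.log_lt_iff_lt_exp (by positivity)).1 (by linarith)
  rw [div_lt_iff₀ (by positivity)] at h14
  rw [div_lt_iff₀ hq, Real.exp_neg, ← div_eq_mul_inv, div_lt_iff₀ (Real.exp_pos _)]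
  linarith

/-- Let `c` be as in `rho_lower`, `k = 2 s + 4`, `A = exp (2 P) (M / η) ^ k / c`. If `wt > 1` then
`‖y 0‖ < r`, `0 < rho < r` (`wt_le`), `jac > 0`, `x₀ = c jac (η / M) ^ k ≤ rho`, and by `hy_anti`
`wt ≤ hy r x₀ * jac * exp (2 P) = A / (1 + log (r / x₀)) ≤ A`; also `log (r / x₀) < A`, so
`jac > e₀ = r exp (-A) (M / η) ^ k / c`. -/
theorem nn_upper (s : ℕ) : ∃ C : ℝ, 1 ≤ C ∧ ∀ (N : ℕ) (Ξ : E (s + 1) → E (s + 1))
    (Ω : Set (E (s + 1))) (r η M P : ℝ) (H : E (s + 1) → E N) (G : E (s + 1) → ℂ) (γ : ℝ)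
    (χ : E (s + 1) → ℝ), Tube Ξ Ω r η M P H G γ χ → ∃ e₀ : ℝ, 0 < e₀ ∧ ∀ y ∈ tsupport χ,
      nn Ξ Ω r (pot H G γ) y ≤ C * (1 + Real.log (M / η) + P) ∧
      (0 < nn Ξ Ω r (pot H G γ) y → e₀ < jac Ξ y) := by
  obtain ⟨c, hc, hc1, hl⟩ := rho_lower s
  have h0 : Real.log c ≤ 0 := Real.log_nonpos hc.le hc1
  have hs : (0 : ℝ) ≤ s := Nat.cast_nonneg s
  refine ⟨2 * s + 4 - Real.log c, by linarith, fun N Ξ Ω r η M P H G γ χ T => ?_⟩
  have hr := T.r_pos
  have hη := T.η_pos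
  have hM : 0 < M := one_pos.trans_le T.M_ge
  have hP := T.P_ge
  have hq : 0 < c * (η / M) ^ (2 * s + 4) := by positivity
  have h1 : 0 ≤ Real.log (M / η) := Real.log_nonneg ((one_le_div hη).2 (T.η_le.trans T.M_ge))
  refine ⟨_, (by positivity : 0 < r * Real.exp (-(Real.exp (2 * P) /
    (c * (η / M) ^ (2 * s + 4)))) / (c * (η / M) ^ (2 * s + 4))), fun y hy => ?_⟩
  rcases le_or_gt (wt Ξ Ω r (pot H G γ) y) 1 with hw | hw
  · rw [nn, max_eq_right hw, Real.log_one]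
    exact ⟨mul_nonneg (by linarith) (by linarith), fun h => absurd h (lt_irrefl 0)⟩
  · have h2 := hl Ξ Ω r η M y T.fo hr hη T.η_le T.M_ge (T.nb y hy) T.bd
    rw [mul_right_comm] at h2
    obtain ⟨h3, h4⟩ := Wt1_up T (T.nb y hy (mem_ball_self hη)) hq h2 hw
    refine ⟨?_, fun _ => h4⟩
    rw [nn, max_eq_left hw.le]
    refine (Real.log_le_log (one_pos.trans hw) h3).trans ?_
    rw [Real.log_div (by positivity) hq.ne', Real.log_exp, Real.log_mul hc.ne' (by positivity),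
      Real.log_pow, ← inv_div M η, Real.log_inv]
    push_cast
    nlinarith [mul_nonneg hs hP, mul_nonneg (neg_nonneg.2 h0) h1, mul_nonneg (neg_nonneg.2 h0) hP]

end Pool.Agent.Lib.MP_a47f92_an.Dc
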