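import Pool.Agent.Lib.MP_a47f92_an.Dc.Wt1
import Pool.Agent.Lib.MP_a47f92_an.Dc.Sup
import Pool.Agent.Lib.MP_a47f92_an.Dc.Av

set_option autoImplicit false
set_option linter.unusedSectionVars false

namespace Pool.Agent.Lib.MP_a47f92_an.Dc

open MeasureTheory Filter Topology Set Complex Metric Function
open scoped ContDiff ComplexConjugate ENNReal NNReal

variable {s N : ℕ} {Ξ : E (s + 1) → E (s + 1)} {Ω : Set (E (s + 1))} {r η M P γ : ℝ}
  {H : E (s + 1) → E N} {G : E (s + 1) → ℂ} {χ p : E (s + 1) → ℝ} {y : E (s + 1)} {ζ : ℂ}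

theorem Wt2_log (h : Fo Ξ Ω) (hr : 0 < r) (p : E (s + 1) → ℝ) (hy : y ∈ Ur Ξ Ω) (h1 : ‖y 0‖ < r)
    (h2 : y 0 ≠ 0) : 0 < wt Ξ Ω r p y ∧ Real.log (wt Ξ Ω r p y) + 2 * p y =
      Real.log (Dc.hy r (rho Ξ Ω r y)) + 2 * Real.log ‖dl Ξ y‖ +
        Real.log ((r ^ 2 - ‖y 0‖ ^ 2) / (2 * r)) + 1 / 2 * Real.log ‖y 0 / (r : ℂ)‖ := by
  have a1 := hy_pos (rho_pos h hr hy) (rho_le hr Ξ Ω y)
  have a2 := jac_pos hy
  have a3 : 0 < r ^ 2 - ‖y 0‖ ^ 2 := by nlinarith [norm_nonneg (y 0)]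
  have a4 : 0 < ‖y 0‖ / r := div_pos (norm_pos_iff.2 h2) hr
  have a5 := Real.sqrt_pos.2 a4
  unfold wt
  rw [max_eq_left a3.le]
  refine ⟨by positivity, ?_⟩
  rw [Real.log_mul (by positivity) a5.ne', Real.log_mul (by positivity) (by positivity),
    Real.log_mul a1.ne' (by positivity), Real.log_mul a2.ne' (Real.exp_pos _).ne', Real.log_exp,
    Real.log_sqrt a4.le, jac_eq, Real.log_pow, norm_div, Complex.norm_real, Real.norm_eq_abs,
    abs_of_pos hr]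
  push_cast
  ring

theorem Wt2_cont (h : Fo Ξ Ω) (hr : 0 < r) (hp : Pt Ξ Ω p) {δ : ℝ} (hρ : δ < rho Ξ Ω r y) :
    ContinuousOn (fun w => nn Ξ Ω r p (tau Ξ Ω r y w)) (closedBall 0 δ) ∧
      ContinuousOn (fun w => 2 * p (tau Ξ Ω r y w)) (closedBall 0 δ) :=
  ⟨(continuousOn_nn_tau h hr hp y).mono (closedBall_subset_ball hρ), fun _ hw =>
    (continuousAt_const.mul (pl_tau h hr hp.sm
      ((mem_closedBall_zero_iff.1 hw).trans_lt hρ)).1.continuousAt).continuousWithinAt⟩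

/-- If `wt y ≤ 1` take `φ w = 2 * p (tau y w)` (`pl_tau`, `nn_nonneg`). If `wt y > 1` then with
`t = y 0`, `ρ = rho y`: `0 < ‖t‖ < r`, `ρ < r` (`wt_le`), take `c` from `exists_sup` and
`φ w = log (hy r ‖w - c‖) + 2 * log ‖dl (tau y w)‖ + log ((r ^ 2 - ‖t + w‖ ^ 2) / (2 r)) +
1 / 2 * log ‖(t + w) / r‖`. Near `0`, `φ w ≤ log (wt (tau y w)) + 2 * p (tau y w)` (`hy_anti`,
`tau_fst`) with equality at `0`, and `pl φ 0 = hy r ρ ^ 2 - (2 r / (r ^ 2 - ‖t‖ ^ 2)) ^ 2 ≥ 0` because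
`1 < wt y ≤ hy r ρ * ((r ^ 2 - ‖t‖ ^ 2) / (2 r))` (`pl_log_hy`, `pl_log_sub`, `pl_log_norm`). -/
theorem sb_support (h : Fo Ξ Ω) (hr : 0 < r) (hp : Pt Ξ Ω p) (hy : y ∈ Ur Ξ Ω) :
    ∃ φ : ℂ → ℝ, ContDiffAt ℝ 2 φ 0 ∧ 0 ≤ pl φ 0 ∧ φ 0 = sb Ξ Ω r p y ∧
      ∀ᶠ w in 𝓝 (0 : ℂ), φ w ≤ sb Ξ Ω r p (tau Ξ Ω r y w) := by
  have hρ0 : 0 < rho Ξ Ω r y := rho_pos h hr hy
  have hz : ‖(0 : ℂ)‖ < rho Ξ Ω r y := by rwa [norm_zero]
  rcases le_or_gt (wt Ξ Ω r p y) 1 with hw | hw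
  · obtain ⟨c1, c2⟩ := pl_tau h hr hp.sm hz
    refine ⟨fun w => 2 * p (tau Ξ Ω r y w), contDiffAt_const.mul c1, ?_, ?_,
      Eventually.of_forall fun w => le_add_of_nonneg_left (nn_nonneg _ _ _ _ _)⟩
    · rw [pl_const_mul, c2, tau_zero]
      have := div_nonneg (hp.psh y hy.1) (jac_nonneg Ξ y)
      unfold ll
      positivity
    · simp only [sb, nn, tau_zero, max_eq_right hw, Real.log_one, zero_add]
  have ht : ‖y 0‖ < r := by
    by_contra hc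
    rw [wt_of_le hr (not_lt.1 hc)] at hw
    linarith
  have ht0 : y 0 ≠ 0 := fun h0 => by
    simp only [wt, h0, norm_zero, zero_div, Real.sqrt_zero, mul_zero] at hw
    linarith
  have hs : √(‖y 0‖ / r) ≤ 1 := Real.sqrt_le_one.2 ((div_le_one hr).2 ht.le)
  have hρ : 2 * rho Ξ Ω r y < r := by
    have h1 := (hw.trans_le (wt_le hr hp hy.1)).trans_le
      (mul_le_of_le_one_right (by positivity) hs)
    rwa [lt_div_iff₀ (by positivity), one_mul] at h1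
  obtain ⟨c, hc, hsup⟩ := exists_sup h hr hy (by linarith)
  have hc0 : ‖0 - c‖ = rho Ξ Ω r y := by rw [zero_sub, norm_neg, hc]
  obtain ⟨a1, b1⟩ := pl_log_hy (z := 0) (r := r) (c := c)
    (fun h0 => by rw [← h0, norm_zero] at hc; linarith) (by linarith)
  obtain ⟨a2, b2⟩ := pl_log_norm (z := 0) (a := fun w => dl Ξ (tau Ξ Ω r y w))
    (((h.contDiffOn_dl.contDiffAt (h.op.mem_nhds (tau_mem h hr hz).1)).of_le
      (ENat.LEInfty.out)).comp 0 (tau_contDiffAt h hr hz)) (tau_mem h hr hz).2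
  obtain ⟨a3, b3⟩ := pl_log_sub (z := 0) (r := r) (t := y 0) (by rwa [add_zero])
  obtain ⟨a4, b4⟩ := pl_log_norm (z := 0) (a := fun w => (y 0 + w) / (r : ℂ))
    ((contDiffAt_const.add contDiffAt_id).div_const _)
    (div_ne_zero (by rwa [add_zero]) (by exact_mod_cast hr.ne'))
  have a2' : ContDiffAt ℝ 2 (fun w => 2 * Real.log ‖dl Ξ (tau Ξ Ω r y w)‖) 0 :=
    contDiffAt_const.mul a2
  have a4' : ContDiffAt ℝ 2 (fun w : ℂ => 1 / 2 * Real.log ‖(y 0 + w) / (r : ℂ)‖) 0 :=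
    contDiffAt_const.mul a4
  refine ⟨fun w => Real.log (Dc.hy r ‖w - c‖) + 2 * Real.log ‖dl Ξ (tau Ξ Ω r y w)‖ +
    Real.log ((r ^ 2 - ‖y 0 + w‖ ^ 2) / (2 * r)) + 1 / 2 * Real.log ‖(y 0 + w) / (r : ℂ)‖,
    ((a1.add a2').add a3).add a4', ?_, ?_, ?_⟩
  · rw [pl_add ((a1.add a2').add a3) a4', pl_add (a1.add a2') a3, pl_add a1 a2', pl_const_mul,
      pl_const_mul, b1, b2, b3, b4, hc0, add_zero (y 0)]
    have e1 := hy_pos hρ0 (rho_le hr Ξ Ω y)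
    have e2 : 0 < r ^ 2 - ‖y 0‖ ^ 2 := by nlinarith [norm_nonneg (y 0)]
    have e3 : wt Ξ Ω r p y ≤ Dc.hy r (rho Ξ Ω r y) * ((r ^ 2 - ‖y 0‖ ^ 2) / (2 * r)) := by
      unfold wt
      rw [max_eq_left e2.le]
      have := jac_nonneg Ξ y
      refine (mul_le_of_le_one_right (by positivity) hs).trans ?_
      exact mul_le_mul_of_nonneg_right (mul_le_of_le_one_right e1.le (hp.jac_le hy.1))
        (by positivity)
    have e4 : 2 * r / (r ^ 2 - ‖y 0‖ ^ 2) ≤ Dc.hy r (rho Ξ Ω r y) := by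
      have := hw.trans_le e3
      rw [← mul_div_assoc, lt_div_iff₀ (by positivity), one_mul] at this
      rw [div_le_iff₀ e2]
      exact this.le
    have e5 := pow_le_pow_left₀ (by positivity) e4 2
    linarith
  · simp only [sb, nn, tau_zero, max_eq_left hw.le, hc0, add_zero]
    exact (Wt2_log h hr p hy ht ht0).2.symm
  · have n1 : ∀ᶠ w in 𝓝 (0 : ℂ), ‖w‖ < rho Ξ Ω r y :=
      continuous_norm.continuousAt.eventually_lt continuousAt_const hz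
    have n2 : ∀ᶠ w in 𝓝 (0 : ℂ), ‖y 0 + w‖ < r :=
      (continuous_const.add continuous_id).norm.continuousAt.eventually_lt continuousAt_const
        (by simpa using ht)
    have n3 : ∀ᶠ w in 𝓝 (0 : ℂ), y 0 + w ≠ 0 :=
      (continuous_const.add continuous_id).continuousAt.eventually_ne (by simpa using ht0)
    filter_upwards [n1, n2, n3] with w w1 w2 w3
    have m := tau_mem h hr w1
    rw [← tau_fst h hr w1] at w2 w3 ⊢
    obtain ⟨k1, k2⟩ := Wt2_log h hr p m w2 w3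
    have k3 : ‖w - c‖ ≤ r := (norm_sub_le _ _).trans (by linarith)
    have k4 := rho_pos h hr m
    have k5 := Real.log_le_log (hy_pos (k4.trans_le (hsup w w1)) k3) (hy_anti k4 (hsup w w1) k3)
    have k6 := Real.log_le_log k1 (le_max_left _ 1)
    unfold sb nn
    linarith

/-- `visc`, with the supporting functions `w ↦ φ (w - z)` of the points `tau y z` (`pl_shift`,
`tau_tau`). -/
theorem av_sb_nonneg (h : Fo Ξ Ω) (hr : 0 < r) (hp : Pt Ξ Ω p) {δ : ℝ} (hδ : 0 < δ)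
    (hρ : δ < rho Ξ Ω r y) : 0 ≤ av Ξ Ω r δ (sb Ξ Ω r p) y := by
  rw [av_eq]
  refine visc hδ ((Wt2_cont h hr hp hρ).1.add (Wt2_cont h hr hp hρ).2) fun z hz => ?_
  have hz' : ‖z‖ < rho Ξ Ω r y := (mem_ball_zero_iff.1 hz).trans hρ
  have m := tau_mem h hr hz'
  obtain ⟨φ, f1, f2, f3, f4⟩ := sb_support h hr hp m
  have f1' : ContDiffAt ℝ 2 φ (z - z) := by rwa [sub_self]
  have ht : Tendsto (fun w => w - z) (𝓝 z) (𝓝 0) := by
    simpa using (continuous_sub_right z).tendsto z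
  refine ⟨fun w => φ (w - z),
    f1'.comp z (f := fun w => w - z) (contDiffAt_id.sub contDiffAt_const), ?_, ?_, ?_⟩
  · rwa [pl_shift z f1', sub_self]
  · simp only [sub_self, f3]
  · have n1 : ∀ᶠ w in 𝓝 z, ‖w‖ < rho Ξ Ω r y :=
      continuous_norm.continuousAt.eventually_lt continuousAt_const hz'
    have n2 : ∀ᶠ w in 𝓝 (0 : ℂ), ‖w‖ < rho Ξ Ω r (tau Ξ Ω r y z) :=
      continuous_norm.continuousAt.eventually_lt continuousAt_const
        (by rw [norm_zero]; exact rho_pos h hr m)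
    filter_upwards [n1, ht.eventually n2, ht.eventually f4] with w w1 w2 w3
    rwa [tau_tau h hr hz' w2 (by rwa [add_sub_cancel]), add_sub_cancel] at w3

/-- `ad_add`, `ad_const_mul`. -/
theorem av_sb (h : Fo Ξ Ω) (hr : 0 < r) (hp : Pt Ξ Ω p) {δ : ℝ} (hδ : 0 < δ)
    (hρ : δ < rho Ξ Ω r y) : av Ξ Ω r δ (sb Ξ Ω r p) y =
      av Ξ Ω r δ (nn Ξ Ω r p) y + 2 * av Ξ Ω r δ p y := by
  rw [av_eq, av_eq, av_eq, ← ad_const_mul,
    ← ad_add hδ (Wt2_cont h hr hp hρ).1 (Wt2_cont h hr hp hρ).2]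
  rfl

end Pool.Agent.Lib.MP_a47f92_an.Dc
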